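import Pool.Agent.H39.BSel.Defs

set_option autoImplicit false
set_option linter.unusedSectionVars false

/-!
Criteria for the Borel selection properties in terms of Borel functions into `ℕ → ℕ`.
-/

namespace Pool.Agent.H39.BSel

open Set Filter

section Crit

variable {T : Type} [MeasurableSpace T]

theorem IsGa.exists_enum {U : Set (Set T)} (h : IsGa U) :
    ∃ e : ℕ → Set T, Function.Injective e ∧ range e = U := by
  obtain ⟨hd⟩ := Set.countable_infinite_iff_nonempty_denumerable.1 ⟨h.1.1, h.2.1⟩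
  refine ⟨fun n => ((Denumerable.eqv U).symm n : Set T),
    Subtype.val_injective.comp (Denumerable.eqv U).symm.injective, ?_⟩
  ext V
  constructor
  · rintro ⟨n, rfl⟩
    exact ((Denumerable.eqv U).symm n).2
  · intro hV
    exact ⟨Denumerable.eqv U ⟨V, hV⟩, by simp⟩

/-- For an enumerated γ-cover every point is eventually in the members. -/
theorem IsGa.exists_ge {U : Set (Set T)} (h : IsGa U) {e : ℕ → Set T}
    (he : Function.Injective e) (heU : range e = U) (x : T) : ∃ m, ∀ m' ≥ m, x ∈ e m' := by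
  have h1 : {m | x ∉ e m}.Finite := by
    apply Set.Finite.of_finite_image (f := e) _ he.injOn
    apply (h.2.2 x).subset
    rintro _ ⟨m, hm, rfl⟩
    exact ⟨heU ▸ mem_range_self m, hm⟩
  obtain ⟨b, hb⟩ := h1.bddAbove
  refine ⟨b + 1, fun m' hm' => ?_⟩
  by_contra h2
  have := hb h2
  omega

theorem P42 (h : P T 4) : P T 2 := by
  classical
  intro U hU
  choose e he heU using fun n => (hU n).exists_enum
  have hge : ∀ n x, ∃ m, ∀ m' ≥ m, x ∈ e n m' := fun n x =>
    (hU n).exists_ge (he n) (heU n) x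
  have hmem : ∀ n m, e n m ∈ U n := fun n m => heU n ▸ mem_range_self m
  set W : ℕ → ℕ → Set T := fun n k => ⋂ m' ∈ Ici k, e n m' with hW
  have hWm : ∀ n, Monotone (W n) := fun n a b hab =>
    biInter_subset_biInter_left (Ici_subset_Ici.2 hab)
  have hWu : ∀ n, ⋃ m, W n m = univ := by
    intro n
    rw [eq_univ_iff_forall]
    intro x
    obtain ⟨m, hm⟩ := hge n x
    exact mem_iUnion.2 ⟨m, mem_iInter₂.2 hm⟩
  have hWe : ∀ n k, W n k ⊆ e n k := fun n k => biInter_subset_of_mem (mem_Ici.2 le_rfl)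
  have hWn : ∀ n k, W n k ≠ univ := by
    intro n k h1
    apply (hU n).1.2.2.2
    have : e n k = univ := univ_subset_iff.1 (h1 ▸ hWe n k)
    exact this ▸ hmem n k
  have hWmeas : ∀ n k, MeasurableSet (W n k) := fun n k =>
    MeasurableSet.biInter (to_countable _) fun m' _ => (hU n).1.2.1 _ (hmem n m')
  obtain ⟨F, hF, hom⟩ := h (fun n => range (W n)) fun n =>
    (isGa_range (hWm n) (hWu n) (hWn n) (hWmeas n)).isOm
  have hg : ∀ n, ∃ g, ∀ V ∈ F n, V ⊆ W n g := by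
    intro n
    obtain ⟨hfin, hsub⟩ := hF n
    choose! k hk using hsub
    obtain ⟨g, hg⟩ := (hfin.image k).bddAbove
    refine ⟨g, fun V hV => ?_⟩
    rw [← hk hV]
    exact hWm n (hg (mem_image_of_mem k hV))
  choose g hg using hg
  have hcov : ∀ S : Set T, S.Finite → ∃ n, S ⊆ e n (g n) := by
    intro S hS
    obtain ⟨V, hV, hSV⟩ := hom.2 S hS
    obtain ⟨n, hn⟩ := mem_iUnion.1 hV
    exact ⟨n, hSV.trans ((hg n V hn).trans (hWe n (g n)))⟩
  refine ⟨fun n => e n (g n), fun n => hmem n (g n), ⟨countable_range _, ?_, ?_, ?_⟩, ?_⟩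
  · rintro _ ⟨n, rfl⟩; exact (hU n).1.2.1 _ (hmem n (g n))
  · rw [eq_univ_iff_forall]
    intro x
    obtain ⟨n, hn⟩ := hcov {x} (finite_singleton x)
    exact ⟨_, mem_range_self n, hn rfl⟩
  · rintro ⟨n, hn⟩
    exact (hU n).1.2.2.2 (hn ▸ hmem n (g n))
  · intro S hS
    obtain ⟨n, hn⟩ := hcov S hS
    exact ⟨_, mem_range_self n, hn⟩

theorem measurable_sInf {D : ℕ → T → Prop} (hD : ∀ m, MeasurableSet {x | D m x})
    (hne : ∀ x, ∃ m, D m x) : Measurable fun x => sInf {m | D m x} := by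
  apply measurable_of_Iic
  intro v
  have : (fun x => sInf {m | D m x}) ⁻¹' Iic v = ⋃ m ∈ Iic v, {x | D m x} := by
    ext x
    simp only [mem_preimage, mem_Iic, mem_iUnion, mem_ofPred_eq, exists_prop]
    constructor
    · intro h
      exact ⟨_, h, Nat.sInf_mem (s := {m | D m x}) (hne x)⟩
    · rintro ⟨m, hm, h⟩
      exact (Nat.sInf_le (s := {m | D m x}) h).trans hm
  rw [this]
  exact MeasurableSet.biUnion (to_countable _) fun m _ => hD m

theorem sInf_spec' {D : ℕ → Prop} (h : ∃ m, D m) : D (sInf {m | D m}) :=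
  Nat.sInf_mem (s := {m | D m}) h

/-- Bounded Borel images give `S₁(Γ,Γ)`. -/
theorem crit1 (h : ∀ f : T → ℕ → ℕ, (∀ n, Measurable (f · n)) →
    ∃ g : ℕ → ℕ, ∀ x, ∀ᶠ n in atTop, f x n ≤ g n) : P T 1 := by
  classical
  intro U hU
  choose e he heU using fun n => (hU n).exists_enum
  have hge : ∀ n x, ∃ m, ∀ m' ≥ m, x ∈ e n m' := fun n x =>
    (hU n).exists_ge (he n) (heU n) x
  have hmem : ∀ n m, e n m ∈ U n := fun n m => heU n ▸ mem_range_self m
  obtain ⟨g, hg⟩ := h (fun x n => sInf {m | ∀ m' ≥ m, x ∈ e n m'}) (fun n => by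
    apply measurable_sInf
    · intro m
      have : {x | ∀ m' ≥ m, x ∈ e n m'} = ⋂ m' ∈ Ici m, e n m' := by ext x; simp
      rw [this]
      exact MeasurableSet.biInter (to_countable _) fun m' _ => (hU n).1.2.1 _ (hmem n m')
    · exact hge n)
  have hev : ∀ x, ∀ᶠ n in atTop, x ∈ e n (g n) := by
    intro x
    filter_upwards [hg x] with n hn
    exact sInf_spec' (D := fun m => ∀ m' ≥ m, x ∈ e n m') (hge n x) (g n) hn
  refine ⟨fun n => e n (g n), fun n => hmem n (g n), ⟨countable_range _, ?_, ?_, ?_⟩, ?_, ?_⟩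
  · rintro _ ⟨n, rfl⟩; exact (hU n).1.2.1 _ (hmem n (g n))
  · rw [eq_univ_iff_forall]
    intro x
    obtain ⟨n, hn⟩ := (hev x).exists
    exact ⟨_, mem_range_self n, hn⟩
  · rintro ⟨n, hn⟩
    exact (hU n).1.2.2.2 (hn ▸ hmem n (g n))
  · intro hfin
    have : Finite (range fun n => e n (g n)) := hfin.to_subtype
    obtain ⟨V, hV⟩ := Finite.exists_infinite_fiber (rangeFactorization fun n => e n (g n))
    obtain ⟨n0, hn0⟩ : ∃ n0, e n0 (g n0) = V := V.2
    apply (hU n0).1.2.2.2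
    have : e n0 (g n0) = univ := by
      rw [eq_univ_iff_forall]
      intro x
      obtain ⟨N, hN⟩ := eventually_atTop.1 (hev x)
      have hinf : ((rangeFactorization fun n => e n (g n)) ⁻¹' {V}).Infinite :=
        Set.infinite_coe_iff.1 hV
      obtain ⟨n, hn, hnN⟩ := hinf.exists_gt N
      have h1 : e n (g n) = V := congrArg Subtype.val hn
      rw [hn0, ← h1]
      exact hN n hnN.le
    exact this ▸ hmem n0 (g n0)
  · intro x
    obtain ⟨N, hN⟩ := eventually_atTop.1 (hev x)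
    apply ((finite_Iio N).image fun n => e n (g n)).subset
    rintro _ ⟨⟨n, rfl⟩, h1⟩
    refine ⟨n, ?_, rfl⟩
    by_contra h2
    exact h1 (hN n (not_lt.1 h2))

/-- Images that are not finitely dominating give `S₁(Γ,Ω)`. -/
theorem crit2 (h : ∀ f : T → ℕ → ℕ, (∀ n, Measurable (f · n)) →
    ∃ g : ℕ → ℕ, ∀ F : Set T, F.Finite → ∃ n, ∀ x ∈ F, f x n ≤ g n) : P T 2 := by
  classical
  intro U hU
  choose e he heU using fun n => (hU n).exists_enum
  have hge : ∀ n x, ∃ m, ∀ m' ≥ m, x ∈ e n m' := fun n x =>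
    (hU n).exists_ge (he n) (heU n) x
  have hmem : ∀ n m, e n m ∈ U n := fun n m => heU n ▸ mem_range_self m
  obtain ⟨g, hg⟩ := h (fun x n => sInf {m | ∀ m' ≥ m, x ∈ e n m'}) (fun n => by
    apply measurable_sInf
    · intro m
      have : {x | ∀ m' ≥ m, x ∈ e n m'} = ⋂ m' ∈ Ici m, e n m' := by ext x; simp
      rw [this]
      exact MeasurableSet.biInter (to_countable _) fun m' _ => (hU n).1.2.1 _ (hmem n m')
    · exact hge n)
  have hcov : ∀ S : Set T, S.Finite → ∃ n, S ⊆ e n (g n) := by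
    intro S hS
    obtain ⟨n, hn⟩ := hg S hS
    exact ⟨n, fun x hx => sInf_spec' (D := fun m => ∀ m' ≥ m, x ∈ e n m') (hge n x) (g n) (hn x hx)⟩
  refine ⟨fun n => e n (g n), fun n => hmem n (g n), ⟨countable_range _, ?_, ?_, ?_⟩, ?_⟩
  · rintro _ ⟨n, rfl⟩; exact (hU n).1.2.1 _ (hmem n (g n))
  · rw [eq_univ_iff_forall]
    intro x
    obtain ⟨n, hn⟩ := hcov {x} (finite_singleton x)
    exact ⟨_, mem_range_self n, hn rfl⟩
  · rintro ⟨n, hn⟩
    exact (hU n).1.2.2.2 (hn ▸ hmem n (g n))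
  · intro S hS
    obtain ⟨n, hn⟩ := hcov S hS
    exact ⟨_, mem_range_self n, hn⟩

/-- Finite powers with non-dominating images give `S_fin(Ω,Ω)`. -/
theorem crit4 (hT : Nonempty T) (h : ∀ k, ∀ f : (Fin k → T) → ℕ → ℕ, (∀ n, Measurable (f · n)) →
    ∃ g : ℕ → ℕ, ∀ F, ∃ᶠ n in atTop, f F n ≤ g n) : P T 4 := by
  classical
  intro U hU
  have he : ∀ n, ∃ e : ℕ → Set T, U n = range e := fun n => by
    obtain ⟨e, he⟩ := (hU n).1.1.exists_eq_range ((hU n).1.nonempty hT)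
    exact ⟨e, he⟩
  choose e heU using he
  have hmem : ∀ n m, e n m ∈ U n := fun n m => by rw [heU n]; exact mem_range_self m
  have hex : ∀ k n (F : Fin k → T), ∃ m, ∀ i, F i ∈ e n m := by
    intro k n F
    obtain ⟨V, hV, hFV⟩ := (hU n).2 (range F) (finite_range F)
    rw [heU n] at hV
    obtain ⟨m, rfl⟩ := hV
    exact ⟨m, fun i => hFV (mem_range_self i)⟩
  have hg : ∀ k, ∃ g : ℕ → ℕ, ∀ F : Fin k → T, ∃ᶠ n in atTop,
      sInf {m | ∀ i, F i ∈ e n m} ≤ g n := by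
    intro k
    apply h k (fun F n => sInf {m | ∀ i, F i ∈ e n m})
    intro n
    apply measurable_sInf
    · intro m
      have : {F : Fin k → T | ∀ i, F i ∈ e n m} = ⋂ i, (fun F : Fin k → T => F i) ⁻¹' (e n m) := by
        ext F; simp
      rw [this]
      exact MeasurableSet.iInter fun i => measurable_pi_apply i ((hU n).1.2.1 _ (hmem n m))
    · exact hex k n
  choose g hg using hg
  set G : ℕ → ℕ := fun n => (Finset.range (n + 1)).sup fun k => g k n with hG
  have hgG : ∀ k n, k ≤ n → g k n ≤ G n := fun k n hk =>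
    Finset.le_sup (f := fun k => g k n) (Finset.mem_range.2 (Nat.lt_succ_of_le hk))
  have hcov : ∀ S : Set T, S.Finite → ∃ n, ∃ m ≤ G n, S ⊆ e n m := by
    intro S hS
    have := hS.fintype
    obtain ⟨F, hF⟩ : ∃ F : Fin (Fintype.card S) → T, range F = S := by
      refine ⟨fun i => ((Fintype.equivFin S).symm i : T), ?_⟩
      ext x
      constructor
      · rintro ⟨i, rfl⟩; exact ((Fintype.equivFin S).symm i).2
      · intro hx; exact ⟨Fintype.equivFin S ⟨x, hx⟩, by simp⟩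
    obtain ⟨n, h1, h2⟩ := ((hg _ F).and_eventually (eventually_ge_atTop (Fintype.card S))).exists
    refine ⟨n, _, h1.trans (hgG _ n h2), hF.symm.subset.trans ?_⟩
    rintro _ ⟨i, rfl⟩
    exact sInf_spec' (D := fun m => ∀ i, F i ∈ e n m) (hex _ n F) i
  refine ⟨fun n => e n '' (Finset.range (G n + 1) : Set ℕ), fun n =>
    ⟨(Finset.finite_toSet _).image _, ?_⟩, ⟨?_, ?_, ?_, ?_⟩, ?_⟩
  · rintro _ ⟨i, _, rfl⟩
    exact hmem n i
  · exact countable_iUnion fun n => ((Finset.finite_toSet _).image _).countable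
  · intro V hV
    obtain ⟨n, i, _, rfl⟩ := mem_iUnion.1 hV
    exact (hU n).1.2.1 _ (hmem n i)
  · rw [eq_univ_iff_forall]
    intro x
    obtain ⟨n, m, hm, hx⟩ := hcov {x} (finite_singleton x)
    exact ⟨e n m, mem_iUnion.2 ⟨n, m, by simpa using Nat.lt_succ_of_le hm, rfl⟩, hx rfl⟩
  · intro hV
    obtain ⟨n, i, _, h1⟩ := mem_iUnion.1 hV
    exact (hU n).1.2.2.2 (h1 ▸ hmem n i)
  · intro S hS
    obtain ⟨n, m, hm, hx⟩ := hcov S hS
    exact ⟨e n m, mem_iUnion.2 ⟨n, m, by simpa using Nat.lt_succ_of_le hm, rfl⟩, hx⟩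

/-- Infinitely-often-equal images give `S₁(B,B)`. -/
theorem crit7 (hT : Nonempty T) (h : ∀ f : T → ℕ → ℕ, (∀ n, Measurable (f · n)) →
    ∃ g : ℕ → ℕ, ∀ x, ∃ n, f x n = g n) : P T 7 := by
  classical
  intro U hU
  have he : ∀ n, ∃ e : ℕ → Set T, U n = range e := fun n => by
    obtain ⟨e, he⟩ := (hU n).1.exists_eq_range ((hU n).nonempty hT)
    exact ⟨e, he⟩
  choose e heU using he
  have hmem : ∀ n m, e n m ∈ U n := fun n m => by rw [heU n]; exact mem_range_self m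
  have hex : ∀ n x, ∃ m, x ∈ e n m := by
    intro n x
    have : x ∈ ⋃₀ U n := (hU n).2.2.1 ▸ mem_univ x
    rw [heU n, sUnion_range] at this
    exact mem_iUnion.1 this
  obtain ⟨g, hg⟩ := h (fun x n => sInf {m | x ∈ e n m}) (fun n =>
    measurable_sInf (D := fun m x => x ∈ e n m) (fun m => (hU n).2.1 _ (hmem n m)) (hex n))
  refine ⟨fun n => e n (g n), fun n => hmem n (g n), countable_range _, ?_, ?_, ?_⟩
  · rintro _ ⟨n, rfl⟩; exact (hU n).2.1 _ (hmem n (g n))
  · rw [eq_univ_iff_forall]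
    intro x
    obtain ⟨n, hn⟩ := hg x
    refine ⟨_, mem_range_self n, ?_⟩
    have := sInf_spec' (D := fun m => x ∈ e n m) (hex n x)
    rwa [hn] at this
  · rintro ⟨n, hn⟩
    exact (hU n).2.2.2 (hn ▸ hmem n (g n))

/-- `S₁(Γ,Γ)` bounds monotone Borel images which are unbounded in the first coordinate. -/
theorem neg1 (h : P T 1) (f : T → ℕ → ℕ) (hf : ∀ n, Measurable (f · n))
    (hmono : ∀ x, Monotone (f x)) (hunb : ∀ m, ∃ x, m < f x 0) :
    ∃ g : ℕ → ℕ, ∀ x, ∀ᶠ n in atTop, f x n ≤ g n := by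
  classical
  set W : ℕ → ℕ → Set T := fun n m => {x | f x n ≤ m} with hW
  obtain ⟨u, hu, hga⟩ := h (fun n => range (W n)) fun n => by
    apply isGa_range
    · intro a b hab x hx
      exact le_trans hx hab
    · rw [eq_univ_iff_forall]
      intro x
      exact mem_iUnion.2 ⟨f x n, by simp [hW]⟩
    · intro m hm
      obtain ⟨x, hx⟩ := hunb m
      have : x ∈ W n m := hm ▸ mem_univ x
      have h1 : f x n ≤ m := this
      have h2 := hmono x (Nat.zero_le n)
      omega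
    · intro m
      exact measurableSet_le (hf n) measurable_const
  choose g hg using hu
  -- indices of first occurrences
  set N : Set ℕ := {n | ∀ k < n, u k ≠ u n} with hN
  have hinj : InjOn u N := by
    intro a ha b hb hab
    rcases lt_trichotomy a b with h1 | h1 | h1
    · exact absurd hab (hb a h1)
    · exact h1
    · exact absurd hab.symm (ha b h1)
  have himg : u '' N = range u := by
    ext V
    constructor
    · rintro ⟨n, _, rfl⟩; exact mem_range_self n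
    · rintro ⟨n, rfl⟩
      have hex : ∃ k, u k = u n := ⟨n, rfl⟩
      refine ⟨Nat.find hex, fun k hk h1 => ?_, Nat.find_spec hex⟩
      exact Nat.find_min hex hk (h1.trans (Nat.find_spec hex))
  have hNinf : N.Infinite := by
    intro hfin
    apply hga.2.1
    rw [← himg]
    exact hfin.image u
  have hnext : ∀ n, ∃ n' ∈ N, n ≤ n' := fun n => by
    obtain ⟨n', h1, h2⟩ := hNinf.exists_gt n
    exact ⟨n', h1, h2.le⟩
  choose nx hnx1 hnx2 using hnext
  refine ⟨fun n => g (nx n), fun x => ?_⟩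
  have hfin : {n ∈ N | x ∉ u n}.Finite := by
    apply Set.Finite.of_finite_image (f := u) _ (hinj.mono (sep_subset _ _))
    apply (hga.2.2 x).subset
    rintro _ ⟨n, hn, rfl⟩
    exact ⟨mem_range_self n, hn.2⟩
  obtain ⟨b, hb⟩ := hfin.bddAbove
  filter_upwards [eventually_gt_atTop b] with n hn
  have h1 : x ∈ u (nx n) := by
    by_contra h2
    have := hb ⟨hnx1 n, h2⟩
    have := hnx2 n
    omega
  rw [← hg (nx n)] at h1
  exact (hmono x (hnx2 n)).trans h1

end Crit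

section Sub

variable {E : Type} [MeasurableSpace E]

/-- Extension of `ℕ`-valued measurable functions along a map inducing the σ-algebra. -/
theorem exists_extend {S : Type} (ι : S → E) {f : S → ℕ}
    (hf : @Measurable S ℕ (MeasurableSpace.comap ι inferInstance) _ f) :
    ∃ f' : E → ℕ, Measurable f' ∧ ∀ s, f' (ι s) = f s := by
  classical
  have h1 : ∀ v, ∃ D : Set E, MeasurableSet D ∧ ι ⁻¹' D = f ⁻¹' {v} := fun v =>
    hf (measurableSet_singleton v)
  choose D hD1 hD2 using h1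
  have hD3 : ∀ v s, ι s ∈ D v ↔ f s = v := by
    intro v s
    have : s ∈ ι ⁻¹' D v ↔ s ∈ f ⁻¹' {v} := by rw [hD2 v]
    simpa using this
  refine ⟨fun x => if ∃ v, x ∈ D v then sInf {m | x ∈ D m} else 0, ?_, fun s => ?_⟩
  · have hm : MeasurableSet {x | ∃ v, x ∈ D v} := by
      have : {x | ∃ v, x ∈ D v} = ⋃ v, D v := by ext x; simp
      rw [this]
      exact MeasurableSet.iUnion hD1
    have h2 : Measurable fun x => sInf {m | x ∈ D m ∨ x ∉ {x | ∃ v, x ∈ D v}} := by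
      apply measurable_sInf (D := fun m x => x ∈ D m ∨ x ∉ {x | ∃ v, x ∈ D v})
      · intro m
        exact (hD1 m).union hm.compl
      · intro x
        by_cases h : ∃ v, x ∈ D v
        · obtain ⟨v, hv⟩ := h; exact ⟨v, Or.inl hv⟩
        · exact ⟨0, Or.inr h⟩
    convert h2 using 2 with x
    by_cases h : ∃ v, x ∈ D v
    · rw [if_pos h]
      congr 1
      ext m
      simp only [mem_ofPred_eq]
      constructor
      · exact fun h => Or.inl h
      · rintro (h3 | h3)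
        · exact h3
        · exact absurd h h3
    · rw [if_neg h]
      symm
      have : {m | x ∈ D m ∨ x ∉ {x | ∃ v, x ∈ D v}} = univ := by
        ext m; simp only [mem_ofPred_eq, mem_univ, iff_true]; exact Or.inr h
      rw [this]
      simp
  · have h : ∃ v, ι s ∈ D v := ⟨f s, (hD3 _ _).2 rfl⟩
    simp only [if_pos h]
    have : {m | ι s ∈ D m} = {f s} := by
      ext m
      simp only [mem_ofPred_eq, mem_singleton_iff, hD3]
      exact eq_comm
    rw [this]
    simp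

theorem exists_extend_sub {A : Set E} {f : A → ℕ → ℕ} (hf : ∀ n, Measurable (f · n)) :
    ∃ f' : E → ℕ → ℕ, (∀ n, Measurable (f' · n)) ∧ ∀ x : A, f' x = f x := by
  have h1 : ∀ n, ∃ f' : E → ℕ, Measurable f' ∧ ∀ s : A, f' s = f s n := fun n =>
    exists_extend Subtype.val (hf n)
  choose f' h2 h3 using h1
  exact ⟨fun x n => f' n x, h2, fun x => funext fun n => h3 n x⟩

theorem pi_comap (k : ℕ) (A : Set E) :
    (MeasurableSpace.pi : MeasurableSpace (Fin k → A)) =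
      MeasurableSpace.comap (fun F i => (F i : E)) MeasurableSpace.pi := by
  simp only [MeasurableSpace.pi, MeasurableSpace.comap_iSup, MeasurableSpace.comap_comp]
  apply iSup_congr
  intro i
  show MeasurableSpace.comap _ (MeasurableSpace.comap _ _) = _
  rw [MeasurableSpace.comap_comp]
  rfl

theorem exists_extend_pi {k : ℕ} {A : Set E} {f : (Fin k → A) → ℕ → ℕ}
    (hf : ∀ n, Measurable (f · n)) :
    ∃ f' : (Fin k → E) → ℕ → ℕ, (∀ n, Measurable (f' · n)) ∧
      ∀ F : Fin k → A, f' (fun i => F i) = f F := by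
  have h1 : ∀ n, ∃ f' : (Fin k → E) → ℕ, Measurable f' ∧
      ∀ F : Fin k → A, f' (fun i => F i) = f F n := fun n => by
    apply exists_extend (fun (F : Fin k → A) i => (F i : E))
    have := hf n
    rwa [pi_comap] at this
  choose f' h2 h3 using h1
  exact ⟨fun x n => f' n x, h2, fun x => funext fun n => h3 n x⟩

/-- Borel images of `A` are bounded. -/
def Bdd (A : Set E) : Prop := ∀ f : E → ℕ → ℕ, (∀ n, Measurable (f · n)) →
  ∃ g : ℕ → ℕ, ∀ x ∈ A, ∀ᶠ n in atTop, f x n ≤ g n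

/-- Borel images of `A` are not finitely dominating. -/
def Fi (A : Set E) : Prop := ∀ f : E → ℕ → ℕ, (∀ n, Measurable (f · n)) →
  ∃ g : ℕ → ℕ, ∀ F ⊆ A, F.Finite → ∃ᶠ n in atTop, ∀ x ∈ F, f x n ≤ g n

/-- Borel images of `A` are guessed. -/
def Ie (A : Set E) : Prop := ∀ f : E → ℕ → ℕ, (∀ n, Measurable (f · n)) →
  ∃ g : ℕ → ℕ, ∀ x ∈ A, ∃ n, f x n = g n

/-- Borel images of finite powers of `A` are not dominating. -/
def Pw (A : Set E) : Prop := ∀ k, ∀ f : (Fin k → E) → ℕ → ℕ, (∀ n, Measurable (f · n)) →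
  ∃ g : ℕ → ℕ, ∀ F, (∀ i, F i ∈ A) → ∃ᶠ n in atTop, f F n ≤ g n

theorem Bdd.P1 {A : Set E} (h : Bdd A) : P A 1 := by
  apply crit1
  intro f hf
  obtain ⟨f', h1, h2⟩ := exists_extend_sub hf
  obtain ⟨g, hg⟩ := h f' h1
  exact ⟨g, fun x => by rw [← h2 x]; exact hg x x.2⟩

theorem Fi.P2 {A : Set E} (h : Fi A) : P A 2 := by
  apply crit2
  intro f hf
  obtain ⟨f', h1, h2⟩ := exists_extend_sub hf
  obtain ⟨g, hg⟩ := h f' h1
  refine ⟨g, fun F hF => ?_⟩
  obtain ⟨n, hn⟩ := (hg (Subtype.val '' F) (by rintro _ ⟨x, _, rfl⟩; exact x.2)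
    (hF.image _)).exists
  exact ⟨n, fun x hx => by rw [← h2 x]; exact hn x (mem_image_of_mem _ hx)⟩

theorem Pw.P4 {A : Set E} (hA : A.Nonempty) (h : Pw A) : P A 4 := by
  apply crit4 hA.to_subtype
  intro k f hf
  obtain ⟨f', h1, h2⟩ := exists_extend_pi hf
  obtain ⟨g, hg⟩ := h k f' h1
  exact ⟨g, fun F => by rw [← h2 F]; exact hg _ fun i => (F i).2⟩

theorem Ie.P7 {A : Set E} (hA : A.Nonempty) (h : Ie A) : P A 7 := by
  apply crit7 hA.to_subtype
  intro f hf
  obtain ⟨f', h1, h2⟩ := exists_extend_sub hf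
  obtain ⟨g, hg⟩ := h f' h1
  exact ⟨g, fun x => by rw [← h2 x]; exact hg x x.2⟩

theorem Pw.mono {A B : Set E} (hAB : A ⊆ B) (h : Pw B) : Pw A := fun k f hf => by
  obtain ⟨g, hg⟩ := h k f hf
  exact ⟨g, fun F hF => hg F fun i => hAB (hF i)⟩

theorem Pw.fi {A : Set E} (h : Pw A) : Fi A := by
  classical
  intro f hf
  have h1 : ∀ k, ∃ g : ℕ → ℕ, ∀ F : Fin k → E, (∀ i, F i ∈ A) → ∃ᶠ n in atTop,
      (Finset.univ.sup fun i => f (F i) n) ≤ g n := by
    intro k
    apply h k (fun F n => Finset.univ.sup fun i => f (F i) n)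
    intro n
    apply measurable_of_Iic
    intro v
    have : (fun F : Fin k → E => Finset.univ.sup fun i => f (F i) n) ⁻¹' Iic v =
        ⋂ i, {F : Fin k → E | f (F i) n ≤ v} := by
      ext F; simp
    rw [this]
    exact MeasurableSet.iInter fun i =>
      measurableSet_le ((hf n).comp (measurable_pi_apply i)) measurable_const
  choose g hg using h1
  refine ⟨fun n => (Finset.range (n + 1)).sup fun k => g k n, fun F hFA hF => ?_⟩
  have := hF.fintype
  have h2 := hg (Fintype.card F) (fun i => ((Fintype.equivFin F).symm i : E))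
    (fun i => hFA ((Fintype.equivFin F).symm i).2)
  apply (h2.and_eventually (eventually_ge_atTop (Fintype.card F))).mono
  rintro n ⟨h3, h4⟩ x hx
  have h5 : f x n ≤ Finset.univ.sup fun i => f ((Fintype.equivFin F).symm i : E) n := by
    have := Finset.le_sup (f := fun i => f ((Fintype.equivFin F).symm i : E) n)
      (Finset.mem_univ (Fintype.equivFin F ⟨x, hx⟩))
    simpa using this
  exact (h5.trans h3).trans (Finset.le_sup (f := fun k => g k n)
    (Finset.mem_range.2 (Nat.lt_succ_of_le h4)))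

theorem Bdd.union {A B : Set E} (hA : Bdd A) (hB : Bdd B) : Bdd (A ∪ B) := by
  intro f hf
  obtain ⟨g, hg⟩ := hA f hf
  obtain ⟨g', hg'⟩ := hB f hf
  refine ⟨fun n => max (g n) (g' n), ?_⟩
  rintro x (hx | hx)
  · filter_upwards [hg x hx] with n hn using hn.trans (le_max_left _ _)
  · filter_upwards [hg' x hx] with n hn using hn.trans (le_max_right _ _)

theorem Bdd.union_fi {A B : Set E} (hA : Bdd A) (hB : Fi B) : Fi (A ∪ B) := by
  intro f hf
  obtain ⟨g, hg⟩ := hA f hf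
  obtain ⟨g', hg'⟩ := hB (fun x n => f x n) hf
  refine ⟨fun n => max (g n) (g' n), fun F hFAB hF => ?_⟩
  have h1 := hg' (F ∩ B) inter_subset_right (hF.subset inter_subset_left)
  have h2 : ∀ᶠ n in atTop, ∀ x ∈ F ∩ A, f x n ≤ g n := by
    rw [Filter.eventually_all_finite (hF.subset inter_subset_left)]
    exact fun x hx => hg x hx.2
  apply (h1.and_eventually h2).mono
  rintro n ⟨h3, h4⟩ x hx
  rcases hFAB hx with h5 | h5
  · exact (h4 x ⟨hx, h5⟩).trans (le_max_left _ _)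
  · exact (h3 x ⟨hx, h5⟩).trans (le_max_right _ _)

theorem Ie.union {A B : Set E} (hA : Ie A) (hB : Ie B) : Ie (A ∪ B) := by
  intro f hf
  obtain ⟨g, hg⟩ := hA (fun x n => f x (2 * n)) (fun n => hf _)
  obtain ⟨g', hg'⟩ := hB (fun x n => f x (2 * n + 1)) (fun n => hf _)
  refine ⟨fun n => if n % 2 = 0 then g (n / 2) else g' (n / 2), ?_⟩
  rintro x (hx | hx)
  · obtain ⟨n, hn⟩ := hg x hx
    refine ⟨2 * n, ?_⟩
    show f x (2 * n) = if (2 * n) % 2 = 0 then g (2 * n / 2) else g' (2 * n / 2)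
    rw [if_pos (by omega), show 2 * n / 2 = n by omega]
    exact hn
  · obtain ⟨n, hn⟩ := hg' x hx
    refine ⟨2 * n + 1, ?_⟩
    show f x (2 * n + 1) = if (2 * n + 1) % 2 = 0 then g ((2 * n + 1) / 2) else g' ((2 * n + 1) / 2)
    rw [if_neg (by omega), show (2 * n + 1) / 2 = n by omega]
    exact hn

theorem exists_bound_countable {C : Set E} (hC : C.Countable) (f : E → ℕ → ℕ) :
    ∃ g : ℕ → ℕ, ∀ x ∈ C, ∀ᶠ n in atTop, f x n ≤ g n := by
  rcases C.eq_empty_or_nonempty with rfl | hne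
  · exact ⟨0, by simp⟩
  obtain ⟨e, rfl⟩ := hC.exists_eq_range hne
  refine ⟨fun n => (Finset.range (n + 1)).sup fun k => f (e k) n, ?_⟩
  rintro _ ⟨k, rfl⟩
  filter_upwards [eventually_ge_atTop k] with n hn
  exact Finset.le_sup (f := fun k => f (e k) n) (Finset.mem_range.2 (Nat.lt_succ_of_le hn))

theorem Bdd.of_cocountable {A : Set E} (h : ∀ f : E → ℕ → ℕ, (∀ n, Measurable (f · n)) →
    ∃ C : Set E, C.Countable ∧ ∃ g : ℕ → ℕ, ∀ x ∈ A \ C, ∀ᶠ n in atTop, f x n ≤ g n) :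
    Bdd A := by
  intro f hf
  obtain ⟨C, hC, g, hg⟩ := h f hf
  obtain ⟨g', hg'⟩ := exists_bound_countable hC f
  refine ⟨fun n => max (g n) (g' n), fun x hx => ?_⟩
  by_cases hxC : x ∈ C
  · filter_upwards [hg' x hxC] with n hn using hn.trans (le_max_right _ _)
  · filter_upwards [hg x ⟨hx, hxC⟩] with n hn using hn.trans (le_max_left _ _)

theorem Ie.of_cocountable {A : Set E} (h : ∀ f : E → ℕ → ℕ, (∀ n, Measurable (f · n)) →
    ∃ C : Set E, C.Countable ∧ ∃ g : ℕ → ℕ, ∀ x ∈ A \ C, ∃ n, f x n = g n) :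
    Ie A := by
  intro f hf
  obtain ⟨C, hC, g, hg⟩ := h (fun x n => f x (2 * n)) (fun n => hf _)
  have : ∃ g' : ℕ → ℕ, ∀ x ∈ C, ∃ n, f x (2 * n + 1) = g' n := by
    rcases C.eq_empty_or_nonempty with rfl | hne
    · exact ⟨0, by simp⟩
    obtain ⟨e, rfl⟩ := hC.exists_eq_range hne
    exact ⟨fun n => f (e n) (2 * n + 1), by rintro _ ⟨k, rfl⟩; exact ⟨k, rfl⟩⟩
  obtain ⟨g', hg'⟩ := this
  refine ⟨fun n => if n % 2 = 0 then g (n / 2) else g' (n / 2), fun x hx => ?_⟩
  by_cases hxC : x ∈ C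
  · obtain ⟨n, hn⟩ := hg' x hxC
    refine ⟨2 * n + 1, ?_⟩
    show f x (2 * n + 1) = if (2 * n + 1) % 2 = 0 then g ((2 * n + 1) / 2) else g' ((2 * n + 1) / 2)
    rw [if_neg (by omega), show (2 * n + 1) / 2 = n by omega]
    exact hn
  · obtain ⟨n, hn⟩ := hg x ⟨hx, hxC⟩
    refine ⟨2 * n, ?_⟩
    show f x (2 * n) = if (2 * n) % 2 = 0 then g (2 * n / 2) else g' (2 * n / 2)
    rw [if_pos (by omega), show 2 * n / 2 = n by omega]
    exact hn

/-- Consequence of `S_fin(Ω,Ω)` for families of subsets of the ambient space. -/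
theorem use4 {A : Set E} (h : P A 4) (U : ℕ → Set (Set E)) (hc : ∀ n, (U n).Countable)
    (hm : ∀ n, ∀ V ∈ U n, MeasurableSet V) (hn : ∀ n, ∀ V ∈ U n, ¬ A ⊆ V)
    (ho : ∀ n, ∀ F ⊆ A, F.Finite → ∃ V ∈ U n, F ⊆ V) :
    ∃ W : ℕ → Set (Set E), (∀ n, (W n).Finite ∧ W n ⊆ U n) ∧
      ∀ F ⊆ A, F.Finite → ∃ n, ∃ V ∈ W n, F ⊆ V := by
  obtain ⟨F, hF, hom⟩ := h (fun n => (fun V => (Subtype.val : A → E) ⁻¹' V) '' U n) (by
    intro n
    refine ⟨⟨(hc n).image _, ?_, ?_, ?_⟩, ?_⟩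
    · rintro _ ⟨V, hV, rfl⟩
      exact measurable_subtype_coe (hm n V hV)
    · rw [eq_univ_iff_forall]
      rintro ⟨x, hx⟩
      obtain ⟨V, hV, hxV⟩ := ho n {x} (singleton_subset_iff.2 hx) (finite_singleton x)
      exact ⟨_, mem_image_of_mem _ hV, hxV rfl⟩
    · rintro ⟨V, hV, h1⟩
      apply hn n V hV
      intro x hx
      have : (⟨x, hx⟩ : A) ∈ (Subtype.val : A → E) ⁻¹' V := by
        simp only at h1
        rw [h1]; exact mem_univ _
      exact this
    · intro S hS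
      obtain ⟨V, hV, h1⟩ := ho n (Subtype.val '' S) (by rintro _ ⟨x, _, rfl⟩; exact x.2)
        (hS.image _)
      exact ⟨_, mem_image_of_mem _ hV, fun x hx => h1 (mem_image_of_mem _ hx)⟩)
  have h1 : ∀ n, ∃ W : Set (Set E), W.Finite ∧ W ⊆ U n ∧
      F n = (fun V => (Subtype.val : A → E) ⁻¹' V) '' W := by
    intro n
    obtain ⟨hfin, hsub⟩ := hF n
    have hsub' : ∀ V : Set A, ∃ W : Set E, V ∈ F n → W ∈ U n ∧ (Subtype.val : A → E) ⁻¹' W = V := by
      intro V
      by_cases hV : V ∈ F n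
      · obtain ⟨W, hW, h1⟩ := hsub hV
        exact ⟨W, fun _ => ⟨hW, h1⟩⟩
      · exact ⟨∅, fun h => absurd h hV⟩
    choose k hk using hsub'
    refine ⟨k '' F n, hfin.image k, ?_, ?_⟩
    · rintro _ ⟨V, hV, rfl⟩
      exact (hk V hV).1
    · ext V
      constructor
      · intro hV
        exact ⟨k V, mem_image_of_mem k hV, (hk V hV).2⟩
      · rintro ⟨_, ⟨V', hV', rfl⟩, rfl⟩
        show (Subtype.val : A → E) ⁻¹' (k V') ∈ F n
        rw [(hk V' hV').2]
        exact hV'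
  choose W hW1 hW2 hW3 using h1
  refine ⟨W, fun n => ⟨hW1 n, hW2 n⟩, fun S hSA hS => ?_⟩
  obtain ⟨V, hV, hSV⟩ := hom.2 (Subtype.val ⁻¹' S) (hS.preimage Subtype.val_injective.injOn)
  obtain ⟨n, hn⟩ := mem_iUnion.1 hV
  rw [hW3 n] at hn
  obtain ⟨V', hV', rfl⟩ := hn
  exact ⟨n, V', hV', fun x hx => hSV (show (⟨x, hSA hx⟩ : A) ∈ _ from hx)⟩

/-- Consequence of `S₁(Ω,Ω)`. -/
theorem use6 {A : Set E} (h : P A 6) (U : ℕ → Set (Set E)) (hc : ∀ n, (U n).Countable)
    (hm : ∀ n, ∀ V ∈ U n, MeasurableSet V) (hn : ∀ n, ∀ V ∈ U n, ¬ A ⊆ V)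
    (ho : ∀ n, ∀ F ⊆ A, F.Finite → ∃ V ∈ U n, F ⊆ V) :
    ∃ W : ℕ → Set E, (∀ n, W n ∈ U n) ∧ ∀ F ⊆ A, F.Finite → ∃ n, F ⊆ W n := by
  obtain ⟨u, hu, hom⟩ := h (fun n => (fun V => (Subtype.val : A → E) ⁻¹' V) '' U n) (by
    intro n
    refine ⟨⟨(hc n).image _, ?_, ?_, ?_⟩, ?_⟩
    · rintro _ ⟨V, hV, rfl⟩
      exact measurable_subtype_coe (hm n V hV)
    · rw [eq_univ_iff_forall]
      rintro ⟨x, hx⟩
      obtain ⟨V, hV, hxV⟩ := ho n {x} (singleton_subset_iff.2 hx) (finite_singleton x)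
      exact ⟨_, mem_image_of_mem _ hV, hxV rfl⟩
    · rintro ⟨V, hV, h1⟩
      apply hn n V hV
      intro x hx
      have : (⟨x, hx⟩ : A) ∈ (Subtype.val : A → E) ⁻¹' V := by
        simp only at h1
        rw [h1]; exact mem_univ _
      exact this
    · intro S hS
      obtain ⟨V, hV, h1⟩ := ho n (Subtype.val '' S) (by rintro _ ⟨x, _, rfl⟩; exact x.2)
        (hS.image _)
      exact ⟨_, mem_image_of_mem _ hV, fun x hx => h1 (mem_image_of_mem _ hx)⟩)
  choose W hW1 hW2 using hu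
  refine ⟨W, hW1, fun S hSA hS => ?_⟩
  obtain ⟨V, ⟨n, rfl⟩, hSV⟩ := hom.2 (Subtype.val ⁻¹' S) (hS.preimage Subtype.val_injective.injOn)
  refine ⟨n, fun x hx => ?_⟩
  have : (⟨x, hSA hx⟩ : A) ∈ u n := hSV (show (⟨x, hSA hx⟩ : A) ∈ _ from hx)
  rw [← hW2 n] at this
  exact this

/-- Consequence of `S₁(B,B)`. -/
theorem use7 {A : Set E} (h : P A 7) (U : ℕ → Set (Set E)) (hc : ∀ n, (U n).Countable)
    (hm : ∀ n, ∀ V ∈ U n, MeasurableSet V) (hn : ∀ n, ∀ V ∈ U n, ¬ A ⊆ V)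
    (ho : ∀ n, ∀ x ∈ A, ∃ V ∈ U n, x ∈ V) :
    ∃ W : ℕ → Set E, (∀ n, W n ∈ U n) ∧ ∀ x ∈ A, ∃ n, x ∈ W n := by
  obtain ⟨u, hu, hom⟩ := h (fun n => (fun V => (Subtype.val : A → E) ⁻¹' V) '' U n) (by
    intro n
    refine ⟨(hc n).image _, ?_, ?_, ?_⟩
    · rintro _ ⟨V, hV, rfl⟩
      exact measurable_subtype_coe (hm n V hV)
    · rw [eq_univ_iff_forall]
      rintro ⟨x, hx⟩
      obtain ⟨V, hV, hxV⟩ := ho n x hx
      exact ⟨_, mem_image_of_mem _ hV, hxV⟩
    · rintro ⟨V, hV, h1⟩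
      apply hn n V hV
      intro x hx
      have : (⟨x, hx⟩ : A) ∈ (Subtype.val : A → E) ⁻¹' V := by
        simp only at h1
        rw [h1]; exact mem_univ _
      exact this)
  choose W hW1 hW2 using hu
  refine ⟨W, hW1, fun x hx => ?_⟩
  have : (⟨x, hx⟩ : A) ∈ ⋃₀ range u := hom.2.2.1 ▸ mem_univ _
  obtain ⟨_, ⟨n, rfl⟩, h1⟩ := this
  refine ⟨n, ?_⟩
  rw [← hW2 n] at h1
  exact h1

end Sub

end Pool.Agent.H39.BSel
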