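import Pool.Agent.H39.BSel.Rec
import Pool.Agent.H39.BSel.Crit

set_option autoImplicit false
set_option linter.unusedSectionVars false

/-!
The concrete alphabets, the random coding, and the index type under CH.
-/

namespace Pool.Agent.H39.BSel

open Topology Filter Set MeasureTheory Function
open scoped ENNReal Cardinal

/-- The alphabet at coordinate `i`. -/
def al (i : ℕ) : Type := Fin (2 ^ (i + 1))

noncomputable instance (i : ℕ) : NeZero (2 ^ (i + 1)) := ⟨by positivity⟩
instance (i : ℕ) : Finite (al i) := inferInstanceAs (Finite (Fin (2 ^ (i + 1))))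
instance (i : ℕ) : Nonempty (al i) := ⟨(⟨0, by positivity⟩ : Fin (2 ^ (i + 1)))⟩
instance (i : ℕ) : TopologicalSpace (al i) := ⊥
instance (i : ℕ) : DiscreteTopology (al i) := ⟨rfl⟩
instance (i : ℕ) : MeasurableSpace (al i) := ⊤
instance (i : ℕ) : BorelSpace (al i) := ⟨by
  show (⊤ : MeasurableSpace (al i)) = borel (al i)
  rw [borel_eq_top_of_discrete]⟩
instance (i : ℕ) : Nontrivial (al i) := by
  refine ⟨(⟨0, by positivity⟩ : Fin (2 ^ (i + 1))), (⟨1, ?_⟩ : Fin (2 ^ (i + 1))), ?_⟩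
  · have : 2 ^ 1 ≤ 2 ^ (i + 1) := Nat.pow_le_pow_right (by norm_num) (by omega)
    omega
  · intro h
    have := congrArg (fun x : Fin (2 ^ (i + 1)) => x.1) h
    simp at this

/-- The probability measure for the random real. -/
noncomputable def mu : Measure ℝ := volume.restrict (Ico 0 1)

instance : IsProbabilityMeasure mu := ⟨by simp [mu]⟩

/-- The coding of a real as a point. -/
noncomputable def ww (t : ℝ) : Pt al :=
  fun i => (⟨⌊2 ^ (i + 1) * t⌋₊ % 2 ^ (i + 1), Nat.mod_lt _ (by positivity)⟩ : Fin (2 ^ (i + 1)))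

theorem measurable_ww : Measurable ww := by
  rw [measurable_pi_iff]
  intro i
  have h1 : Measurable fun t : ℝ => ⌊2 ^ (i + 1) * t⌋₊ :=
    Nat.measurable_floor.comp (measurable_const.mul measurable_id)
  have h2 : Measurable fun n : ℕ =>
      ((⟨n % 2 ^ (i + 1), Nat.mod_lt _ (by positivity)⟩ : Fin (2 ^ (i + 1))) : al i) :=
    measurable_from_nat
  exact h2.comp h1

theorem ww_small (i : ℕ) (v : al i) : mu {t | ww t i = v} ≤ (2 : ℝ≥0∞)⁻¹ ^ (i + 1) := by
  have hms : MeasurableSet {t | ww t i = v} :=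
    ((measurable_pi_apply i).comp measurable_ww) (measurableSet_singleton v)
  rw [mu, Measure.restrict_apply hms]
  have hpos : (0 : ℝ) < 2 ^ (i + 1) := by positivity
  set v' : Fin (2 ^ (i + 1)) := v with hv'
  have hsub : {t | ww t i = v} ∩ Ico 0 1 ⊆
      Ico ((v'.1 : ℝ) / 2 ^ (i + 1)) (((v'.1 : ℝ) + 1) / 2 ^ (i + 1)) := by
    rintro t ⟨h1, h2, h3⟩
    have h1' : ww t i = v := h1
    have h4 : ⌊2 ^ (i + 1) * t⌋₊ % 2 ^ (i + 1) = v'.1 := congrArg (fun x : Fin _ => x.1) h1'
    have h5 : ⌊2 ^ (i + 1) * t⌋₊ < 2 ^ (i + 1) := by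
      rw [Nat.floor_lt (by positivity)]
      push_cast
      nlinarith
    rw [Nat.mod_eq_of_lt h5] at h4
    have h6 : (⌊2 ^ (i + 1) * t⌋₊ : ℝ) ≤ 2 ^ (i + 1) * t := Nat.floor_le (by positivity)
    have h7 : 2 ^ (i + 1) * t < (⌊2 ^ (i + 1) * t⌋₊ : ℝ) + 1 := Nat.lt_floor_add_one _
    rw [h4] at h6 h7
    constructor
    · rw [div_le_iff₀ hpos]; linarith
    · rw [lt_div_iff₀ hpos]; linarith
  refine (measure_mono hsub).trans ?_
  rw [Real.volume_Ico]
  have : ((v'.1 : ℝ) + 1) / 2 ^ (i + 1) - (v'.1 : ℝ) / 2 ^ (i + 1) = (2⁻¹ : ℝ) ^ (i + 1) := by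
    rw [inv_pow]; field_simp; ring
  rw [this, ENNReal.ofReal_pow (by positivity), ENNReal.ofReal_inv_of_pos (by norm_num)]
  simp

/-- Eventually a random coding avoids any given sequence of values. -/
theorem ww_ne (y : Pt al) : ∀ᵐ t ∂mu, ∀ᶠ i in atTop, ww t i ≠ y i := by
  have hsum : ∑' i, mu {t | ww t i = y i} ≠ ∞ := by
    apply ne_top_of_le_ne_top _ (ENNReal.tsum_le_tsum fun i => (ww_small i (y i)).trans
      (pow_le_pow_right_of_le_one' (by simp) (Nat.le_succ i) :
        (2 : ℝ≥0∞)⁻¹ ^ (i + 1) ≤ (2 : ℝ≥0∞)⁻¹ ^ i))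
    rw [ENNReal.tsum_geometric]
    simp
  exact ae_eventually_notMem hsum

section CH

/-- Under CH there is a well-ordered index type of size continuum with countable segments. -/
theorem exists_index (CH : Cardinal.continuum.{0} = Cardinal.aleph 1) :
    ∃ (I : Type) (_ : LinearOrder I) (_ : WellFoundedLT I),
      (∀ γ : I, (Iio γ).Countable) ∧ #I = 𝔠 := by
  refine ⟨(Cardinal.aleph 1).ord.ToType, inferInstance, inferInstance, ?_, ?_⟩
  · intro γ
    have h1 : #(Iio γ) < Cardinal.aleph 1 := by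
      simpa using Cardinal.mk_Iio_lt γ (by simp)
    rw [← Cardinal.le_aleph0_iff_set_countable]
    have h2 : Cardinal.aleph 1 = Order.succ ℵ₀ := by
      rw [← Cardinal.succ_aleph0]
    exact Order.lt_succ_iff.1 (h1.trans_eq h2)
  · rw [Cardinal.mk_ord_toType, CH]

theorem exists_surj {I Q : Type} (hI : #I = 𝔠) (hQ : #Q ≤ 𝔠) [Nonempty Q] :
    ∃ e : I → Q, Surjective e := by
  rw [← hI] at hQ
  obtain ⟨j⟩ := Cardinal.le_def Q I |>.1 hQ
  exact ⟨invFun j, invFun_surjective j.injective⟩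

theorem card_measurableSet (T : Type) [m : MeasurableSpace T]
    [MeasurableSpace.CountablyGenerated T] : #{s : Set T // MeasurableSet s} ≤ 𝔠 := by
  obtain ⟨b, hb, hg⟩ := MeasurableSpace.CountablyGenerated.isCountablyGenerated (α := T)
  subst hg
  exact MeasurableSpace.cardinal_measurableSet_le_continuum
    ((Cardinal.le_aleph0_iff_set_countable.2 hb).trans Cardinal.aleph0_le_continuum)

theorem card_fun (T : Type) [MeasurableSpace T] [MeasurableSpace.CountablyGenerated T] :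
    #{f : T → ℕ → ℕ // ∀ n, Measurable (f · n)} ≤ 𝔠 := by
  have h1 : #(ℕ × ℕ → {s : Set T // MeasurableSet s}) ≤ 𝔠 := by
    rw [Cardinal.mk_arrow]
    simp only [Cardinal.lift_id, Cardinal.mk_prod, Cardinal.mk_nat, Cardinal.aleph0_mul_aleph0]
    calc _ ≤ 𝔠 ^ ℵ₀ := Cardinal.power_le_power_right (card_measurableSet T)
      _ = 𝔠 := Cardinal.continuum_power_aleph0
  refine le_trans (Cardinal.mk_le_of_injective
    (f := fun (f : {f : T → ℕ → ℕ // ∀ n, Measurable (f · n)}) (z : ℕ × ℕ) =>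
      (⟨{x | f.1 x z.1 = z.2}, f.2 z.1 (measurableSet_singleton z.2)⟩ :
        {s : Set T // MeasurableSet s})) ?_) h1
  intro f f' h
  apply Subtype.ext
  funext x n
  have h2 := congrFun h (n, f.1 x n)
  have h3 : {y | f.1 y n = f.1 x n} = {y | f'.1 y n = f.1 x n} := congrArg Subtype.val h2
  have h4 : x ∈ {y | f.1 y n = f.1 x n} := by simp
  rw [h3] at h4
  exact (h4 : f'.1 x n = f.1 x n).symm

end CH

end Pool.Agent.H39.BSel
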