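import Mathlib

set_option autoImplicit false
set_option linter.unusedSectionVars false
set_option linter.unusedSimpArgs false

/-!
Baire category tools: the easy half of the Kuratowski-Ulam theorem, measurability of the category
quantifier, and the category bound of a function into `ℕ → ℕ`.
-/

namespace Pool.Agent.H39.BSel

open Topology Filter Set MeasureTheory

/-- Kuratowski–Ulam, easy direction. -/
theorem residual_prod {X Y : Type*} [TopologicalSpace X] [TopologicalSpace Y]
    [SecondCountableTopology Y] {P : X × Y → Prop} (h : ∀ᶠ z in residual (X × Y), P z) :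
    ∀ᶠ x in residual X, ∀ᶠ y in residual Y, P (x, y) := by
  obtain ⟨S, hSo, hSd, hSc, hS⟩ := mem_residual_iff.1 h
  have key : ∀ t ∈ S, ∀ᶠ x in residual X, ∀ᶠ y in residual Y, (x, y) ∈ t := by
    intro t ht
    obtain ⟨B, hBc, hBe, hB⟩ := TopologicalSpace.exists_countable_basis Y
    have h1 : ∀ V ∈ B, ∀ᶠ x in residual X, ∃ y ∈ V, (x, y) ∈ t := by
      intro V hV
      have hVo : IsOpen V := hB.isOpen hV
      have hVn : V.Nonempty := nonempty_iff_ne_empty.2 (fun h => hBe (h ▸ hV))
      apply residual_of_dense_open (s := {x | ∃ y ∈ V, (x, y) ∈ t})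
      · have : {x | ∃ y ∈ V, (x, y) ∈ t} = Prod.fst '' (t ∩ (univ ×ˢ V)) := by
          ext x
          simp only [mem_ofPred_eq, mem_image, mem_inter_iff, mem_prod, mem_univ, true_and,
            Prod.exists, exists_and_right, exists_eq_right]
          constructor
          · rintro ⟨y, h1, h2⟩; exact ⟨y, h2, h1⟩
          · rintro ⟨y, h1, h2⟩; exact ⟨y, h2, h1⟩
        rw [this]
        exact isOpenMap_fst _ ((hSo t ht).inter (isOpen_univ.prod hVo))
      · rw [dense_iff_inter_open]
        intro U hU hUn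
        obtain ⟨⟨x, y⟩, h1, h2⟩ := (hSd t ht).inter_open_nonempty (U ×ˢ V) (hU.prod hVo)
          (hUn.prod hVn)
        exact ⟨x, h1.1, y, h1.2, h2⟩
    have h2 : ∀ᶠ x in residual X, ∀ V ∈ B, ∃ y ∈ V, (x, y) ∈ t :=
      (eventually_countable_ball hBc).2 h1
    filter_upwards [h2] with x hx
    apply residual_of_dense_open (s := {y | (x, y) ∈ t})
    · exact (hSo t ht).preimage (by fun_prop : Continuous fun y : Y => (x, y))
    · rw [dense_iff_inter_open]
      rintro U hU ⟨y, hy⟩
      obtain ⟨V, hV, hyV, hVU⟩ := hB.exists_subset_of_mem_open hy hU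
      obtain ⟨y', h1, h2⟩ := hx V hV
      exact ⟨y', hVU h1, h2⟩
  have h3 : ∀ᶠ x in residual X, ∀ t ∈ S, ∀ᶠ y in residual Y, (x, y) ∈ t :=
    (eventually_countable_ball hSc).2 key
  filter_upwards [h3] with x hx
  have h4 : ∀ᶠ y in residual Y, ∀ t ∈ S, (x, y) ∈ t := (eventually_countable_ball hSc).2 hx
  filter_upwards [h4] with y hy
  exact hS (mem_sInter.2 hy)

/-- A countable π-base indexed by `ℕ`. -/
structure PiBase (Y : Type*) [TopologicalSpace Y] (V : ℕ → Set Y) : Prop where
  isOpen : ∀ k, IsOpen (V k)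
  nonempty : ∀ k, (V k).Nonempty
  exists_subset : ∀ U : Set Y, IsOpen U → U.Nonempty → ∃ k, V k ⊆ U

theorem exists_piBase (Y : Type*) [TopologicalSpace Y] [SecondCountableTopology Y] [Nonempty Y] :
    ∃ V : ℕ → Set Y, PiBase Y V := by
  obtain ⟨B, hBc, hBe, hB⟩ := TopologicalSpace.exists_countable_basis Y
  have hBn : B.Nonempty := by
    obtain ⟨V, hV, _⟩ := hB.exists_subset_of_mem_open (mem_univ (Classical.arbitrary Y)) isOpen_univ
    exact ⟨V, hV⟩
  obtain ⟨V, hV⟩ := hBc.exists_eq_range hBn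
  refine ⟨V, ⟨fun k => hB.isOpen (hV ▸ mem_range_self k), fun k => ?_, ?_⟩⟩
  · exact nonempty_iff_ne_empty.2 (fun h => hBe (h ▸ hV ▸ mem_range_self k))
  · rintro U hU ⟨y, hy⟩
    obtain ⟨W, hW, hyW, hWU⟩ := hB.exists_subset_of_mem_open hy hU
    rw [hV] at hW
    obtain ⟨k, rfl⟩ := hW
    exact ⟨k, hWU⟩

section Quant

variable {Y : Type*} [TopologicalSpace Y] [BaireSpace Y] [MeasurableSpace Y] [BorelSpace Y]
  {V : ℕ → Set Y}

/-- In a Borel set which is non-meager in `U`, the complement is meager in some basic open set. -/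
theorem exists_meagre_compl (hV : PiBase Y V) {U B : Set Y} (hU : IsOpen U)
    (hB : MeasurableSet B) (h : ¬ IsMeagre (U ∩ B)) : ∃ k, V k ⊆ U ∧ IsMeagre (V k \ B) := by
  obtain ⟨O, hO, hBO⟩ := hB.residualEq_isOpen
  have hd1 : IsMeagre (B \ O) := by
    have : ∀ᶠ y in residual Y, y ∉ B \ O := by
      filter_upwards [hBO] with y hy
      intro h
      have : (y ∈ B) = (y ∈ O) := hy
      exact h.2 (this ▸ h.1)
    exact this
  have hd2 : IsMeagre (O \ B) := by
    have : ∀ᶠ y in residual Y, y ∉ O \ B := by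
      filter_upwards [hBO] with y hy
      intro h
      have : (y ∈ B) = (y ∈ O) := hy
      exact h.2 (this.symm ▸ h.1)
    exact this
  have hne : (U ∩ O).Nonempty := by
    by_contra hemp
    rw [not_nonempty_iff_eq_empty] at hemp
    apply h
    apply hd1.mono
    rintro y ⟨hyU, hyB⟩
    exact ⟨hyB, fun hyO => (hemp ▸ (⟨hyU, hyO⟩ : y ∈ U ∩ O) : y ∈ (∅ : Set Y))⟩
  obtain ⟨k, hk⟩ := hV.exists_subset _ (hU.inter hO) hne
  refine ⟨k, hk.trans inter_subset_left, hd2.mono ?_⟩
  rintro y ⟨h1, h2⟩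
  exact ⟨(hk h1).2, h2⟩

theorem not_isMeagre_diff (hV : PiBase Y V) {k : ℕ} {B : Set Y} (h : IsMeagre (V k ∩ B)) :
    ¬ IsMeagre (V k \ B) := by
  intro h'
  apply not_isMeagre_of_isOpen (hV.isOpen k) (hV.nonempty k)
  have := h.union h'
  rwa [inter_union_sdiff] at this

/-- Measurability of the category quantifier. -/
theorem measurableSet_nonmeagre {Z : Type*} [MeasurableSpace Z] [SecondCountableTopology Y]
    (hV : PiBase Y V) {B : Set (Z × Y)} (hB : MeasurableSet B) :
    ∀ k, MeasurableSet {z : Z | ¬ IsMeagre (V k ∩ {y | (z, y) ∈ B})} := by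
  have hgen : (inferInstance : MeasurableSpace (Z × Y)) =
      MeasurableSpace.generateFrom (image2 (· ×ˢ ·) {s : Set Z | MeasurableSet s}
        {t : Set Y | IsOpen t}) := by
    have h1 : MeasurableSpace.generateFrom {s : Set Z | MeasurableSet s} = ‹MeasurableSpace Z› :=
      MeasurableSpace.generateFrom_measurableSet
    have h2 : MeasurableSpace.generateFrom {t : Set Y | IsOpen t} = ‹MeasurableSpace Y› :=
      (BorelSpace.measurable_eq (α := Y)).symm
    have h3 : IsCountablySpanning {s : Set Z | MeasurableSet s} :=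
      ⟨fun _ => univ, fun _ => MeasurableSet.univ, iUnion_const _⟩
    have h4 : IsCountablySpanning {t : Set Y | IsOpen t} :=
      ⟨fun _ => univ, fun _ => isOpen_univ, iUnion_const _⟩
    exact (generateFrom_eq_prod h1 h2 h3 h4).symm
  have hpi : IsPiSystem (image2 (· ×ˢ ·) {s : Set Z | MeasurableSet s} {t : Set Y | IsOpen t}) := by
    rintro _ ⟨s, hs, t, ht, rfl⟩ _ ⟨s', hs', t', ht', rfl⟩ _
    refine ⟨s ∩ s', hs.inter hs', t ∩ t', IsOpen.inter ht ht', ?_⟩
    exact prod_inter_prod.symm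
  induction B, hB using MeasurableSpace.induction_on_inter hgen hpi with
  | empty => intro k; simp [IsMeagre.empty]
  | basic t ht =>
    obtain ⟨E, hE, U, hU, rfl⟩ := ht
    intro k
    by_cases h : IsMeagre (V k ∩ U)
    · have : {z : Z | ¬ IsMeagre (V k ∩ {y | (z, y) ∈ E ×ˢ U})} = ∅ := by
        ext z
        simp only [mem_ofPred_eq, mem_empty_iff_false, iff_false, not_not]
        apply h.mono
        rintro y ⟨h1, h2⟩
        exact ⟨h1, h2.2⟩
      rw [this]; exact MeasurableSet.empty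
    · have : {z : Z | ¬ IsMeagre (V k ∩ {y | (z, y) ∈ E ×ˢ U})} = E := by
        ext z
        simp only [mem_ofPred_eq]
        constructor
        · intro h1
          by_contra h2
          apply h1
          have : V k ∩ {y | (z, y) ∈ E ×ˢ U} = ∅ := by
            ext y; simp [h2]
          rw [this]; exact IsMeagre.empty
        · intro h1 h2
          apply h
          apply h2.mono
          rintro y ⟨h3, h4⟩
          exact ⟨h3, h1, h4⟩
      rw [this]; exact hE
  | compl B hB ih =>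
    intro k
    have : {z : Z | ¬ IsMeagre (V k ∩ {y | (z, y) ∈ Bᶜ})} =
        ⋃ l : {l // V l ⊆ V k}, {z | ¬ IsMeagre (V l ∩ {y | (z, y) ∈ B})}ᶜ := by
      ext z
      simp only [mem_ofPred_eq, mem_iUnion, mem_compl_iff, not_not]
      constructor
      · intro h
        have hBz : MeasurableSet {y | (z, y) ∈ B}ᶜ :=
          (measurable_prodMk_left (x := z) hB).compl
        obtain ⟨l, h1, h2⟩ := exists_meagre_compl hV (hV.isOpen k) hBz h
        refine ⟨⟨l, h1⟩, h2.mono ?_⟩
        rintro y ⟨h3, h4⟩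
        exact ⟨h3, fun h5 => h5 h4⟩
      · rintro ⟨⟨l, hl⟩, h⟩ h'
        apply not_isMeagre_diff hV h
        apply h'.mono
        rintro y ⟨h3, h4⟩
        exact ⟨hl h3, h4⟩
    rw [this]
    exact MeasurableSet.iUnion fun l => (ih l).compl
  | iUnion f hd hf ih =>
    intro k
    have : {z : Z | ¬ IsMeagre (V k ∩ {y | (z, y) ∈ ⋃ i, f i})} =
        ⋃ i, {z | ¬ IsMeagre (V k ∩ {y | (z, y) ∈ f i})} := by
      ext z
      simp only [mem_ofPred_eq, mem_iUnion]
      constructor
      · intro h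
        by_contra h2
        push Not at h2
        apply h
        have h3 := isMeagre_iUnion h2
        apply h3.mono
        rintro y ⟨h4, h5⟩
        simp only [mem_iUnion, mem_ofPred_eq] at h5
        obtain ⟨i, hi⟩ := h5
        exact mem_iUnion.2 ⟨i, h4, hi⟩
      · rintro ⟨i, hi⟩ h
        apply hi
        apply h.mono
        rintro y ⟨h4, h5⟩
        refine ⟨h4, ?_⟩
        simp only [mem_iUnion, mem_ofPred_eq]
        exact ⟨i, h5⟩
    rw [this]
    exact MeasurableSet.iUnion fun i => ih i k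

/-- If at infinitely many `n` the set `{ψ · n ≤ g n}` is non-meager in the first `n` basic open
sets, then for comeager many `y` we have `ψ y n ≤ g n` infinitely often. -/
theorem residual_frequently_le (hV : PiBase Y V) {ψ : Y → ℕ → ℕ} (hψ : ∀ n, Measurable (ψ · n))
    {g : ℕ → ℕ} (h : ∃ᶠ n in atTop, ∀ k < n, ¬ IsMeagre (V k ∩ {y | ψ y n ≤ g n})) :
    ∀ᶠ y in residual Y, ∃ᶠ n in atTop, ψ y n ≤ g n := by
  have key : ∀ N, IsMeagre {y | ∀ n ≥ N, g n < ψ y n} := by
    intro N
    have hm : MeasurableSet {y | ∀ n ≥ N, g n < ψ y n} := by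
      have : {y | ∀ n ≥ N, g n < ψ y n} = ⋂ n, ⋂ (_ : n ≥ N), {y | g n < ψ y n} := by
        ext y; simp
      rw [this]
      exact MeasurableSet.iInter fun n => MeasurableSet.iInter fun _ =>
        measurableSet_lt measurable_const (hψ n)
    by_contra hne
    obtain ⟨k, -, hk⟩ := exists_meagre_compl hV isOpen_univ hm (by rwa [univ_inter])
    obtain ⟨n, hn, hn2⟩ := (Filter.frequently_atTop.1 h) (max N (k + 1))
    apply hn2 k (lt_of_lt_of_le (Nat.lt_succ_self k) (le_trans (le_max_right _ _) hn))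
    apply hk.mono
    rintro y ⟨h1, h2⟩
    refine ⟨h1, fun h3 => ?_⟩
    have := h3 n (le_trans (le_max_left _ _) hn)
    simp only [mem_ofPred_eq] at h2
    omega
  have h2 : ∀ᶠ y in residual Y, ∀ N, ¬ ∀ n ≥ N, g n < ψ y n := by
    rw [eventually_countable_forall]
    intro N
    exact key N
  filter_upwards [h2] with y hy
  rw [Filter.frequently_atTop]
  intro N
  have := hy N
  push Not at this
  obtain ⟨n, h1, h2⟩ := this
  exact ⟨n, h1, h2⟩

/-- Every level: some value bound makes the sublevel set non-meager in `V k`. -/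
theorem exists_bound_nonmeagre (hV : PiBase Y V) (ψ : Y → ℕ) (k : ℕ) :
    ∃ v, ¬ IsMeagre (V k ∩ {y | ψ y ≤ v}) := by
  by_contra h
  push Not at h
  apply not_isMeagre_of_isOpen (hV.isOpen k) (hV.nonempty k)
  have := isMeagre_iUnion h
  apply this.mono
  intro y hy
  exact mem_iUnion.2 ⟨ψ y, hy, by simp⟩

theorem exists_bound_nonmeagre_lt (hV : PiBase Y V) (ψ : Y → ℕ) (n : ℕ) :
    ∃ v, ∀ k < n, ¬ IsMeagre (V k ∩ {y | ψ y ≤ v}) := by
  choose v hv using exists_bound_nonmeagre hV ψ
  refine ⟨(Finset.range n).sup v, fun k hk => fun h => hv k (h.mono ?_)⟩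
  rintro y ⟨h1, h2⟩
  exact ⟨h1, le_trans h2 (Finset.le_sup (f := v) (Finset.mem_range.2 hk))⟩

/-- For countably many functions there is one `g` not dominated by any of them comeagerly. -/
theorem exists_cat_bound (hV : PiBase Y V) {ι : Type*} [Countable ι] (ψ : ι → Y → ℕ → ℕ)
    (hψ : ∀ i n, Measurable (ψ i · n)) (g₀ : ι → ℕ → ℕ) :
    ∃ g : ℕ → ℕ, (∀ i, ∀ᶠ n in atTop, g₀ i n ≤ g n) ∧
      ∀ i, ∀ᶠ y in residual Y, ∃ᶠ n in atTop, ψ i y n ≤ g n := by
  rcases isEmpty_or_nonempty ι with hι | hι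
  · exact ⟨0, fun i => (hι.false i).elim, fun i => (hι.false i).elim⟩
  obtain ⟨e, he⟩ := exists_surjective_nat ι
  have h1 : ∀ i n, ∃ v, ∀ k < n, ¬ IsMeagre (V k ∩ {y | ψ i y n ≤ v}) :=
    fun i n => exists_bound_nonmeagre_lt hV (ψ i · n) n
  choose b hb using h1
  set g : ℕ → ℕ := fun n => (Finset.range (n + 1)).sup fun j => max (b (e j) n) (g₀ (e j) n) with hg
  have hle : ∀ j n, j ≤ n → max (b (e j) n) (g₀ (e j) n) ≤ g n := by
    intro j n hjn
    exact Finset.le_sup (f := fun j => max (b (e j) n) (g₀ (e j) n))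
      (Finset.mem_range.2 (Nat.lt_succ_of_le hjn))
  refine ⟨g, fun i => ?_, fun i => ?_⟩
  · obtain ⟨j, rfl⟩ := he i
    filter_upwards [eventually_ge_atTop j] with n hn
    exact le_trans (le_max_right _ _) (hle j n hn)
  · obtain ⟨j, rfl⟩ := he i
    apply residual_frequently_le hV (hψ (e j))
    apply Filter.Eventually.frequently
    filter_upwards [eventually_ge_atTop j] with n hn
    intro k hk h
    apply hb (e j) n k hk
    apply h.mono
    rintro y ⟨h1, h2⟩
    exact ⟨h1, le_trans h2 (le_trans (le_max_left _ _) (hle j n hn))⟩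

end Quant

end Pool.Agent.H39.BSel
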