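import Pool.Agent.H39.BSel.Silver

set_option autoImplicit false
set_option linter.unusedSectionVars false

/-!
Silver conditions, generic extensions, stable sets of conditions, and the gluing lemma.
-/

namespace Pool.Agent.H39.BSel

open Topology Filter Set MeasureTheory

variable {β : ℕ → Type} [∀ i, TopologicalSpace (β i)] [∀ i, DiscreteTopology (β i)]
  [∀ i, Finite (β i)] [∀ i, Nonempty (β i)]

/-- Points. -/
abbrev Pt (β : ℕ → Type) : Type := ∀ i, β i

/-- Conditions: coordinate `i` is free iff the first component is `true`, otherwise its value is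
the second component. -/
abbrev Cd (β : ℕ → Type) : Type := ∀ i, Bool × β i

/-- `comp p r` decides further the free coordinates of `p` according to `r`. -/
def comp (p r : Cd β) : Cd β := fun i => if (p i).1 = true then r i else p i

/-- `app p x` fills the free coordinates of `p` with `x`. -/
def app (p : Cd β) (x : Pt β) : Pt β := fun i => if (p i).1 = true then x i else (p i).2

theorem comp_free {p r : Cd β} {i : ℕ} (h : (p i).1 = true) : comp p r i = r i := if_pos h
theorem comp_not {p r : Cd β} {i : ℕ} (h : (p i).1 = false) : comp p r i = p i :=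
  if_neg (by simp [h])
theorem app_free {p : Cd β} {x : Pt β} {i : ℕ} (h : (p i).1 = true) : app p x i = x i := if_pos h
theorem app_not {p : Cd β} {x : Pt β} {i : ℕ} (h : (p i).1 = false) : app p x i = (p i).2 :=
  if_neg (by simp [h])

theorem comp_assoc (p q r : Cd β) : comp (comp p q) r = comp p (comp q r) := by
  funext i
  cases h : (p i).1
  · rw [comp_not (p := p) (r := comp q r) h, comp_not]
    · exact comp_not h
    · rw [comp_not h]; exact h
  · rw [comp_free (p := p) (r := comp q r) h]
    cases h2 : (q i).1
    · rw [comp_not (p := q) h2, comp_not]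
      · exact comp_free h
      · rw [comp_free h]; exact h2
    · rw [comp_free (p := q) h2, comp_free]
      rw [comp_free h]; exact h2

/-- `q` extends `p` from `m` on. -/
def Ext (m : ℕ) (q p : Cd β) : Prop := ∀ i ≥ m, (p i).1 = false → q i = p i

/-- `q` extends `p` almost everywhere. -/
def AE (q p : Cd β) : Prop := ∃ m, Ext m q p

/-- `x` extends `q` from `m` on. -/
def PExt (m : ℕ) (x : Pt β) (q : Cd β) : Prop := ∀ i ≥ m, (q i).1 = false → x i = (q i).2

/-- `x` extends `q` almost everywhere. -/
def PAE (x : Pt β) (q : Cd β) : Prop := ∃ m, PExt m x q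

theorem Ext.mono {m m' : ℕ} (h : m ≤ m') {q p : Cd β} (H : Ext m q p) : Ext m' q p :=
  fun i hi => H i (h.trans hi)

theorem Ext.trans {m : ℕ} {r q p : Cd β} (h : Ext m r q) (h' : Ext m q p) : Ext m r p := by
  intro i hi hp
  have h1 := h' i hi hp
  rw [h i hi (by rw [h1]; exact hp), h1]

theorem AE.trans {r q p : Cd β} (h : AE r q) (h' : AE q p) : AE r p := by
  obtain ⟨m, hm⟩ := h
  obtain ⟨m', hm'⟩ := h'
  exact ⟨max m m', (hm.mono (le_max_left _ _)).trans (hm'.mono (le_max_right _ _))⟩

theorem AE.refl (p : Cd β) : AE p p := ⟨0, fun _ _ _ => rfl⟩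

theorem EqF.ae {q p : Cd β} (h : EqF q p) : AE q p := by
  obtain ⟨m, hm⟩ := h
  exact ⟨m, fun i hi _ => hm i hi⟩

theorem ext_comp (p r : Cd β) : Ext 0 (comp p r) p := fun _ _ h => comp_not h

theorem ae_comp (p r : Cd β) : AE (comp p r) p := ⟨0, ext_comp p r⟩

theorem PExt.trans {m : ℕ} {x : Pt β} {q p : Cd β} (h : PExt m x q) (h' : Ext m q p) :
    PExt m x p := by
  intro i hi hp
  have h1 := h' i hi hp
  rw [h i hi (by rw [h1]; exact hp), h1]

theorem PExt.mono {m m' : ℕ} (h : m ≤ m') {x : Pt β} {p : Cd β} (H : PExt m x p) : PExt m' x p :=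
  fun i hi => H i (h.trans hi)

theorem PAE.trans {x : Pt β} {q p : Cd β} (h : PAE x q) (h' : AE q p) : PAE x p := by
  obtain ⟨m, hm⟩ := h
  obtain ⟨m', hm'⟩ := h'
  exact ⟨max m m', (hm.mono (le_max_left _ _)).trans (hm'.mono (le_max_right _ _))⟩

theorem pext_app (p : Cd β) (x : Pt β) : PExt 0 (app p x) p := fun _ _ h => app_not h

theorem pae_app (p : Cd β) (x : Pt β) : PAE (app p x) p := ⟨0, pext_app p x⟩

/-- `p` has infinitely many free coordinates. -/
def IsFree (p : Cd β) : Prop := ∀ N, ∃ i ≥ N, (p i).1 = true

theorem continuous_comp (p : Cd β) : Continuous (comp p) := by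
  apply continuous_pi
  intro i
  by_cases h : (p i).1 = true
  · simp only [comp, h, if_true]; exact continuous_apply i
  · simp only [comp, h]; exact continuous_const

theorem continuous_comp_left (r : Cd β) : Continuous (fun p => comp p r) := by
  apply continuous_pi
  intro i
  have h1 : Continuous fun z : Bool × β i => if z.1 = true then r i else z :=
    continuous_of_discreteTopology
  exact h1.comp (continuous_apply i)

theorem continuous_app : Continuous (fun z : Cd β × Pt β => app z.1 z.2) :=
  continuous_coord (fun i (a : Bool × β i) (b : β i) => if a.1 = true then b else a.2)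

/-- Composition of two generic reals is generic. -/
theorem residual_comp {C : Set (Cd β)} (hC : C ∈ residual (Cd β)) :
    ∀ᶠ r in residual (Cd β), ∀ᶠ r' in residual (Cd β), comp r r' ∈ C := by
  have := residual_coord (φ := fun i (a b : Bool × β i) => if a.1 = true then b else a) 0
    (fun i _ c => ⟨(true, c.2), c, by simp⟩) hC
  exact this

theorem residual_isFree {p : Cd β} (hp : IsFree p) :
    ∀ᶠ r in residual (Cd β), IsFree (comp p r) := by
  unfold IsFree
  rw [eventually_countable_forall]
  intro N
  apply residual_of_dense_open (s := {r | ∃ i ≥ N, (comp p r i).1 = true})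
  · apply isOpen_of_cyl
    rintro r ⟨i, hi, h⟩
    refine ⟨i + 1, fun r' hr' => ⟨i, hi, ?_⟩⟩
    have := hr' i (Nat.lt_succ_self i)
    unfold comp at h ⊢
    rwa [this]
  · rw [dense_iff_inter_open]
    rintro U hU ⟨r, hr⟩
    obtain ⟨n, hn⟩ := exists_cyl hU hr
    obtain ⟨i, hi, h⟩ := hp (max n N)
    refine ⟨splice n r (fun j => (true, dflt j)), hn _ fun j hj => splice_lt hj _ _,
      i, le_trans (le_max_right _ _) hi, ?_⟩
    rw [comp_free h, splice_ge (le_trans (le_max_left _ _) hi)]

/-- Meager sets are avoided by all points extending a generic condition. -/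
theorem residual_avoid {C : Set (Pt β)} (hC : C ∈ residual (Pt β)) :
    ∀ᶠ r in residual (Cd β), ∀ x, PAE x r → x ∈ C := by
  obtain ⟨S, hSo, hSd, hSc, hS⟩ := mem_residual_iff.1 hC
  have key : ∀ O ∈ S, ∀ m, ∀ᶠ r in residual (Cd β), ∀ x, PExt m x r → x ∈ O := by
    intro O hO m
    have hdo : {r : Cd β | ∃ K, ∀ r', (∀ i < K, r' i = r i) → ∀ x, PExt m x r' → x ∈ O} ∈
        residual (Cd β) := by
      apply residual_of_dense_open
      · apply isOpen_of_cyl
        rintro r ⟨K, hK⟩
        refine ⟨K, fun r' hr' => ⟨K, fun r'' hr'' => hK r'' fun i hi => ?_⟩⟩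
        rw [hr'' i hi, hr' i hi]
      · rw [dense_iff_inter_open]
        rintro U hU ⟨r₀, hr₀⟩
        obtain ⟨n, hn⟩ := exists_cyl hU hr₀
        set k := max n m with hk
        have hfin : ∀ F1 : Finset (Pt β), ∃ y : Pt β, ∃ K ≥ k, ∀ σ ∈ F1, ∀ x,
            (∀ i < K, x i = splice k σ y i) → x ∈ O := by
          classical
          intro F1
          induction F1 using Finset.induction_on with
          | empty => exact ⟨dflt, k, le_rfl, by simp⟩
          | insert σ' F2 hσ' ih =>
            obtain ⟨y, K, hKk, hK⟩ := ih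
            obtain ⟨o, ho1, ho2⟩ := (hSd O hO).inter_open_nonempty
              {x | ∀ i < K, x i = splice k σ' y i} (isOpen_cyl _ K)
              ⟨splice k σ' y, fun _ _ => rfl⟩
            obtain ⟨K', hK'⟩ := exists_cyl (hSo O hO) ho2
            have ho1' : ∀ i < K, o i = splice k σ' y i := ho1
            refine ⟨o, max K K', le_trans hKk (le_max_left _ _), fun σ hσ x hx => ?_⟩
            rcases Finset.mem_insert.1 hσ with rfl | hσ
            · apply hK'
              intro i hi
              rw [hx i (lt_of_lt_of_le hi (le_max_right _ _))]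
              by_cases hik : i < k
              · rw [splice_lt hik, ho1' i (lt_of_lt_of_le hik hKk), splice_lt hik]
              · rw [splice_ge (not_lt.1 hik)]
            · apply hK σ hσ
              intro i hi
              rw [hx i (lt_of_lt_of_le hi (le_max_left _ _))]
              by_cases hik : i < k
              · rw [splice_lt hik, splice_lt hik]
              · rw [splice_ge (not_lt.1 hik), splice_ge (not_lt.1 hik), ho1' i hi,
                  splice_ge (not_lt.1 hik)]
        obtain ⟨y, K, hKk, hK⟩ := hfin (finite_stems k).toFinset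
        refine ⟨splice k r₀ (fun i => (false, y i)), hn _ fun i hi => splice_lt (by omega) _ _,
          K, fun r' hr' x hx => ?_⟩
        apply hK (splice k x dflt) (by simpa using splice_mem_stems k x)
        intro i hi
        by_cases hik : i < k
        · rw [splice_lt hik, splice_lt hik]
        · have h1 : r' i = (false, y i) := by
            rw [hr' i hi, splice_ge (not_lt.1 hik)]
          rw [splice_ge (not_lt.1 hik), hx i (by omega) (by rw [h1]), h1]
    filter_upwards [hdo] with r hr x hx
    obtain ⟨K, hK⟩ := hr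
    exact hK r (fun _ _ => rfl) x hx
  have h2 : ∀ᶠ r in residual (Cd β), ∀ O ∈ S, ∀ m, ∀ x, PExt m x r → x ∈ O := by
    rw [eventually_countable_ball hSc]
    intro O hO
    rw [eventually_countable_forall]
    exact key O hO
  filter_upwards [h2] with r hr x hx
  obtain ⟨m, hm⟩ := hx
  exact hS (mem_sInter.2 fun O hO => hr O hO m x hm)

/-- Stable sets of conditions. -/
structure Stable (T : Set (Cd β)) : Prop where
  lim : ∃ L : Set (Set (Cd β)), L.Countable ∧ ⋂₀ L ⊆ T ∧ ∀ p ∈ T, ∀ U ∈ L, ∃ m, ∀ q,
    (∀ i < m, q i = p i) → Ext m q p → q ∈ U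
  fin : ∀ p ∈ T, ∀ q, EqF q p → q ∈ T
  succ : ∀ p ∈ T, ∀ᶠ r in residual (Cd β), comp p r ∈ T

theorem Stable.of_upward {T : Set (Cd β)} (h : ∀ p ∈ T, ∀ q, AE q p → q ∈ T) : Stable T where
  lim := ⟨{T}, countable_singleton T, by simp, fun p hp U hU => ⟨0, fun q _ hq => by
    rw [mem_singleton_iff.1 hU]; exact h p hp q ⟨0, hq⟩⟩⟩
  fin := fun p hp q hq => h p hp q hq.ae
  succ := fun p hp => Eventually.of_forall fun r => h p hp _ (ae_comp p r)

/-- Any modification-invariant generic property of extensions contains a stable set. -/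
theorem exists_stable {p : Cd β} {B : Set (Cd β)} (hBf : ∀ q ∈ B, ∀ q', EqF q' q → q' ∈ B)
    (hB : ∀ᶠ r in residual (Cd β), comp p r ∈ B) :
    ∃ T : Set (Cd β), Stable T ∧ T ⊆ B ∧ ∀ᶠ r in residual (Cd β), comp p r ∈ T := by
  obtain ⟨S, hSo, hSd, hSc, hS⟩ := mem_residual_iff.1 hB
  set A : ℕ → Prop := fun i => (p i).1 = true with hA
  have hSr : (⋂₀ S) ∈ residual (Cd β) :=
    (countable_sInter_mem hSc).2 fun O hO => residual_of_dense_open (hSo O hO) (hSd O hO)
  obtain ⟨v, hv⟩ := exists_mix A hSr
  set R : Set (Cd β) := {r | ∀ r', EqF r' r → mix A v r' ∈ ⋂₀ S} with hR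
  have hRf : ∀ q ∈ R, ∀ q', EqF q' q → q' ∈ R := fun q hq q' hq' r hr => hq r (hr.trans hq')
  -- membership in `R` by countably many conditions
  have hRiff : ∀ r, (∀ m, ∀ σ ∈ (stems m : Set (Cd β)), ∀ O ∈ S, mix A v (splice m σ r) ∈ O) →
      r ∈ R := by
    rintro r h r' ⟨m, hm⟩
    rw [EqF.eq_splice hm]
    exact mem_sInter.2 fun O hO => h m _ (splice_mem_stems m r') O hO
  have hRres : R ∈ residual (Cd β) := by
    have : ∀ᶠ r in residual (Cd β), ∀ m, ∀ σ ∈ (stems m : Set (Cd β)), ∀ O ∈ S,
        mix A v (splice m σ r) ∈ O := by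
      rw [eventually_countable_forall]
      intro m
      rw [eventually_countable_ball (finite_stems m).countable]
      intro σ _
      rw [eventually_countable_ball hSc]
      intro O hO
      have h1 : {u | mix A v u ∈ O} ∈ residual (Cd β) := by
        filter_upwards [hv] with u hu
        exact mem_sInter.1 hu O hO
      exact residual_splice h1 m σ
    filter_upwards [this] with r hr
    exact hRiff r hr
  set T : Set (Cd β) := {q | AE q p ∧ q ∈ R ∧ ∀ᶠ r in residual (Cd β), comp q r ∈ R} with hT
  refine ⟨T, ⟨?_, ?_, ?_⟩, ?_, ?_⟩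
  · -- lim
    set L : Set (Set (Cd β)) := {{q | AE q p}} ∪
      (⋃ m : ℕ, ⋃ σ ∈ (stems m : Set (Cd β)), ⋃ O ∈ S, {{q | mix A v (splice m σ q) ∈ O}}) ∪
      (⋃ m : ℕ, ⋃ σ ∈ (stems m : Set (Cd β)), ⋃ O ∈ S, ⋃ K : ℕ, ⋃ t ∈ (stems K : Set (Cd β)),
        {{q | ∃ r, (∀ i < K, r i = t i) ∧ mix A v (splice m σ (comp q r)) ∈ O}}) with hL
    refine ⟨L, ?_, ?_, ?_⟩
    · apply Countable.union
      · apply (countable_singleton _).union
        exact countable_iUnion fun m => (finite_stems m).countable.biUnion fun σ _ =>
          hSc.biUnion fun O _ => countable_singleton _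
      · exact countable_iUnion fun m => (finite_stems m).countable.biUnion fun σ _ =>
          hSc.biUnion fun O _ => countable_iUnion fun K =>
            (finite_stems K).countable.biUnion fun t _ => countable_singleton _
    · intro q hq
      have hq1 : AE q p := mem_sInter.1 hq {q | AE q p} (by simp [hL])
      have hq2 : ∀ m, ∀ σ ∈ (stems m : Set (Cd β)), ∀ O ∈ S, mix A v (splice m σ q) ∈ O := by
        intro m σ hσ O hO
        have := mem_sInter.1 hq {q | mix A v (splice m σ q) ∈ O} (by
          apply mem_union_left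
          apply mem_union_right
          simp only [mem_iUnion]
          exact ⟨m, σ, hσ, O, hO, rfl⟩)
        exact this
      have hq3 : ∀ m, ∀ σ ∈ (stems m : Set (Cd β)), ∀ O ∈ S, ∀ K, ∀ t ∈ (stems K : Set (Cd β)),
          ∃ r, (∀ i < K, r i = t i) ∧ mix A v (splice m σ (comp q r)) ∈ O := by
        intro m σ hσ O hO K t ht
        have := mem_sInter.1 hq
          {q | ∃ r, (∀ i < K, r i = t i) ∧ mix A v (splice m σ (comp q r)) ∈ O} (by
          apply mem_union_right
          simp only [mem_iUnion]
          exact ⟨m, σ, hσ, O, hO, K, t, ht, rfl⟩)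
        exact this
      refine ⟨hq1, hRiff q hq2, ?_⟩
      have : ∀ᶠ r in residual (Cd β), ∀ m, ∀ σ ∈ (stems m : Set (Cd β)), ∀ O ∈ S,
          mix A v (splice m σ (comp q r)) ∈ O := by
        rw [eventually_countable_forall]
        intro m
        rw [eventually_countable_ball (finite_stems m).countable]
        intro σ hσ
        rw [eventually_countable_ball hSc]
        intro O hO
        apply residual_of_dense_open (s := {r | mix A v (splice m σ (comp q r)) ∈ O})
        · have hc : Continuous fun r => mix A v (splice m σ (comp q r)) := by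
            apply continuous_pi
            intro i
            by_cases hAi : A i
            · simp only [mix_pos hAi]
              by_cases him : i < m
              · simp only [splice_lt him]; exact continuous_const
              · simp only [splice_ge (not_lt.1 him)]
                exact (continuous_apply i).comp (continuous_comp q)
            · simp only [mix_neg hAi]; exact continuous_const
          exact (hSo O hO).preimage hc
        · rw [dense_iff_inter_open]
          rintro U hU ⟨w, hw⟩
          obtain ⟨K, hK⟩ := exists_cyl hU hw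
          obtain ⟨r, hr1, hr2⟩ := hq3 m σ hσ O hO K (splice K w dflt) (splice_mem_stems K w)
          exact ⟨r, hK r fun i hi => by rw [hr1 i hi, splice_lt hi], hr2⟩
      filter_upwards [this] with r hr
      exact hRiff _ hr
    · rintro q ⟨hq1, hq2, hq3⟩ U hU
      rcases hU with (hU | hU) | hU
      · rw [mem_singleton_iff.1 hU]
        obtain ⟨m, hm⟩ := hq1
        exact ⟨m, fun q' _ hq' => ⟨m, hq'.trans hm⟩⟩
      · simp only [mem_iUnion] at hU
        obtain ⟨m, σ, hσ, O, hO, hU⟩ := hU
        rw [mem_singleton_iff.1 hU]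
        have hc : Continuous fun q : Cd β => mix A v (splice m σ q) := by
          apply continuous_pi
          intro i
          by_cases hAi : A i
          · simp only [mix_pos hAi]
            by_cases him : i < m
            · simp only [splice_lt him]; exact continuous_const
            · simp only [splice_ge (not_lt.1 him)]
              exact continuous_apply i
          · simp only [mix_neg hAi]; exact continuous_const
        have hq4 : q ∈ {q | mix A v (splice m σ q) ∈ O} :=
          mem_sInter.1 (hq2 _ (eqF_splice m σ q)) O hO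
        obtain ⟨K, hK⟩ := exists_cyl ((hSo O hO).preimage hc) hq4
        exact ⟨K, fun q' h1 _ => hK q' h1⟩
      · simp only [mem_iUnion] at hU
        obtain ⟨m, σ, hσ, O, hO, K, t, ht, hU⟩ := hU
        rw [mem_singleton_iff.1 hU]
        obtain ⟨r, hr1, hr2⟩ := (dense_of_mem_residual hq3).inter_open_nonempty _ (isOpen_cyl t K)
          ⟨t, fun _ _ => rfl⟩
        have hr2' : comp q r ∈ R := hr2
        have hc : Continuous fun q : Cd β => mix A v (splice m σ (comp q r)) := by
          apply continuous_pi
          intro i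
          by_cases hAi : A i
          · simp only [mix_pos hAi]
            by_cases him : i < m
            · simp only [splice_lt him]; exact continuous_const
            · simp only [splice_ge (not_lt.1 him)]
              exact (continuous_apply i).comp (continuous_comp_left r)
          · simp only [mix_neg hAi]; exact continuous_const
        have hq4 : q ∈ {q | mix A v (splice m σ (comp q r)) ∈ O} :=
          mem_sInter.1 (hr2' _ (eqF_splice m σ (comp q r))) O hO
        obtain ⟨K', hK'⟩ := exists_cyl ((hSo O hO).preimage hc) hq4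
        exact ⟨K', fun q' h1 _ => ⟨r, hr1, hK' q' h1⟩⟩
  · -- fin
    rintro q ⟨hq1, hq2, hq3⟩ q' hq'
    refine ⟨hq'.ae.trans hq1, hRf q hq2 q' hq', ?_⟩
    filter_upwards [hq3] with r hr
    apply hRf _ hr
    obtain ⟨m, hm⟩ := hq'
    exact ⟨m, fun i hi => by unfold comp; rw [hm i hi]⟩
  · -- succ
    rintro q ⟨hq1, hq2, hq3⟩
    have h1 := residual_comp (C := {r | comp q r ∈ R}) hq3
    filter_upwards [hq3, h1] with r hr hr'
    refine ⟨(ae_comp q r).trans hq1, hr, ?_⟩
    filter_upwards [hr'] with r' hr''
    rw [comp_assoc]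
    exact hr''
  · -- subset
    rintro q ⟨⟨m, hm⟩, hq2, -⟩
    have h1 : mix A v q ∈ ⋂₀ S := hq2 q (EqF.refl q)
    have h2 : comp p (mix A v q) ∈ B := hS h1
    apply hBf _ h2
    refine ⟨m, fun i hi => ?_⟩
    cases h : (p i).1
    · rw [comp_not h, hm i hi h]
    · rw [comp_free h, mix_pos h]
  · -- initial
    have h1 : ∀ r, r ∈ R → comp p r ∈ R := by
      intro r hr r'' hr''
      obtain ⟨m, hm⟩ := hr''
      have h3 := hr (mix A r r'') ⟨m, fun i hi => by
        cases h : (p i).1
        · rw [mix_neg (by simp [hA, h])]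
        · rw [mix_pos (by simp [hA, h]), hm i hi, comp_free h]⟩
      rwa [mix_congr v (u' := r'') (fun i hi => mix_pos hi _ _)] at h3
    have h2 := residual_comp hRres
    filter_upwards [hRres, h2] with r hr hr'
    refine ⟨ae_comp p r, h1 r hr, ?_⟩
    filter_upwards [hr'] with r' hr''
    rw [comp_assoc]
    exact h1 _ hr''

end Pool.Agent.H39.BSel
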