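import Mathlib

set_option autoImplicit false
set_option linter.unusedSectionVars false

/-!
Borel selection properties: definitions, invariance, implications, and criteria.
-/

namespace Pool.Agent.H39.BSel

open Set Filter

section Defs

variable {T : Type} [MeasurableSpace T]

/-- `U` is a countable cover of `T` by measurable sets with `T ∉ U`. -/
def IsCov (U : Set (Set T)) : Prop :=
  U.Countable ∧ (∀ u ∈ U, MeasurableSet u) ∧ ⋃₀ U = univ ∧ univ ∉ U

/-- `U` is a countable measurable `ω`-cover: every finite subset of `T` lies in a member. -/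
def IsOm (U : Set (Set T)) : Prop :=
  IsCov U ∧ ∀ F : Set T, F.Finite → ∃ u ∈ U, F ⊆ u

/-- `U` is a countable measurable `γ`-cover: it is infinite and every point lies in all but
finitely many members. -/
def IsGa (U : Set (Set T)) : Prop :=
  IsCov U ∧ U.Infinite ∧ ∀ x, {u ∈ U | x ∉ u}.Finite

/-- `S₁(A, B)`. -/
def S1 (A B : Set (Set T) → Prop) : Prop :=
  ∀ U : ℕ → Set (Set T), (∀ n, A (U n)) → ∃ u : ℕ → Set T, (∀ n, u n ∈ U n) ∧ B (range u)

/-- `S_fin(A, B)`. -/
def Sfin (A B : Set (Set T) → Prop) : Prop :=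
  ∀ U : ℕ → Set (Set T), (∀ n, A (U n)) →
    ∃ F : ℕ → Set (Set T), (∀ n, (F n).Finite ∧ F n ⊆ U n) ∧ B (⋃ n, F n)

end Defs

/-- The seven properties of a space `T` (with its Borel sets). -/
def P (T : Type) [MeasurableSpace T] : ℕ → Prop
  | 1 => S1 (T := T) IsGa IsGa
  | 2 => S1 (T := T) IsGa IsOm
  | 3 => Sfin (T := T) IsCov IsCov
  | 4 => Sfin (T := T) IsOm IsOm
  | 5 => S1 (T := T) IsOm IsGa
  | 6 => S1 (T := T) IsOm IsOm
  | 7 => S1 (T := T) IsCov IsCov
  | _ => True

/-- The set of reals `X` has exactly the properties `P i`, `i ∈ s`, among `P 1, …, P 7`. -/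
def Realizes (X : Set ℝ) (s : Set ℕ) : Prop :=
  ∀ i, 1 ≤ i → i ≤ 7 → (P X i ↔ i ∈ s)

section Map

variable {T T' : Type} [MeasurableSpace T] [MeasurableSpace T'] (φ : T ≃ᵐ T')

theorem IsCov.map {U : Set (Set T)} (h : IsCov U) : IsCov (image φ '' U) := by
  obtain ⟨h1, h2, h3, h4⟩ := h
  refine ⟨h1.image _, ?_, ?_, ?_⟩
  · rintro _ ⟨u, hu, rfl⟩
    exact φ.measurableSet_image.2 (h2 u hu)
  · rw [eq_univ_iff_forall]
    intro y
    have : φ.symm y ∈ ⋃₀ U := h3 ▸ mem_univ _
    obtain ⟨u, hu, hy⟩ := this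
    exact ⟨φ '' u, mem_image_of_mem _ hu, φ.symm y, hy, by simp⟩
  · rintro ⟨u, hu, h5⟩
    apply h4
    have : u = univ := by
      rw [eq_univ_iff_forall]
      intro x
      have : φ x ∈ φ '' u := by rw [h5]; exact mem_univ _
      obtain ⟨x', hx', h6⟩ := this
      rwa [← φ.injective h6]
    rwa [← this]

theorem IsOm.map {U : Set (Set T)} (h : IsOm U) : IsOm (image φ '' U) := by
  refine ⟨h.1.map φ, fun F hF => ?_⟩
  obtain ⟨u, hu, h1⟩ := h.2 (φ ⁻¹' F) (hF.preimage φ.injective.injOn)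
  refine ⟨φ '' u, mem_image_of_mem _ hu, fun y hy => ⟨φ.symm y, h1 ?_, by simp⟩⟩
  simpa using hy

theorem IsGa.map {U : Set (Set T)} (h : IsGa U) : IsGa (image φ '' U) := by
  refine ⟨h.1.map φ, h.2.1.image (image_injective.2 φ.injective).injOn, fun y => ?_⟩
  apply ((h.2.2 (φ.symm y)).image (image φ)).subset
  rintro _ ⟨⟨u, hu, rfl⟩, h1⟩
  refine ⟨u, ⟨hu, fun h2 => h1 ⟨φ.symm y, h2, by simp⟩⟩, rfl⟩

theorem S1.map {A B : Set (Set T) → Prop} {A' B' : Set (Set T') → Prop}
    (hA : ∀ U, A' U → A (image φ.symm '' U)) (hB : ∀ U, B U → B' (image φ '' U))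
    (h : S1 A B) : S1 A' B' := by
  intro U hU
  obtain ⟨u, hu, hBu⟩ := h (fun n => image φ.symm '' U n) (fun n => hA _ (hU n))
  refine ⟨fun n => φ '' u n, fun n => ?_, ?_⟩
  · obtain ⟨v, hv, h1⟩ := hu n
    have : φ '' u n = v := by
      rw [← h1, ← image_comp]
      convert image_id v
      simp
    simp only [this]
    exact hv
  · convert hB _ hBu
    rw [← range_comp]
    rfl

theorem Sfin.map {A B : Set (Set T) → Prop} {A' B' : Set (Set T') → Prop}
    (hA : ∀ U, A' U → A (image φ.symm '' U)) (hB : ∀ U, B U → B' (image φ '' U))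
    (h : Sfin A B) : Sfin A' B' := by
  intro U hU
  obtain ⟨F, hF, hBF⟩ := h (fun n => image φ.symm '' U n) (fun n => hA _ (hU n))
  refine ⟨fun n => image φ '' F n, fun n => ⟨(hF n).1.image _, ?_⟩, ?_⟩
  · rintro _ ⟨u, hu, rfl⟩
    obtain ⟨v, hv, h1⟩ := (hF n).2 hu
    have : φ '' u = v := by
      rw [← h1, ← image_comp]
      convert image_id v
      simp
    rw [this]
    exact hv
  · convert hB _ hBF
    rw [image_iUnion]

include φ in
theorem P.map (i : ℕ) (h : P T i) : P T' i := by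
  have c : ∀ U : Set (Set T'), IsCov U → IsCov (image φ.symm '' U) := fun U h => h.map φ.symm
  have o : ∀ U : Set (Set T'), IsOm U → IsOm (image φ.symm '' U) := fun U h => h.map φ.symm
  have g : ∀ U : Set (Set T'), IsGa U → IsGa (image φ.symm '' U) := fun U h => h.map φ.symm
  have c' : ∀ U : Set (Set T), IsCov U → IsCov (image φ '' U) := fun U h => h.map φ
  have o' : ∀ U : Set (Set T), IsOm U → IsOm (image φ '' U) := fun U h => h.map φ
  have g' : ∀ U : Set (Set T), IsGa U → IsGa (image φ '' U) := fun U h => h.map φ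
  match i, h with
  | 0, _ => trivial
  | 1, h => exact S1.map φ g g' h
  | 2, h => exact S1.map φ g o' h
  | 3, h => exact Sfin.map φ c c' h
  | 4, h => exact Sfin.map φ o o' h
  | 5, h => exact S1.map φ o g' h
  | 6, h => exact S1.map φ o o' h
  | 7, h => exact S1.map φ c c' h
  | (n + 8), _ => trivial

end Map

section Impl

variable {T : Type} [MeasurableSpace T]

theorem IsGa.isOm {U : Set (Set T)} (h : IsGa U) : IsOm U := by
  refine ⟨h.1, fun F hF => ?_⟩
  have h1 : (⋃ x ∈ F, {u ∈ U | x ∉ u}).Finite := hF.biUnion fun x _ => h.2.2 x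
  obtain ⟨u, hu, hu'⟩ := h.2.1.exists_notMem_finite h1
  refine ⟨u, hu, fun x hx => ?_⟩
  by_contra hxu
  apply hu'
  simp only [mem_iUnion]
  exact ⟨x, hx, hu, hxu⟩

theorem P12 (h : P T 1) : P T 2 := by
  intro U hU
  obtain ⟨u, hu, h1⟩ := h U hU
  exact ⟨u, hu, h1.isOm⟩

theorem P56 (h : P T 5) : P T 6 := by
  intro U hU
  obtain ⟨u, hu, h1⟩ := h U hU
  exact ⟨u, hu, h1.isOm⟩

theorem P64 (h : P T 6) : P T 4 := by
  intro U hU
  obtain ⟨u, hu, h1⟩ := h U hU
  refine ⟨fun n => {u n}, fun n => ⟨finite_singleton _, singleton_subset_iff.2 (hu n)⟩, ?_⟩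
  rwa [iUnion_singleton_eq_range]

/-- An increasing sequence of sets with union the whole space and no member the whole space has
infinite range. -/
theorem infinite_range_of_monotone {W : ℕ → Set T} (hm : Monotone W) (hu : ⋃ m, W m = univ)
    (hn : ∀ m, W m ≠ univ) : (range W).Infinite := by
  intro hfin
  have h1 : ∃ m, ∀ k, W k ⊆ W m := by
    have h2 : ∀ S : Set (Set T), S.Finite → S ⊆ range W → S.Nonempty → ∃ m, ∀ V ∈ S, V ⊆ W m := by
      intro S hS
      induction S, hS using Set.Finite.induction_on with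
      | empty => intro _ h; exact absurd h (by simp)
      | insert _ _ ih =>
        rename_i a S ha hS
        intro h1 _
        obtain ⟨k, rfl⟩ := h1 (mem_insert _ _)
        rcases S.eq_empty_or_nonempty with rfl | hne
        · exact ⟨k, by simp⟩
        · obtain ⟨m, hm'⟩ := ih ((subset_insert _ _).trans h1) hne
          refine ⟨max k m, fun V hV => ?_⟩
          rcases mem_insert_iff.1 hV with rfl | hV
          · exact hm (le_max_left _ _)
          · exact (hm' V hV).trans (hm (le_max_right _ _))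
    obtain ⟨m, hm'⟩ := h2 (range W) hfin Subset.rfl (range_nonempty W)
    exact ⟨m, fun k => hm' _ (mem_range_self k)⟩
  obtain ⟨m, hm'⟩ := h1
  apply hn m
  rw [eq_univ_iff_forall]
  intro x
  have : x ∈ ⋃ m, W m := hu ▸ mem_univ x
  obtain ⟨k, hk⟩ := mem_iUnion.1 this
  exact hm' k hk

theorem isGa_range {W : ℕ → Set T} (hm : Monotone W) (hu : ⋃ m, W m = univ)
    (hn : ∀ m, W m ≠ univ) (hmeas : ∀ m, MeasurableSet (W m)) : IsGa (range W) := by
  refine ⟨⟨countable_range _, ?_, ?_, ?_⟩, infinite_range_of_monotone hm hu hn, fun x => ?_⟩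
  · rintro _ ⟨m, rfl⟩; exact hmeas m
  · rwa [sUnion_range]
  · rintro ⟨m, h⟩; exact hn m h
  · have : x ∈ ⋃ m, W m := hu ▸ mem_univ x
    obtain ⟨k, hk⟩ := mem_iUnion.1 this
    apply ((finite_Iio k).image W).subset
    rintro _ ⟨⟨m, rfl⟩, h1⟩
    refine ⟨m, ?_, rfl⟩
    by_contra h2
    exact h1 (hm (not_lt.1 h2) hk)

theorem IsCov.nonempty {U : Set (Set T)} (h : IsCov U) (hT : Nonempty T) : U.Nonempty := by
  obtain ⟨x⟩ := hT
  have : x ∈ ⋃₀ U := h.2.2.1 ▸ mem_univ x
  obtain ⟨u, hu, _⟩ := this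
  exact ⟨u, hu⟩

theorem P23 (hT : Nonempty T) (h : P T 2) : P T 3 := by
  classical
  intro U hU
  have he : ∀ n, ∃ e : ℕ → Set T, U n = range e := fun n => by
    obtain ⟨e, he⟩ := (hU n).1.exists_eq_range ((hU n).nonempty hT)
    exact ⟨e, he⟩
  choose e he using he
  have heU : ∀ n m, e n m ∈ U n := fun n m => by rw [he n]; exact mem_range_self m
  set W : ℕ → ℕ → Set T := fun n m => ⋃ i ∈ Finset.range (m + 1), e n i with hW
  have hWm : ∀ n, Monotone (W n) := fun n a b hab => by
    apply biUnion_subset_biUnion_left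
    intro i hi
    have : i ∈ Finset.range (a + 1) := hi
    have : i ∈ Finset.range (b + 1) := by rw [Finset.mem_range] at *; omega
    exact this
  have hWu : ∀ n, ⋃ m, W n m = univ := by
    intro n
    rw [eq_univ_iff_forall]
    intro x
    have : x ∈ ⋃₀ U n := (hU n).2.2.1 ▸ mem_univ x
    rw [he n, sUnion_range] at this
    obtain ⟨m, hm⟩ := mem_iUnion.1 this
    exact mem_iUnion.2 ⟨m, mem_biUnion (Finset.mem_coe.2 (Finset.self_mem_range_succ m)) hm⟩
  have hWmeas : ∀ n m, MeasurableSet (W n m) := fun n m =>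
    Finset.measurableSet_biUnion _ fun i _ => (hU n).2.1 _ (heU n i)
  by_cases hex : ∃ n m, W n m = univ
  · obtain ⟨n, m, hnm⟩ := hex
    refine ⟨fun k => if k = n then e n '' (Finset.range (m + 1) : Set ℕ) else ∅, fun k => ?_, ?_⟩
    · by_cases hk : k = n
      · subst hk
        simp only [if_true]
        refine ⟨(Finset.finite_toSet _).image _, ?_⟩
        rintro _ ⟨i, _, rfl⟩
        exact heU k i
      · simp [hk]
    · have hun : (⋃ k, if k = n then e n '' (Finset.range (m + 1) : Set ℕ) else ∅) =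
          e n '' (Finset.range (m + 1) : Set ℕ) := by
        ext V
        simp only [mem_iUnion]
        constructor
        · rintro ⟨k, hk⟩
          by_cases h : k = n
          · simpa [h] using hk
          · simp [h] at hk
        · intro h
          exact ⟨n, by simpa using h⟩
      rw [hun]
      have hsub : e n '' (Finset.range (m + 1) : Set ℕ) ⊆ U n := by
        rintro _ ⟨i, _, rfl⟩
        exact heU n i
      refine ⟨(hU n).1.mono hsub, fun u hu => (hU n).2.1 u (hsub hu), ?_,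
        fun h => (hU n).2.2.2 (hsub h)⟩
      rw [sUnion_image]
      exact hnm
  · push Not at hex
    obtain ⟨u, hu, hom⟩ := h (fun n => range (W n)) fun n =>
      isGa_range (hWm n) (hWu n) (hex n) (hWmeas n)
    choose m hm using hu
    refine ⟨fun n => e n '' (Finset.range (m n + 1) : Set ℕ), fun n =>
      ⟨(Finset.finite_toSet _).image _, ?_⟩, ?_, ?_, ?_, ?_⟩
    · rintro _ ⟨i, _, rfl⟩
      exact heU n i
    · exact countable_iUnion fun n => ((Finset.finite_toSet _).image _).countable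
    · intro V hV
      obtain ⟨n, i, _, rfl⟩ := mem_iUnion.1 hV
      exact (hU n).2.1 _ (heU n i)
    · rw [eq_univ_iff_forall]
      intro x
      have : x ∈ ⋃₀ range u := hom.1.2.2.1 ▸ mem_univ x
      rw [sUnion_range] at this
      obtain ⟨n, hn⟩ := mem_iUnion.1 this
      rw [← hm n] at hn
      simp only [hW, mem_iUnion] at hn
      obtain ⟨i, hi, hx⟩ := hn
      exact ⟨e n i, mem_iUnion.2 ⟨n, i, hi, rfl⟩, hx⟩
    · intro hV
      obtain ⟨n, i, _, h1⟩ := mem_iUnion.1 hV
      exact (hU n).2.2.2 (h1 ▸ heU n i)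

end Impl

end Pool.Agent.H39.BSel
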