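import Pool.Agent.H39.BSel.Sets

set_option autoImplicit false
set_option linter.unusedSectionVars false

/-!
Properties of the sets produced by the recursion.
-/

namespace Pool.Agent.H39.BSel

open Topology Filter Set MeasureTheory Function
open scoped ENNReal Cardinal

namespace Model

variable {I : Type} [LinearOrder I] [WellFoundedLT I] (M : Model I)

/-- The requirements of the model. -/
noncomputable def R : Req I al ℝ := mkR M.ef M.eb M.eM M.eN M.eh M.er

theorem hG (γ : I) : BSel.G mu M.R M.V γ M.x (M.x γ) := M.G γ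

noncomputable def px (γ : I) : Pt al := app (M.x γ).p xz
noncomputable def py (γ : I) : Pt al := app (M.x γ).p (ww (M.x γ).t)
noncomputable def pz (γ : I) : Pt al := (M.x γ).z
noncomputable def pc (γ : I) : Pt al := (M.x γ).c

theorem mem {δ γ : I} (h : δ < γ) {T : Set (Cd al)} (hT : T ∈ (M.x δ).T) : (M.x γ).p ∈ T :=
  (M.hG γ).mem δ h T hT

include M in
theorem exists_gt (δ : I) : ∃ γ, δ < γ := by
  by_contra h
  push Not at h
  apply M.unc
  have : (univ : Set I) = insert δ (Iio δ) := by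
    ext a
    simp only [mem_univ, mem_insert_iff, mem_Iio, true_iff]
    exact (h a).eq_or_lt
  rw [this]
  exact (M.hI δ).insert _

include M in
theorem exists_gt_countable {S : Set I} (hS : S.Countable) : ∃ γ, γ ∉ S := by
  by_contra h
  push Not at h
  exact M.unc (hS.mono fun a _ => h a)

include M in
theorem countable_Iic (γ : I) : (Iic γ).Countable := by
  have : Iic γ = insert γ (Iio γ) := by
    ext a; simp only [mem_Iic, mem_insert_iff, mem_Iio]; exact le_iff_eq_or_lt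
  rw [this]
  exact (M.hI γ).insert _

include M in
theorem nonempty_I : Nonempty I := by
  by_contra h
  rw [not_nonempty_iff] at h
  apply M.unc
  exact countable_univ

theorem pae_x (γ : I) : PAE (M.px γ) (M.x γ).p := pae_app _ _
theorem pae_y (γ : I) : PAE (M.py γ) (M.x γ).p := pae_app _ _
theorem pae_z (γ : I) : PAE (M.pz γ) (M.x γ).p := ⟨0, (M.hG γ).hz.1⟩

theorem infinite_symm {u v : Pt al} (h : {i | u i ≠ v i}.Infinite) : {i | v i ≠ u i}.Infinite := by
  have : {i | v i ≠ u i} = {i | u i ≠ v i} := by ext i; simp only [mem_ofPred_eq]; exact ne_comm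
  rwa [this]

theorem diff_xy (γ γ' : I) : {i | M.px γ i ≠ M.py γ' i}.Infinite := by
  rcases lt_trichotomy γ γ' with h | rfl | h
  · exact infinite_symm (M.mem h (M.hG γ).av1 _ (M.pae_y γ'))
  · exact ((M.hG γ).ht γ le_rfl).2
  · exact M.mem h (M.hG γ').av2 _ (M.pae_x γ)

theorem diff_xz (γ γ' : I) : {i | M.px γ i ≠ M.pz γ' i}.Infinite := by
  rcases lt_trichotomy γ γ' with h | rfl | h
  · exact infinite_symm (M.mem h (M.hG γ).av1 _ (M.pae_z γ'))
  · exact infinite_symm (M.hG γ).hz.2.1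
  · exact M.mem h (M.hG γ').av3 _ (M.pae_x γ)

theorem diff_xx {γ γ' : I} (hne : γ ≠ γ') : {i | M.px γ i ≠ M.px γ' i}.Infinite := by
  rcases lt_or_gt_of_ne hne with h | h
  · exact infinite_symm (M.mem h (M.hG γ).av1 _ (M.pae_x γ'))
  · exact M.mem h (M.hG γ').av1 _ (M.pae_x γ)

theorem exists_ge_of_infinite {u v : Pt al} (h : {i | u i ≠ v i}.Infinite) (K : ℕ) :
    ∃ i ≥ K, u i ≠ v i := by
  obtain ⟨i, hi, hK⟩ := h.exists_gt K
  exact ⟨i, hK.le, hi⟩

theorem px_injective : Injective M.px := by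
  intro γ γ' h
  by_contra hne
  obtain ⟨i, -, hi⟩ := exists_ge_of_infinite (M.diff_xx hne) 0
  exact hi (congrFun h i)

theorem exists_px_notMem {S : Set (Pt al)} (hS : S.Finite) : ∃ γ, M.px γ ∉ S := by
  have : (M.px ⁻¹' S).Finite := hS.preimage M.px_injective.injOn
  obtain ⟨γ, hγ⟩ := M.exists_gt_countable this.countable
  exact ⟨γ, hγ⟩

/-- Points living on the tower. -/
def Tw : Set (ℕ × Pt al) := {a | ∃ γ, a.2 = M.px γ ∨ a.2 = M.py γ ∨ a.2 = M.pz γ}

theorem tower_data (f : ℕ × Pt al → ℕ → ℕ) (hf : ∀ n, Measurable (f · n)) :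
    ∃ C : Set (ℕ × Pt al), C.Countable ∧ (∃ g : ℕ → ℕ, ∀ a ∈ M.Tw \ C, ∀ᶠ n in atTop, f a n ≤ g n) ∧
      ∃ g : ℕ → ℕ, ∀ a ∈ M.Tw \ C, ∃ n, f a n = g n := by
  obtain ⟨γ₀, hγ₀⟩ := M.sb ⟨f, hf⟩
  set C : Set (ℕ × Pt al) := univ ×ˢ (⋃ γ ∈ Iic γ₀, {M.px γ, M.py γ, M.pz γ}) with hC
  have hCc : C.Countable := countable_univ.prod
    ((M.countable_Iic γ₀).biUnion fun γ _ => Set.Finite.countable (by simp))
  obtain ⟨γ₁, h01⟩ := M.exists_gt γ₀
  have hgood : ∀ γ, γ₀ < γ → (M.x γ).p ∈ good (M.R.b γ₀) := fun γ h => M.mem h (M.hG γ₀).good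
  have hb : ∀ j x, M.R.b γ₀ j x = f (j, x) := by
    intro j x
    show (M.eb γ₀).1 (j, x) = f (j, x)
    rw [hγ₀]
  have key : ∀ a ∈ M.Tw \ C, ∃ γ, γ₀ < γ ∧ PAE a.2 (M.x γ).p := by
    rintro a ⟨⟨γ, hγ⟩, haC⟩
    refine ⟨γ, ?_, ?_⟩
    · by_contra h
      apply haC
      refine ⟨mem_univ _, ?_⟩
      simp only [mem_iUnion, mem_insert_iff, mem_singleton_iff]
      exact ⟨γ, not_lt.1 h, hγ⟩
    · rcases hγ with h | h | h <;> rw [h]
      · exact M.pae_x γ
      · exact M.pae_y γ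
      · exact M.pae_z γ
  -- uniform witnesses come from the least stage
  obtain ⟨⟨g, hg⟩, ⟨h, hh⟩⟩ := hgood γ₁ h01
  -- enlarge `C` to include stage below `γ₁`
  set C' : Set (ℕ × Pt al) := univ ×ˢ (⋃ γ ∈ Iic γ₁, {M.px γ, M.py γ, M.pz γ}) with hC'
  have hCc' : C'.Countable := countable_univ.prod
    ((M.countable_Iic γ₁).biUnion fun γ _ => Set.Finite.countable (by simp))
  have key' : ∀ a ∈ M.Tw \ C', PAE a.2 (M.x γ₁).p := by
    rintro a ⟨⟨γ, hγ⟩, haC⟩
    have hlt : γ₁ < γ := by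
      by_contra h
      apply haC
      refine ⟨mem_univ _, ?_⟩
      simp only [mem_iUnion, mem_insert_iff, mem_singleton_iff]
      exact ⟨γ, not_lt.1 h, hγ⟩
    have hae : AE (M.x γ).p (M.x γ₁).p := M.mem hlt (M.hG γ₁).ae
    have hp : PAE a.2 (M.x γ).p := by
      rcases hγ with h | h | h <;> rw [h]
      · exact M.pae_x γ
      · exact M.pae_y γ
      · exact M.pae_z γ
    exact hp.trans hae
  refine ⟨C', hCc', ⟨g, fun a ha => ?_⟩, ⟨h, fun a ha => ?_⟩⟩
  · have := hg a.2 (key' a ha) a.1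
    rw [hb] at this
    exact this
  · have := hh a.2 (key' a ha) a.1
    rw [hb] at this
    exact this

theorem bdd_Tw : Bdd M.Tw := Bdd.of_cocountable fun f hf => by
  obtain ⟨C, hC, h, -⟩ := M.tower_data f hf
  exact ⟨C, hC, h⟩

theorem ie_Tw : Ie M.Tw := Ie.of_cocountable fun f hf => by
  obtain ⟨C, hC, -, h⟩ := M.tower_data f hf
  exact ⟨C, hC, h⟩

/-- The five pieces. -/
def Ax : Set (ℕ × Pt al) := range fun γ => (0, M.px γ)
def Ay : Set (ℕ × Pt al) := range fun γ => (1, M.py γ)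
def Az : Set (ℕ × Pt al) := range fun γ => (2, M.pz γ)
def Ac : Set (ℕ × Pt al) := range fun γ => (3, M.pc γ)
def As : Set (ℕ × Pt al) := range fun γ => (4, ww (M.x γ).t)

theorem Ax_sub : M.Ax ⊆ M.Tw := by rintro _ ⟨γ, rfl⟩; exact ⟨γ, Or.inl rfl⟩
theorem Ay_sub : M.Ay ⊆ M.Tw := by rintro _ ⟨γ, rfl⟩; exact ⟨γ, Or.inr (Or.inl rfl)⟩
theorem Az_sub : M.Az ⊆ M.Tw := by rintro _ ⟨γ, rfl⟩; exact ⟨γ, Or.inr (Or.inr rfl)⟩

theorem exists_M {S : Set (Pt al)} (hS : MeasurableSet S) (hr : S ∈ residual (Pt al)) :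
    ∃ γ₀, ∀ γ ≥ γ₀, M.pc γ ∈ S := by
  obtain ⟨γ₀, hγ₀⟩ := M.sM ⟨⟨S, hS⟩, hr⟩
  refine ⟨γ₀, fun γ hγ => ?_⟩
  have := (M.hG γ).hc γ₀ hγ
  have h2 : M.R.M γ₀ = S := by
    show (M.eM γ₀).1.1 = S
    rw [hγ₀]
  rw [h2] at this
  exact this

theorem exists_N {S : Set ℝ} (hS : MeasurableSet S) (hr : ∀ᵐ t ∂mu, t ∈ S) :
    ∃ γ₀, ∀ γ ≥ γ₀, (M.x γ).t ∈ S := by
  obtain ⟨γ₀, hγ₀⟩ := M.sN ⟨⟨S, hS⟩, hr⟩
  refine ⟨γ₀, fun γ hγ => ?_⟩
  have := ((M.hG γ).ht γ₀ hγ).1.1
  have h2 : (M.eN γ₀).1.1 = S := by rw [hγ₀]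
  rw [h2] at this
  exact this

theorem ie_Ac : Ie M.Ac := Ie.of_cocountable fun f hf => by
  obtain ⟨V, hV⟩ := exists_piBase (Pt al)
  have hm : ∀ n, Measurable fun y : Pt al => f (3, y) n := fun n =>
    (hf n).comp (measurable_const.prodMk measurable_id)
  obtain ⟨h, hh⟩ := exists_ie hV (fun (_ : Unit) y => f (3, y)) (fun _ n => hm n)
  obtain ⟨γ₀, hγ₀⟩ := M.exists_M (S := {y | ∃ n, f (3, y) n = h n}) (by
    have : {y : Pt al | ∃ n, f (3, y) n = h n} = ⋃ n, {y | f (3, y) n = h n} := by ext y; simp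
    rw [this]
    exact MeasurableSet.iUnion fun n => hm n (measurableSet_singleton _)) (hh ())
  refine ⟨(fun γ => (3, M.pc γ)) '' Iio γ₀, (M.hI γ₀).image _, h, ?_⟩
  rintro _ ⟨⟨γ, rfl⟩, h1⟩
  apply hγ₀ γ
  by_contra h2
  exact h1 ⟨γ, not_le.1 h2, rfl⟩

theorem exists_ae_bound {f : ℝ → ℕ → ℕ} (hf : ∀ n, Measurable (f · n)) :
    ∃ g : ℕ → ℕ, ∀ᵐ t ∂mu, ∀ᶠ n in atTop, f t n ≤ g n := by
  have h1 : ∀ n, ∃ v, mu {t | v < f t n} ≤ (2 : ℝ≥0∞)⁻¹ ^ n := by
    intro n
    have hanti : Antitone fun v => {t | v < f t n} := fun v v' h t ht => lt_of_le_of_lt h ht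
    have hempty : ⋂ v, {t | v < f t n} = ∅ := by
      rw [eq_empty_iff_forall_notMem]
      intro t ht
      rw [mem_iInter] at ht
      have := ht (f t n)
      simp at this
    have htend := tendsto_measure_iInter_atTop (μ := mu) (s := fun v => {t | v < f t n})
      (fun v => (measurableSet_lt measurable_const (hf n)).nullMeasurableSet) hanti
      ⟨0, measure_ne_top _ _⟩
    rw [hempty, measure_empty] at htend
    have hpos : (0 : ℝ≥0∞) < (2 : ℝ≥0∞)⁻¹ ^ n := by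
      apply ENNReal.pow_pos
      simp
    exact ((htend.eventually (gt_mem_nhds hpos)).exists).imp fun v hv => hv.le
  choose g hg using h1
  refine ⟨g, ?_⟩
  have hsum : ∑' n, mu {t | g n < f t n} ≠ ∞ := by
    apply ne_top_of_le_ne_top _ (ENNReal.tsum_le_tsum hg)
    rw [ENNReal.tsum_geometric]
    simp
  filter_upwards [ae_eventually_notMem hsum] with t ht
  filter_upwards [ht] with n hn
  simpa using hn

theorem bdd_As : Bdd M.As := Bdd.of_cocountable fun f hf => by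
  have hm : ∀ n, Measurable fun t : ℝ => f (4, ww t) n := fun n =>
    (hf n).comp (measurable_const.prodMk measurable_ww)
  obtain ⟨g, hg⟩ := exists_ae_bound hm
  obtain ⟨γ₀, hγ₀⟩ := M.exists_N (S := {t | ∀ᶠ n in atTop, f (4, ww t) n ≤ g n}) (by
    have : {t : ℝ | ∀ᶠ n in atTop, f (4, ww t) n ≤ g n} =
        ⋃ N, ⋂ n ∈ Ici N, {t | f (4, ww t) n ≤ g n} := by
      ext t; simp [eventually_atTop]
    rw [this]
    exact MeasurableSet.iUnion fun N => MeasurableSet.biInter (to_countable _) fun n _ =>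
      measurableSet_le (hm n) measurable_const) hg
  refine ⟨(fun γ => (4, ww (M.x γ).t)) '' Iio γ₀, (M.hI γ₀).image _, g, ?_⟩
  rintro _ ⟨⟨γ, rfl⟩, h1⟩
  apply hγ₀ γ
  by_contra h2
  exact h1 ⟨γ, not_le.1 h2, rfl⟩

/-- Non-domination for all finite decreasing lists of stages. -/
theorem nd (δ : I) (l : List I) (hl : l.Pairwise (· > ·)) :
    ∃ᶠ n in atTop, M.R.f δ (seqOf (fun a => (M.x a).d) l) n ≤ (M.x δ).g n := by
  obtain ⟨γ, hδ, hγ⟩ : ∃ γ, δ < γ ∧ ∀ a ∈ l, a < γ := by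
    rcases l with _ | ⟨a, l⟩
    · obtain ⟨γ, hγ⟩ := M.exists_gt δ
      exact ⟨γ, hγ, by simp⟩
    · obtain ⟨γ, hγ⟩ := M.exists_gt (max a δ)
      refine ⟨γ, lt_of_le_of_lt (le_max_right _ _) hγ, fun b hb => ?_⟩
      have ha : a < γ := lt_of_le_of_lt (le_max_left _ _) hγ
      rcases List.mem_cons.1 hb with rfl | hb
      · exact ha
      · exact lt_trans ((List.pairwise_cons.1 hl).1 b hb) ha
  obtain ⟨ε, hε, T, hT, hsub⟩ := exists_T mu M.R (γ := γ) (fun δ _ => M.hG δ) l hγ hl δ hδ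
  exact ND_apply mu (hsub (M.mem hε hT))

theorem seqOf_mem {d : I → Dt al ℝ} : ∀ (l : List I), ∀ e ∈ l, ∃ b < l.length, seqOf d l b = d e
  | [], e, he => by simp at he
  | (γ :: l), e, he => by
    rcases List.mem_cons.1 he with rfl | he
    · exact ⟨l.length, by simp, by simp [seqOf]⟩
    · obtain ⟨b, hb, h⟩ := seqOf_mem l e he
      refine ⟨b, by simp; omega, ?_⟩
      simp only [seqOf]
      rw [update_of_ne (by omega)]
      exact h

/-- The points derived from raw data. -/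
noncomputable def pr (a : ℕ) (d : Dt al ℝ) : ℕ × Pt al :=
  if a = 0 then (0, app d.1 xz) else if a = 1 then (1, app d.1 (ww d.2.1)) else (3, d.2.2)

theorem measurable_pr (a : ℕ) : Measurable (pr a) := by
  have happ : Measurable fun z : Cd al × Pt al => app z.1 z.2 := continuous_app.measurable
  unfold pr
  split_ifs
  · exact measurable_const.prodMk (happ.comp (measurable_fst.prodMk measurable_const))
  · exact measurable_const.prodMk (happ.comp (measurable_fst.prodMk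
      (measurable_ww.comp (measurable_fst.comp measurable_snd))))
  · exact measurable_const.prodMk (measurable_snd.comp measurable_snd)

theorem pw : Pw (M.Ax ∪ M.Ay ∪ M.Ac) := by
  classical
  intro k f hf
  set fab : (Fin k → ℕ) × (Fin k → ℕ) → Om al ℝ → ℕ → ℕ :=
    fun z D => f (fun i => pr (z.1 i) (D (z.2 i))) with hfab
  have hm : ∀ z n, Measurable (fab z · n) := by
    intro z n
    apply (hf n).comp
    rw [measurable_pi_iff]
    intro i
    exact (measurable_pr _).comp (measurable_pi_apply _)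
  have hex : ∀ z, ∃ γ, M.ef γ = ⟨fab z, hm z⟩ := fun z => M.sf _
  choose γz hγz using hex
  obtain ⟨g, hg⟩ := exists_bound_countable (C := (univ : Set ((Fin k → ℕ) × (Fin k → ℕ))))
    countable_univ (fun z => (M.x (γz z)).g)
  refine ⟨g, fun F hF => ?_⟩
  have h1 : ∀ i, ∃ a : ℕ, ∃ γ : I, F i = pr a (M.x γ).d := by
    intro i
    rcases hF i with (⟨γ, h⟩ | ⟨γ, h⟩) | ⟨γ, h⟩
    · exact ⟨0, γ, h.symm⟩
    · exact ⟨1, γ, h.symm⟩
    · exact ⟨3, γ, h.symm⟩
  choose a e hae using h1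
  set l : List I := (Finset.univ.image e).sort (· ≥ ·) with hl
  have hlp : l.Pairwise (· > ·) := (Finset.univ.image e).sortedGT_sort.pairwise
  have hmem : ∀ i, e i ∈ l := fun i => by
    rw [hl, Finset.mem_sort]
    exact Finset.mem_image_of_mem _ (Finset.mem_univ i)
  have h2 : ∀ i, ∃ b, seqOf (fun a => (M.x a).d) l b = (M.x (e i)).d := fun i => by
    obtain ⟨b, -, hb⟩ := seqOf_mem (d := fun a => (M.x a).d) l (e i) (hmem i)
    exact ⟨b, hb⟩
  choose b hb using h2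
  have h3 := M.nd (γz (a, b)) l hlp
  have h4 : M.R.f (γz (a, b)) (seqOf (fun a => (M.x a).d) l) = f F := by
    show (M.ef (γz (a, b))).1 _ = _
    rw [hγz]
    show f _ = f F
    congr 1
    funext i
    rw [hb i, hae i]
  rw [h4] at h3
  apply (h3.and_eventually (hg (a, b) (mem_univ _))).mono
  rintro n ⟨h5, h6⟩
  exact h5.trans h6

theorem exists_fin_bound {α : Type*} {S : Set α} (hS : S.Finite) (φ : α → ℕ) :
    ∃ m, ∀ s ∈ S, φ s < m := by
  obtain ⟨b, hb⟩ := (hS.image φ).bddAbove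
  exact ⟨b + 1, fun s hs => Nat.lt_succ_of_le (hb (mem_image_of_mem φ hs))⟩

/-- Cylinder neighbourhoods of a set. -/
def cyl (m : ℕ) (S : Set (Pt al)) : Set (Pt al) := {y | ∃ u ∈ S, ∀ i < m, y i = u i}

theorem det_cyl (m : ℕ) (S : Set (Pt al)) : Det m (cyl m S) := by
  rintro x y hxy ⟨u, hu, h⟩
  exact ⟨u, hu, fun i hi => (hxy i hi).symm.trans (h i hi)⟩

/-- The combined sets. -/
def cmb (a b : ℕ) (V W : Set (Pt al)) : Set (ℕ × Pt al) :=
  {z | (z.1 = a → z.2 ∈ V) ∧ (z.1 = b → z.2 ∈ W)}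

theorem measurable_cmb (a b : ℕ) {V W : Set (Pt al)} (hV : MeasurableSet V)
    (hW : MeasurableSet W) : MeasurableSet (cmb a b V W) := by
  have : cmb a b V W = (((fun z : ℕ × Pt al => z.1) ⁻¹' {a})ᶜ ∪ (fun z => z.2) ⁻¹' V) ∩
      (((fun z : ℕ × Pt al => z.1) ⁻¹' {b})ᶜ ∪ (fun z => z.2) ⁻¹' W) := by
    ext z
    simp only [cmb, mem_ofPred_eq, mem_inter_iff, mem_union, mem_compl_iff, mem_preimage,
      mem_singleton_iff]
    tauto
  rw [this]
  exact ((measurable_fst (measurableSet_singleton a)).compl.union (measurable_snd hV)).inter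
    ((measurable_fst (measurableSet_singleton b)).compl.union (measurable_snd hW))

theorem not_P6 {A : Set (ℕ × Pt al)} (h0 : ∀ γ, (0, M.px γ) ∈ A) (h1 : ∀ γ, (1, M.py γ) ∈ A)
    (h0' : ∀ y, (0, y) ∈ A → ∃ γ, y = M.px γ) (h1' : ∀ y, (1, y) ∈ A → ∃ γ, y = M.py γ) :
    ¬ P A 6 := by
  classical
  intro hP
  obtain ⟨W, hW, hcov⟩ := use6 hP (fun n => {V | ∃ V0 ∈ Cy, ∃ V1 ∈ Cy, V = cmb 0 1 V0 V1 ∧
      (∀ p, mu {t | app p xz ∈ V0 ∧ app p (ww t) ∈ V1} ≤ (2 : ℝ≥0∞)⁻¹ ^ n) ∧ ¬ A ⊆ V}) (by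
      intro n
      apply ((countable_Cy.prod countable_Cy).image fun z => cmb 0 1 z.1 z.2).mono
      rintro V ⟨V0, hV0, V1, hV1, rfl, -⟩
      exact ⟨(V0, V1), ⟨hV0, hV1⟩, rfl⟩) (by
      rintro n V ⟨V0, hV0, V1, hV1, rfl, -⟩
      exact measurable_cmb 0 1 (measurable_Cy hV0) (measurable_Cy hV1)) (by
      rintro n V ⟨V0, hV0, V1, hV1, rfl, -, h⟩
      exact h) (by
      intro n F hFA hF
      set F0 : Set (Pt al) := (fun y => (0, y)) ⁻¹' F with hF0
      set F1 : Set (Pt al) := (fun y => (1, y)) ⁻¹' F with hF1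
      have hF0f : F0.Finite := hF.preimage (fun a _ b _ h => (Prod.mk.inj h).2)
      have hF1f : F1.Finite := hF.preimage (fun a _ b _ h => (Prod.mk.inj h).2)
      set c := hF1f.toFinset.card with hc
      set K := n + c with hK
      have hdiff : ∀ u v, ∃ i, u ∈ F0 → v ∈ F1 → i ≥ K ∧ u i ≠ v i := by
        intro u v
        by_cases h : u ∈ F0 ∧ v ∈ F1
        · obtain ⟨γ, hγ⟩ := h0' u (hFA h.1)
          obtain ⟨γ', hγ'⟩ := h1' v (hFA h.2)
          obtain ⟨i, hi, hne⟩ := exists_ge_of_infinite (M.diff_xy γ γ') K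
          exact ⟨i, fun _ _ => ⟨hi, by rw [hγ, hγ']; exact hne⟩⟩
        · exact ⟨0, fun h2 h3 => absurd ⟨h2, h3⟩ h⟩
      choose ix hix using hdiff
      obtain ⟨m1, hm1⟩ := exists_fin_bound (hF0f.prod hF1f) (fun z => ix z.1 z.2)
      obtain ⟨γ, hγ⟩ := M.exists_px_notMem hF0f
      have hdiff2 : ∀ u, ∃ j, u ∈ F0 → M.px γ j ≠ u j := by
        intro u
        by_cases h : u ∈ F0
        · have : M.px γ ≠ u := fun h2 => hγ (h2 ▸ h)
          obtain ⟨j, hj⟩ := Function.ne_iff.1 this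
          exact ⟨j, fun _ => hj⟩
        · exact ⟨0, fun h2 => absurd h2 h⟩
      choose jx hjx using hdiff2
      obtain ⟨m2, hm2⟩ := exists_fin_bound hF0f jx
      set m := max m1 m2 with hm
      refine ⟨cmb 0 1 (cyl m F0) (cyl m F1), ⟨cyl m F0, ⟨m, det_cyl m F0⟩, cyl m F1,
        ⟨m, det_cyl m F1⟩, rfl, ?_, ?_⟩, ?_⟩
      · intro p
        by_cases hp : app p xz ∈ cyl m F0
        · obtain ⟨u, hu, hpu⟩ := hp
          have hsub : {t | app p xz ∈ cyl m F0 ∧ app p (ww t) ∈ cyl m F1} ⊆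
              ⋃ v ∈ hF1f.toFinset, {t | ww t (ix u v) = v (ix u v)} := by
            rintro t ⟨-, v, hv, htv⟩
            simp only [mem_iUnion]
            refine ⟨v, hF1f.mem_toFinset.2 hv, ?_⟩
            have hlt : ix u v < m := lt_of_lt_of_le (hm1 (u, v) ⟨hu, hv⟩) (le_max_left _ _)
            have e1 := hpu _ hlt
            have e2 := htv _ hlt
            have e3 := (hix u v hu hv).2
            have hfree : (p (ix u v)).1 = true := by
              by_contra hf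
              have hf' : (p (ix u v)).1 = false := by simpa using hf
              rw [app_not hf'] at e1 e2
              exact e3 (e1.symm.trans e2)
            rw [app_free hfree] at e2
            exact e2
          calc mu {t | app p xz ∈ cyl m F0 ∧ app p (ww t) ∈ cyl m F1}
              ≤ mu (⋃ v ∈ hF1f.toFinset, {t | ww t (ix u v) = v (ix u v)}) := measure_mono hsub
            _ ≤ ∑ v ∈ hF1f.toFinset, mu {t | ww t (ix u v) = v (ix u v)} :=
                measure_biUnion_finset_le _ _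
            _ ≤ ∑ v ∈ hF1f.toFinset, (2 : ℝ≥0∞)⁻¹ ^ K := by
                apply Finset.sum_le_sum
                intro v hv
                refine (ww_small _ _).trans ?_
                apply pow_le_pow_right_of_le_one' (by simp)
                have := (hix u v hu (hF1f.mem_toFinset.1 hv)).1
                omega
            _ = c * (2 : ℝ≥0∞)⁻¹ ^ K := by rw [Finset.sum_const, nsmul_eq_mul]
            _ ≤ 2 ^ c * (2 : ℝ≥0∞)⁻¹ ^ K := by
                gcongr
                exact_mod_cast (Nat.lt_two_pow_self (n := c)).le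
            _ = (2 : ℝ≥0∞)⁻¹ ^ n := by
                rw [hK, pow_add, mul_comm ((2 : ℝ≥0∞)⁻¹ ^ n), ← mul_assoc, ← mul_pow,
                  ENNReal.mul_inv_cancel (by simp) (by simp), one_pow, one_mul]
        · have : {t | app p xz ∈ cyl m F0 ∧ app p (ww t) ∈ cyl m F1} = ∅ := by
            ext t; simp [hp]
          rw [this]; simp
      · intro hsub
        have := (hsub (h0 γ)).1 rfl
        obtain ⟨u, hu, h2⟩ := this
        exact hjx u hu (h2 (jx u) (lt_of_lt_of_le (hm2 u hu) (le_max_right _ _)))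
      · rintro ⟨a, y⟩ hay
        refine ⟨fun h => ?_, fun h => ?_⟩
        · simp only at h
          subst h
          exact ⟨y, hay, fun _ _ => rfl⟩
        · simp only at h
          subst h
          exact ⟨y, hay, fun _ _ => rfl⟩)
  choose V0 hV0 V1 hV1 hWV hsm hnA using hW
  obtain ⟨γ, hγ⟩ := M.sh (fun n => (⟨V0 n, hV0 n⟩, ⟨V1 n, hV1 n⟩))
  have h2 := ((M.hG γ).ht γ le_rfl).1.2
  have h3 : ∀ᶠ n in atTop, ¬ (M.px γ ∈ V0 n ∧ M.py γ ∈ V1 n) := by
    have h4 : (∀ n, mu {t | app (M.x γ).p xz ∈ (M.eh γ n).1.1 ∧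
      app (M.x γ).p (ww t) ∈ (M.eh γ n).2.1} ≤ (2 : ℝ≥0∞)⁻¹ ^ n) →
        ∀ᶠ n in atTop, ¬ (app (M.x γ).p xz ∈ (M.eh γ n).1.1 ∧
          app (M.x γ).p (ww (M.x γ).t) ∈ (M.eh γ n).2.1) := h2
    rw [hγ] at h4
    exact h4 fun n => hsm n _
  obtain ⟨N, hN⟩ := eventually_atTop.1 h3
  have h5 : ∀ n, ∃ a, a ∈ A ∧ a ∉ W n := fun n => not_subset.1 (hnA n)
  choose a ha1 ha2 using h5
  set F : Set (ℕ × Pt al) := {(0, M.px γ), (1, M.py γ)} ∪ a '' Iio N with hF
  obtain ⟨n, hn⟩ := hcov F (by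
    rintro z (hz | ⟨n, _, rfl⟩)
    · rcases hz with rfl | hz
      · exact h0 γ
      · rw [mem_singleton_iff.1 hz]; exact h1 γ
    · exact ha1 n) ((Set.toFinite _).union ((finite_Iio N).image a))
  by_cases hnN : n < N
  · exact ha2 n (hn (mem_union_right _ ⟨n, hnN, rfl⟩))
  · apply hN n (not_lt.1 hnN)
    have e1 : (0, M.px γ) ∈ W n := hn (mem_union_left _ (by simp))
    have e2 : (1, M.py γ) ∈ W n := hn (mem_union_left _ (by simp))
    rw [hWV n] at e1 e2
    exact ⟨e1.1 rfl, e2.2 rfl⟩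

open Classical in
theorem not_P4 {A : Set (ℕ × Pt al)} (h0 : ∀ γ, (0, M.px γ) ∈ A) (h2 : ∀ γ, (2, M.pz γ) ∈ A)
    (h0' : ∀ y, (0, y) ∈ A → ∃ γ, y = M.px γ) (h2' : ∀ y, (2, y) ∈ A → ∃ γ, y = M.pz γ) :
    ¬ P A 4 := by
  intro hP
  obtain ⟨W, hW, hcov⟩ := use4 hP (fun n => {V | ∃ m V0 V1, Det m V0 ∧ Det m V1 ∧
      V = cmb 0 2 V0 V1 ∧ (∀ u ∈ V0, ∀ v ∈ V1,
        n < ((Finset.range m).filter fun i => v i ≠ u i).card) ∧ ¬ A ⊆ V}) (by
      intro n
      apply ((countable_Cy.prod countable_Cy).image fun z => cmb 0 2 z.1 z.2).mono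
      rintro V ⟨m, V0, V1, hV0, hV1, rfl, -⟩
      exact ⟨(V0, V1), ⟨⟨m, hV0⟩, ⟨m, hV1⟩⟩, rfl⟩) (by
      rintro n V ⟨m, V0, V1, hV0, hV1, rfl, -⟩
      exact measurable_cmb 0 2 (measurable_Cy ⟨m, hV0⟩) (measurable_Cy ⟨m, hV1⟩)) (by
      rintro n V ⟨m, V0, V1, hV0, hV1, rfl, -, h⟩
      exact h) (by
      intro n F hFA hF
      set F0 : Set (Pt al) := (fun y => (0, y)) ⁻¹' F with hF0
      set F1 : Set (Pt al) := (fun y => (2, y)) ⁻¹' F with hF1
      have hF0f : F0.Finite := hF.preimage (fun a _ b _ h => (Prod.mk.inj h).2)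
      have hF1f : F1.Finite := hF.preimage (fun a _ b _ h => (Prod.mk.inj h).2)
      have hdiff : ∀ z : Pt al × Pt al, ∃ m, z.1 ∈ F0 → z.2 ∈ F1 →
          n < ((Finset.range m).filter fun i => z.2 i ≠ z.1 i).card := by
        rintro ⟨u, v⟩
        by_cases h : u ∈ F0 ∧ v ∈ F1
        · obtain ⟨γ, hγ⟩ := h0' u (hFA h.1)
          obtain ⟨γ', hγ'⟩ := h2' v (hFA h.2)
          have hinf : {i | v i ≠ u i}.Infinite := by
            rw [hγ, hγ']; exact infinite_symm (M.diff_xz γ γ')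
          obtain ⟨s, hs, hsc⟩ := hinf.exists_subset_card_eq (n + 1)
          refine ⟨s.sup id + 1, fun _ _ => ?_⟩
          have : s ⊆ (Finset.range (s.sup id + 1)).filter fun i => v i ≠ u i := by
            intro i hi
            rw [Finset.mem_filter, Finset.mem_range]
            exact ⟨Nat.lt_succ_of_le (Finset.le_sup (f := id) hi), hs hi⟩
          have h9 := Finset.card_le_card this
          show n < ((Finset.range (s.sup id + 1)).filter fun i => v i ≠ u i).card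
          omega
        · exact ⟨0, fun h2 h3 => absurd ⟨h2, h3⟩ h⟩
      choose mx hmx using hdiff
      obtain ⟨m1, hm1⟩ := exists_fin_bound (hF0f.prod hF1f) mx
      obtain ⟨γ, hγ⟩ := M.exists_px_notMem hF0f
      have hdiff2 : ∀ u, ∃ j, u ∈ F0 → M.px γ j ≠ u j := by
        intro u
        by_cases h : u ∈ F0
        · have : M.px γ ≠ u := fun h2 => hγ (h2 ▸ h)
          obtain ⟨j, hj⟩ := Function.ne_iff.1 this
          exact ⟨j, fun _ => hj⟩
        · exact ⟨0, fun h2 => absurd h2 h⟩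
      choose jx hjx using hdiff2
      obtain ⟨m2, hm2⟩ := exists_fin_bound hF0f jx
      set m := max m1 m2 with hm
      refine ⟨cmb 0 2 (cyl m F0) (cyl m F1), ⟨m, cyl m F0, cyl m F1, det_cyl m F0, det_cyl m F1,
        rfl, ?_, ?_⟩, ?_⟩
      · rintro u ⟨u', hu', hu⟩ v ⟨v', hv', hv⟩
        have h3 := hmx (u', v') hu' hv'
        have hlt : mx (u', v') < m := lt_of_lt_of_le (hm1 (u', v') ⟨hu', hv'⟩) (le_max_left _ _)
        refine lt_of_lt_of_le h3 (Finset.card_le_card ?_)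
        intro i hi
        rw [Finset.mem_filter, Finset.mem_range] at hi ⊢
        have him : i < m := hi.1.trans hlt
        exact ⟨him, by rw [hu i him, hv i him]; exact hi.2⟩
      · intro hsub
        have := (hsub (h0 γ)).1 rfl
        obtain ⟨u, hu, h2⟩ := this
        exact hjx u hu (h2 (jx u) (lt_of_lt_of_le (hm2 u hu) (le_max_right _ _)))
      · rintro ⟨a, y⟩ hay
        refine ⟨fun h => ?_, fun h => ?_⟩
        · simp only at h
          subst h
          exact ⟨y, hay, fun _ _ => rfl⟩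
        · simp only at h
          subst h
          exact ⟨y, hay, fun _ _ => rfl⟩)
  have hmV : ∀ n V, ∃ m : ℕ, V ∈ W n → ∃ V0 V1, V = cmb 0 2 V0 V1 ∧ ∀ u ∈ V0, ∀ v ∈ V1,
      n < ((Finset.range m).filter fun i => v i ≠ u i).card := by
    intro n V
    by_cases hn : V ∈ W n
    · obtain ⟨m, V0, V1, hV0, hV1, hV, h, -⟩ := (hW n).2 hn
      exact ⟨m, fun _ => ⟨V0, V1, hV, h⟩⟩
    · exact ⟨0, fun h => absurd h hn⟩
  choose mV hmV using hmV
  have hr : ∀ n, ∃ r, ∀ V ∈ W n, mV n V < r := fun n => exists_fin_bound (hW n).1 (mV n)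
  choose r hr using hr
  obtain ⟨γ, hγ⟩ := M.sr r
  obtain ⟨n, V, hV, hFV⟩ := hcov {(0, M.px γ), (2, M.pz γ)} (by
    rintro z (rfl | hz)
    · exact h0 γ
    · rw [mem_singleton_iff.1 hz]; exact h2 γ) (Set.toFinite _)
  obtain ⟨V0, V1, hVV, hcard⟩ := hmV n V hV
  have e1 : (0, M.px γ) ∈ V := hFV (by simp)
  have e2 : (2, M.pz γ) ∈ V := hFV (by simp)
  rw [hVV] at e1 e2
  have h3 : n < ((Finset.range (mV n V)).filter fun i => M.pz γ i ≠ M.px γ i).card :=
    hcard _ (e1.1 rfl) _ (e2.2 rfl)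
  have h4 : ((Finset.range (M.er γ n)).filter fun i => M.pz γ i ≠ M.px γ i).card ≤ n :=
    (M.hG γ).hz.2.2 n
  rw [hγ] at h4
  have h5 : ((Finset.range (mV n V)).filter fun i => M.pz γ i ≠ M.px γ i).card ≤
      ((Finset.range (r n)).filter fun i => M.pz γ i ≠ M.px γ i).card := by
    apply Finset.card_le_card
    intro i hi
    rw [Finset.mem_filter, Finset.mem_range] at hi ⊢
    exact ⟨hi.1.trans (hr n V hV), hi.2⟩
  omega

end Model

end Pool.Agent.H39.BSel
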