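import Pool.Agent.H39.BSel.Neg

set_option autoImplicit false
set_option linter.unusedSectionVars false

/-!
The five settings.
-/

namespace Pool.Agent.H39.BSel

open Topology Filter Set MeasureTheory Function
open scoped ENNReal Cardinal

theorem Bdd.mono {E : Type} [MeasurableSpace E] {A B : Set E} (hAB : A ⊆ B) (h : Bdd B) : Bdd A :=
  fun f hf => by
    obtain ⟨g, hg⟩ := h f hf
    exact ⟨g, fun x hx => hg x (hAB hx)⟩

theorem Ie.mono {E : Type} [MeasurableSpace E] {A B : Set E} (hAB : A ⊆ B) (h : Ie B) : Ie A :=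
  fun f hf => by
    obtain ⟨g, hg⟩ := h f hf
    exact ⟨g, fun x hx => hg x (hAB hx)⟩

instance (i : ℕ) : DiscreteMeasurableSpace (al i) := ⟨fun _ => trivial⟩

theorem exists_transfer (A : Set (ℕ × Pt al)) : ∃ X : Set ℝ, ∀ i, P X i ↔ P A i := by
  have h1 : StandardBorelSpace (Pt al) := inferInstanceAs (StandardBorelSpace (∀ i, al i))
  obtain ⟨f, hf⟩ := MeasureTheory.exists_measurableEmbedding_real (ℕ × Pt al)
  refine ⟨f '' A, fun i => ⟨P.map (hf.equivImage A).symm i, P.map (hf.equivImage A) i⟩⟩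

/-- The specification of a setting, for a measurable space. -/
def Rz (T : Type) [MeasurableSpace T] (s : Set ℕ) : Prop := ∀ i, 1 ≤ i → i ≤ 7 → (P T i ↔ i ∈ s)

theorem Rz.realizes {A : Set (ℕ × Pt al)} {s : Set ℕ} (h : Rz A s) :
    ∃ X : Set ℝ, Realizes X s := by
  obtain ⟨X, hX⟩ := exists_transfer A
  exact ⟨X, fun i h1 h2 => (hX i).trans (h i h1 h2)⟩

namespace Model

variable {I : Type} [LinearOrder I] [WellFoundedLT I] (M : Model I)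

include M

theorem infinite_Ax : M.Ax.Infinite := by
  have h1 : Infinite I := by
    by_contra h
    rw [not_infinite_iff_finite] at h
    exact M.unc (Set.toFinite _).countable
  exact Set.infinite_range_of_injective fun a b h => M.px_injective (Prod.mk.inj h).2

theorem nonempty_Ax : M.Ax.Nonempty := M.infinite_Ax.nonempty

theorem real_l : Rz (M.Ax ∪ M.Ay : Set _) {1, 2, 3, 4, 7} := by
  have hne : (M.Ax ∪ M.Ay : Set _).Nonempty := M.nonempty_Ax.mono subset_union_left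
  have hT : Nonempty (M.Ax ∪ M.Ay : Set _) := hne.to_subtype
  have hsub : M.Ax ∪ M.Ay ⊆ M.Tw := union_subset M.Ax_sub M.Ay_sub
  have p1 : P (M.Ax ∪ M.Ay : Set _) 1 := (M.bdd_Tw.mono hsub).P1
  have p2 := P12 p1
  have p3 := P23 hT p2
  have p4 : P (M.Ax ∪ M.Ay : Set _) 4 := (M.pw.mono subset_union_left).P4 hne
  have p7 : P (M.Ax ∪ M.Ay : Set _) 7 := (M.ie_Tw.mono hsub).P7 hne
  have p6 : ¬ P (M.Ax ∪ M.Ay : Set _) 6 := by
    apply M.not_P6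
    · exact fun γ => Or.inl ⟨γ, rfl⟩
    · exact fun γ => Or.inr ⟨γ, rfl⟩
    · rintro y (⟨γ, h⟩ | ⟨γ, h⟩)
      · exact ⟨γ, (Prod.mk.inj h).2.symm⟩
      · exact absurd (Prod.mk.inj h).1 (by norm_num)
    · rintro y (⟨γ, h⟩ | ⟨γ, h⟩)
      · exact absurd (Prod.mk.inj h).1 (by norm_num)
      · exact ⟨γ, (Prod.mk.inj h).2.symm⟩
  have p5 : ¬ P (M.Ax ∪ M.Ay : Set _) 5 := fun h => p6 (P56 h)
  intro i hi1 hi2
  interval_cases i <;> simp [*]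

theorem real_g : Rz (M.Ax ∪ M.Ay ∪ M.Ac : Set _) {2, 3, 4, 7} := by
  have hne : (M.Ax ∪ M.Ay ∪ M.Ac : Set _).Nonempty :=
    M.nonempty_Ax.mono (subset_union_left.trans subset_union_left)
  have hT : Nonempty (M.Ax ∪ M.Ay ∪ M.Ac : Set _) := hne.to_subtype
  have hsub : M.Ax ∪ M.Ay ⊆ M.Tw := union_subset M.Ax_sub M.Ay_sub
  have p4 : P (M.Ax ∪ M.Ay ∪ M.Ac : Set _) 4 := M.pw.P4 hne
  have p2 := P42 p4
  have p3 := P23 hT p2
  have p7 : P (M.Ax ∪ M.Ay ∪ M.Ac : Set _) 7 := ((M.ie_Tw.mono hsub).union M.ie_Ac).P7 hne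
  have p6 : ¬ P (M.Ax ∪ M.Ay ∪ M.Ac : Set _) 6 := by
    apply M.not_P6
    · exact fun γ => Or.inl (Or.inl ⟨γ, rfl⟩)
    · exact fun γ => Or.inl (Or.inr ⟨γ, rfl⟩)
    · rintro y ((⟨γ, h⟩ | ⟨γ, h⟩) | ⟨γ, h⟩)
      · exact ⟨γ, (Prod.mk.inj h).2.symm⟩
      · exact absurd (Prod.mk.inj h).1 (by norm_num)
      · exact absurd (Prod.mk.inj h).1 (by norm_num)
    · rintro y ((⟨γ, h⟩ | ⟨γ, h⟩) | ⟨γ, h⟩)
      · exact absurd (Prod.mk.inj h).1 (by norm_num)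
      · exact ⟨γ, (Prod.mk.inj h).2.symm⟩
      · exact absurd (Prod.mk.inj h).1 (by norm_num)
  have p5 : ¬ P (M.Ax ∪ M.Ay ∪ M.Ac : Set _) 5 := fun h => p6 (P56 h)
  have p1 : ¬ P (M.Ax ∪ M.Ay ∪ M.Ac : Set _) 1 :=
    M.not_P1 (M.infinite_Ax.mono (subset_union_left.trans subset_union_left))
      fun γ => Or.inr ⟨γ, rfl⟩
  intro i hi1 hi2
  interval_cases i <;> simp [*]

theorem real_j : Rz (M.Ax ∪ M.Az : Set _) {1, 2, 3, 7} := by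
  have hne : (M.Ax ∪ M.Az : Set _).Nonempty := M.nonempty_Ax.mono subset_union_left
  have hT : Nonempty (M.Ax ∪ M.Az : Set _) := hne.to_subtype
  have hsub : M.Ax ∪ M.Az ⊆ M.Tw := union_subset M.Ax_sub M.Az_sub
  have p1 : P (M.Ax ∪ M.Az : Set _) 1 := (M.bdd_Tw.mono hsub).P1
  have p2 := P12 p1
  have p3 := P23 hT p2
  have p7 : P (M.Ax ∪ M.Az : Set _) 7 := (M.ie_Tw.mono hsub).P7 hne
  have p4 : ¬ P (M.Ax ∪ M.Az : Set _) 4 := by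
    apply M.not_P4
    · exact fun γ => Or.inl ⟨γ, rfl⟩
    · exact fun γ => Or.inr ⟨γ, rfl⟩
    · rintro y (⟨γ, h⟩ | ⟨γ, h⟩)
      · exact ⟨γ, (Prod.mk.inj h).2.symm⟩
      · exact absurd (Prod.mk.inj h).1 (by norm_num)
    · rintro y (⟨γ, h⟩ | ⟨γ, h⟩)
      · exact absurd (Prod.mk.inj h).1 (by norm_num)
      · exact ⟨γ, (Prod.mk.inj h).2.symm⟩
  have p6 : ¬ P (M.Ax ∪ M.Az : Set _) 6 := fun h => p4 (P64 h)
  have p5 : ¬ P (M.Ax ∪ M.Az : Set _) 5 := fun h => p6 (P56 h)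
  intro i hi1 hi2
  interval_cases i <;> simp [*]

theorem real_e : Rz (M.Ax ∪ M.Az ∪ M.Ac : Set _) {2, 3, 7} := by
  have hne : (M.Ax ∪ M.Az ∪ M.Ac : Set _).Nonempty :=
    M.nonempty_Ax.mono (subset_union_left.trans subset_union_left)
  have hT : Nonempty (M.Ax ∪ M.Az ∪ M.Ac : Set _) := hne.to_subtype
  have hsub : M.Ax ∪ M.Az ⊆ M.Tw := union_subset M.Ax_sub M.Az_sub
  have hc : Fi M.Ac := (M.pw.mono subset_union_right).fi
  have p2 : P (M.Ax ∪ M.Az ∪ M.Ac : Set _) 2 := ((M.bdd_Tw.mono hsub).union_fi hc).P2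
  have p3 := P23 hT p2
  have p7 : P (M.Ax ∪ M.Az ∪ M.Ac : Set _) 7 := ((M.ie_Tw.mono hsub).union M.ie_Ac).P7 hne
  have p4 : ¬ P (M.Ax ∪ M.Az ∪ M.Ac : Set _) 4 := by
    apply M.not_P4
    · exact fun γ => Or.inl (Or.inl ⟨γ, rfl⟩)
    · exact fun γ => Or.inl (Or.inr ⟨γ, rfl⟩)
    · rintro y ((⟨γ, h⟩ | ⟨γ, h⟩) | ⟨γ, h⟩)
      · exact ⟨γ, (Prod.mk.inj h).2.symm⟩
      · exact absurd (Prod.mk.inj h).1 (by norm_num)
      · exact absurd (Prod.mk.inj h).1 (by norm_num)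
    · rintro y ((⟨γ, h⟩ | ⟨γ, h⟩) | ⟨γ, h⟩)
      · exact absurd (Prod.mk.inj h).1 (by norm_num)
      · exact ⟨γ, (Prod.mk.inj h).2.symm⟩
      · exact absurd (Prod.mk.inj h).1 (by norm_num)
  have p6 : ¬ P (M.Ax ∪ M.Az ∪ M.Ac : Set _) 6 := fun h => p4 (P64 h)
  have p5 : ¬ P (M.Ax ∪ M.Az ∪ M.Ac : Set _) 5 := fun h => p6 (P56 h)
  have p1 : ¬ P (M.Ax ∪ M.Az ∪ M.Ac : Set _) 1 :=
    M.not_P1 (M.infinite_Ax.mono (subset_union_left.trans subset_union_left))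
      fun γ => Or.inr ⟨γ, rfl⟩
  intro i hi1 hi2
  interval_cases i <;> simp [*]

theorem real_d : Rz (M.Ax ∪ M.Az ∪ M.As ∪ M.Ac : Set _) {2, 3} := by
  have hAx : M.Ax ⊆ M.Ax ∪ M.Az ∪ M.As ∪ M.Ac := fun x hx => Or.inl (Or.inl (Or.inl hx))
  have hne : (M.Ax ∪ M.Az ∪ M.As ∪ M.Ac : Set _).Nonempty := M.nonempty_Ax.mono hAx
  have hT : Nonempty (M.Ax ∪ M.Az ∪ M.As ∪ M.Ac : Set _) := hne.to_subtype
  have hsub : M.Ax ∪ M.Az ⊆ M.Tw := union_subset M.Ax_sub M.Az_sub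
  have hc : Fi M.Ac := (M.pw.mono subset_union_right).fi
  have p2 : P (M.Ax ∪ M.Az ∪ M.As ∪ M.Ac : Set _) 2 :=
    (((M.bdd_Tw.mono hsub).union M.bdd_As).union_fi hc).P2
  have p3 := P23 hT p2
  have p4 : ¬ P (M.Ax ∪ M.Az ∪ M.As ∪ M.Ac : Set _) 4 := by
    apply M.not_P4
    · exact fun γ => Or.inl (Or.inl (Or.inl ⟨γ, rfl⟩))
    · exact fun γ => Or.inl (Or.inl (Or.inr ⟨γ, rfl⟩))
    · rintro y (((⟨γ, h⟩ | ⟨γ, h⟩) | ⟨γ, h⟩) | ⟨γ, h⟩)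
      · exact ⟨γ, (Prod.mk.inj h).2.symm⟩
      · exact absurd (Prod.mk.inj h).1 (by norm_num)
      · exact absurd (Prod.mk.inj h).1 (by norm_num)
      · exact absurd (Prod.mk.inj h).1 (by norm_num)
    · rintro y (((⟨γ, h⟩ | ⟨γ, h⟩) | ⟨γ, h⟩) | ⟨γ, h⟩)
      · exact absurd (Prod.mk.inj h).1 (by norm_num)
      · exact ⟨γ, (Prod.mk.inj h).2.symm⟩
      · exact absurd (Prod.mk.inj h).1 (by norm_num)
      · exact absurd (Prod.mk.inj h).1 (by norm_num)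
  have p6 : ¬ P (M.Ax ∪ M.Az ∪ M.As ∪ M.Ac : Set _) 6 := fun h => p4 (P64 h)
  have p5 : ¬ P (M.Ax ∪ M.Az ∪ M.As ∪ M.Ac : Set _) 5 := fun h => p6 (P56 h)
  have p1 : ¬ P (M.Ax ∪ M.Az ∪ M.As ∪ M.Ac : Set _) 1 :=
    M.not_P1 (M.infinite_Ax.mono hAx) fun γ => Or.inr ⟨γ, rfl⟩
  have p7 : ¬ P (M.Ax ∪ M.Az ∪ M.As ∪ M.Ac : Set _) 7 :=
    M.not_P7 fun γ => Or.inl (Or.inr ⟨γ, rfl⟩)
  intro i hi1 hi2
  interval_cases i <;> simp [*]

end Model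

/-- Under CH all five settings are realized. -/
theorem main (CH : Cardinal.continuum.{0} = Cardinal.aleph 1) :
    (∃ X : Set ℝ, Realizes X {2, 3}) ∧ (∃ X : Set ℝ, Realizes X {2, 3, 7}) ∧
      (∃ X : Set ℝ, Realizes X {2, 3, 4, 7}) ∧ (∃ X : Set ℝ, Realizes X {1, 2, 3, 7}) ∧
      (∃ X : Set ℝ, Realizes X {1, 2, 3, 4, 7}) := by
  obtain ⟨I, _, _, ⟨M⟩⟩ := exists_model CH
  exact ⟨M.real_d.realizes, M.real_e.realizes, M.real_g.realizes, M.real_j.realizes,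
    M.real_l.realizes⟩

end Pool.Agent.H39.BSel
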