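import Pool.Agent.H39.BSel.Cond

set_option autoImplicit false
set_option linter.unusedSectionVars false

/-!
The gluing lemma for decreasing sequences of conditions.
-/

namespace Pool.Agent.H39.BSel

open Topology Filter Set MeasureTheory

variable {β : ℕ → Type} [∀ i, TopologicalSpace (β i)] [∀ i, DiscreteTopology (β i)]
  [∀ i, Finite (β i)] [∀ i, Nonempty (β i)]

/-- One step of the gluing construction. -/
theorem glue_step (p : ℕ → Cd β) (hp : ∀ n, AE (p (n + 1)) (p n)) (hfree : ∀ n, IsFree (p n))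
    (U T : ℕ → Set (Cd β)) (n₀ : ℕ → ℕ) (hT : ∀ k, ∀ n ≥ n₀ k, ∀ q, EqF q (p n) → q ∈ T k)
    (hU : ∀ k, ∀ q ∈ T k, ∃ m, ∀ q', (∀ i < m, q' i = q i) → Ext m q' q → q' ∈ U k)
    (n : ℕ) (q : Cd β) (m : ℕ) (hq : EqF q (p n)) :
    ∃ q' : Cd β, ∃ m' : ℕ, m < m' ∧ EqF q' (p (n + 1)) ∧ (∀ i < m', q' i = q i) ∧ Ext 0 q' q ∧
      (∃ i, m ≤ i ∧ i < m' ∧ (q i).1 = true) ∧
      (∀ k ≤ n, n₀ k ≤ n → ∀ q'', (∀ i < m', q'' i = q i) → Ext m' q'' q → q'' ∈ U k) := by
  classical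
  obtain ⟨m1, hm1⟩ := hq
  obtain ⟨m2, hm2⟩ := hp n
  obtain ⟨i0, hi0, hi0'⟩ := hfree n (max m m1)
  have h3 : ∀ k, ∃ m3, k ≤ n → n₀ k ≤ n → ∀ q'', (∀ i < m3, q'' i = q i) → Ext m3 q'' q →
      q'' ∈ U k := by
    intro k
    by_cases h : k ≤ n ∧ n₀ k ≤ n
    · obtain ⟨m3, hm3⟩ := hU k q (hT k n h.2 q ⟨m1, hm1⟩)
      exact ⟨m3, fun _ _ => hm3⟩
    · exact ⟨0, fun h1 h2 => absurd ⟨h1, h2⟩ h⟩
  choose m3 hm3 using h3
  set m' := max (max (m + 1) (max m1 m2)) (max (i0 + 1) ((Finset.range (n + 1)).sup m3)) with hm'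
  refine ⟨splice m' q (p (n + 1)), m', by omega, eqF_splice _ _ _, fun i hi => splice_lt hi _ _,
    ?_, ⟨i0, by omega, by omega, ?_⟩, ?_⟩
  · intro i _ hi
    by_cases h : i < m'
    · rw [splice_lt h]
    · rw [splice_ge (not_lt.1 h)]
      have h1 : q i = p n i := hm1 i (by omega)
      rw [h1]
      exact hm2 i (by omega) (by rw [← h1]; exact hi)
  · rw [hm1 i0 (by omega)]; exact hi0'
  · intro k hk hk' q'' h1 h2
    have hle : m3 k ≤ m' := by
      have : m3 k ≤ (Finset.range (n + 1)).sup m3 :=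
        Finset.le_sup (f := m3) (Finset.mem_range.2 (Nat.lt_succ_of_le hk))
      omega
    apply hm3 k hk hk' q'' (fun i hi => h1 i (by omega))
    intro i hi hqi
    by_cases h : i < m'
    · exact h1 i h
    · exact h2 i (not_lt.1 h) hqi

theorem glue_aux (p : ℕ → Cd β) (hp : ∀ n, AE (p (n + 1)) (p n)) (hfree : ∀ n, IsFree (p n))
    (U T : ℕ → Set (Cd β)) (n₀ : ℕ → ℕ) (hT : ∀ k, ∀ n ≥ n₀ k, ∀ q, EqF q (p n) → q ∈ T k)
    (hU : ∀ k, ∀ q ∈ T k, ∃ m, ∀ q', (∀ i < m, q' i = q i) → Ext m q' q → q' ∈ U k) :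
    ∃ q : Cd β, IsFree q ∧ (∀ n, AE q (p n)) ∧ ∀ k, q ∈ U k := by
  choose! Q M h1 h2 h3 h4 h5 h6 using glue_step p hp hfree U T n₀ hT hU
  -- the sequence
  let s : ℕ → Cd β × ℕ := fun n => Nat.rec (p 0, 0) (fun n z => (Q n z.1 z.2, M n z.1 z.2)) n
  have hs : ∀ n, s (n + 1) = (Q n (s n).1 (s n).2, M n (s n).1 (s n).2) := fun n => rfl
  have hE : ∀ n, EqF (s n).1 (p n) := by
    intro n
    induction n with
    | zero => exact EqF.refl _
    | succ n ih => rw [hs]; exact h2 n _ _ ih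
  have g1 : ∀ n, (s n).2 < (s (n + 1)).2 := fun n => by
    rw [hs]; exact h1 n _ _ (hE n)
  have g3 : ∀ n, ∀ i < (s (n + 1)).2, (s (n + 1)).1 i = (s n).1 i := fun n => by
    rw [hs]; exact h3 n _ _ (hE n)
  have g4 : ∀ n, Ext 0 (s (n + 1)).1 (s n).1 := fun n => by
    rw [hs]; exact h4 n _ _ (hE n)
  have g5 : ∀ n, ∃ i, (s n).2 ≤ i ∧ i < (s (n + 1)).2 ∧ ((s n).1 i).1 = true := fun n => by
    rw [hs]; exact h5 n _ _ (hE n)
  have g6 : ∀ n, ∀ k ≤ n, n₀ k ≤ n → ∀ q'', (∀ i < (s (n + 1)).2, q'' i = (s n).1 i) →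
      Ext (s (n + 1)).2 q'' (s n).1 → q'' ∈ U k := fun n => by
    rw [hs]; exact h6 n _ _ (hE n)
  have hmono : StrictMono (fun n => (s n).2) := strictMono_nat_of_lt_succ g1
  have hge : ∀ n, n ≤ (s n).2 := fun n => hmono.id_le n
  have hagree : ∀ n j, n ≤ j → ∀ i < (s (n + 1)).2, (s j).1 i = (s n).1 i := by
    intro n j hj
    induction j, hj using Nat.le_induction with
    | base => intro i _; rfl
    | succ j hj ih =>
      intro i hi
      rw [g3 j i (lt_of_lt_of_le hi (hmono.monotone (show n + 1 ≤ j + 1 by omega)))]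
      exact ih i hi
  have hext : ∀ n j, n ≤ j → Ext 0 (s j).1 (s n).1 := by
    intro n j hj
    induction j, hj using Nat.le_induction with
    | base => intro i _ _; rfl
    | succ j hj ih => exact (g4 j).trans ih
  set q : Cd β := fun i => (s i).1 i with hq
  have hqs : ∀ n i, i < (s (n + 1)).2 → q i = (s n).1 i := by
    intro n i hi
    rcases le_total n i with h | h
    · exact hagree n i h i hi
    · exact (hagree i n h i (lt_of_lt_of_le (Nat.lt_succ_self i) (hge (i + 1)))).symm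
  have hqe : ∀ n, Ext 0 q (s n).1 := by
    intro n i _ hi
    have := hext n (max n i) (le_max_left _ _) i (Nat.zero_le _) hi
    rw [← this]
    exact hqs (max n i) i (lt_of_lt_of_le (show i < max n i + 1 by omega) (hge (max n i + 1)))
  refine ⟨q, ?_, ?_, ?_⟩
  · intro N
    obtain ⟨i, hi1, hi2, hi3⟩ := g5 N
    exact ⟨i, le_trans (hge N) hi1, by rw [hqs N i hi2]; exact hi3⟩
  · intro n
    exact AE.trans ⟨0, hqe n⟩ (hE n).ae
  · intro k
    set n := max k (n₀ k) with hn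
    apply g6 n k (le_max_left _ _) (le_max_right _ _) q (hqs n)
    exact (hqe n).mono (Nat.zero_le _)

/-- Gluing lemma: a decreasing sequence of conditions has a lower bound in all the stable sets to
which the tails of the sequence belong. -/
theorem glue (p : ℕ → Cd β) (hp : ∀ n, AE (p (n + 1)) (p n)) (hfree : ∀ n, IsFree (p n))
    (𝒯 : Set (Set (Cd β))) (h𝒯c : 𝒯.Countable) (h𝒯s : ∀ T ∈ 𝒯, Stable T)
    (h𝒯 : ∀ T ∈ 𝒯, ∃ n₀, ∀ n ≥ n₀, p n ∈ T) :
    ∃ q : Cd β, IsFree q ∧ (∀ n, AE q (p n)) ∧ ∀ T ∈ 𝒯, q ∈ T := by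
  classical
  choose! L hLc hLs hLU using fun T (hT : T ∈ 𝒯) => (h𝒯s T hT).lim
  choose! n₀ hn₀ using h𝒯
  -- tasks
  set W : Set (Set (Cd β) × Set (Cd β)) := {z | z.1 ∈ 𝒯 ∧ z.2 ∈ L z.1} ∪ {(univ, univ)} with hW
  have hWc : W.Countable := by
    apply Countable.union _ (countable_singleton _)
    have : {z : Set (Cd β) × Set (Cd β) | z.1 ∈ 𝒯 ∧ z.2 ∈ L z.1} ⊆
        ⋃ T ∈ 𝒯, (fun U => (T, U)) '' (L T) := by
      rintro ⟨T, U⟩ ⟨h1, h2⟩
      simp only [mem_iUnion]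
      exact ⟨T, h1, U, h2, rfl⟩
    exact (h𝒯c.biUnion fun T hT => (hLc T hT).image _).mono this
  obtain ⟨e, he⟩ := hWc.exists_eq_range ⟨(univ, univ), mem_union_right _ rfl⟩
  have heW : ∀ k, e k ∈ W := fun k => he ▸ mem_range_self k
  obtain ⟨q, hq1, hq2, hq3⟩ := glue_aux p hp hfree (fun k => (e k).2) (fun k => (e k).1)
    (fun k => if (e k).1 ∈ 𝒯 then n₀ (e k).1 else 0) (by
      intro k n hn q' hq'
      rcases heW k with ⟨h1, h2⟩ | h
      · rw [if_pos h1] at hn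
        exact (h𝒯s _ h1).fin _ (hn₀ _ h1 n hn) q' hq'
      · rw [mem_singleton_iff.1 h]; exact mem_univ _) (by
      intro k q' hq'
      rcases heW k with ⟨h1, h2⟩ | h
      · exact hLU _ h1 q' hq' _ h2
      · rw [mem_singleton_iff.1 h]; exact ⟨0, fun _ _ _ => mem_univ _⟩)
  refine ⟨q, hq1, hq2, fun T hT => hLs T hT (mem_sInter.2 fun U hU => ?_)⟩
  have : (T, U) ∈ W := mem_union_left _ ⟨hT, hU⟩
  rw [he] at this
  obtain ⟨k, hk⟩ := this
  have := hq3 k
  rw [hk] at this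
  exact this

/-- The set of conditions all of whose points differ infinitely often from `y`. -/
def avoidPt (y : Pt β) : Set (Cd β) := {q | ∀ x, PAE x q → {i | x i ≠ y i}.Infinite}

theorem stable_avoidPt (y : Pt β) : Stable (avoidPt y) :=
  Stable.of_upward fun _ hp _ hq x hx => hp x (hx.trans hq)

theorem residual_avoidPt {p : Cd β} (hp : IsFree p) (hβ : ∀ i, Nontrivial (β i)) (y : Pt β) :
    ∀ᶠ r in residual (Cd β), comp p r ∈ avoidPt y := by
  have h1 : ∀ᶠ r in residual (Cd β), ∀ N, ∃ i ≥ N, (p i).1 = true ∧ (r i).1 = false ∧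
      (r i).2 ≠ y i := by
    rw [eventually_countable_forall]
    intro N
    apply residual_of_dense_open (s := {r : Cd β | ∃ i ≥ N, (p i).1 = true ∧ (r i).1 = false ∧
      (r i).2 ≠ y i})
    · apply isOpen_of_cyl
      rintro r ⟨i, hi, h1, h2, h3⟩
      refine ⟨i + 1, fun r' hr' => ⟨i, hi, h1, ?_⟩⟩
      rw [hr' i (Nat.lt_succ_self i)]
      exact ⟨h2, h3⟩
    · rw [dense_iff_inter_open]
      rintro U hU ⟨r, hr⟩
      obtain ⟨n, hn⟩ := exists_cyl hU hr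
      obtain ⟨i, hi, h⟩ := hp (max n N)
      have hex : ∀ j, ∃ b : β j, b ≠ y j := fun j => exists_ne (y j)
      choose b hb using hex
      refine ⟨splice n r (fun j => (false, b j)), hn _ fun j hj => splice_lt hj _ _,
        i, le_trans (le_max_right _ _) hi, h, ?_⟩
      rw [splice_ge (le_trans (le_max_left _ _) hi)]
      exact ⟨rfl, hb i⟩
  filter_upwards [h1] with r hr x hx
  obtain ⟨m, hm⟩ := hx
  rw [Set.infinite_iff_exists_gt]
  intro a
  obtain ⟨i, hi, h1, h2, h3⟩ := hr (max (a + 1) m)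
  refine ⟨i, ?_, by omega⟩
  have h4 : comp p r i = r i := comp_free h1
  have h5 := hm i (by omega) (by rw [h4]; exact h2)
  rw [h4] at h5
  show x i ≠ y i
  rw [h5]
  exact h3

end Pool.Agent.H39.BSel
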