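import Pool.Agent.H39.BSel.Facts

set_option autoImplicit false
set_option linter.unusedSectionVars false

/-!
The remaining negative facts about the sets produced by the recursion.
-/

namespace Pool.Agent.H39.BSel

open Topology Filter Set MeasureTheory Function
open scoped ENNReal Cardinal

theorem residual_of_cyl (Q : ℕ → Pt al → Prop)
    (ho : ∀ N x, Q N x → ∃ n, ∀ y, (∀ i < n, y i = x i) → Q N y)
    (hd : ∀ N m (x : Pt al), ∃ y, (∀ i < m, y i = x i) ∧ Q N y) :
    {y | ∀ N, Q N y} ∈ residual (Pt al) := by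
  have h1 : ∀ N, ∀ᶠ y in residual (Pt al), Q N y := by
    intro N
    apply residual_of_dense_open (s := {y | Q N y})
    · exact isOpen_of_cyl fun x hx => ho N x hx
    · rw [dense_iff_inter_open]
      rintro U hU ⟨x, hx⟩
      obtain ⟨m, hm⟩ := exists_cyl hU hx
      obtain ⟨y, hy1, hy2⟩ := hd N m x
      exact ⟨y, hm y hy1, hy2⟩
  exact eventually_countable_forall.2 h1

/-- A version of `neg1` for arbitrary measurable functions. -/
theorem neg1' {T : Type} [MeasurableSpace T] [MeasurableSingletonClass T] [Infinite T]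
    (h : P T 1) (f : T → ℕ → ℕ) (hf : ∀ n, Measurable (f · n)) :
    ∃ g : ℕ → ℕ, ∀ x, ∀ᶠ n in atTop, f x n ≤ g n := by
  classical
  set e : ℕ → T := fun n => Infinite.natEmbedding T n with he
  have hinj : Injective e := (Infinite.natEmbedding T).injective
  set E : T → ℕ := fun x => sInf {m | e m = x ∨ x ∉ range e} with hE
  have hEm : Measurable E := by
    apply measurable_sInf (D := fun m x => e m = x ∨ x ∉ range e)
    · intro m
      have : {x | e m = x ∨ x ∉ range e} = {e m} ∪ (range e)ᶜ := by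
        ext x
        simp only [mem_ofPred_eq, mem_union, mem_singleton_iff, mem_compl_iff]
        rw [eq_comm]
      rw [this]
      exact (measurableSet_singleton _).union (countable_range e).measurableSet.compl
    · intro x
      by_cases hx : x ∈ range e
      · obtain ⟨m, hm⟩ := hx
        exact ⟨m, Or.inl hm⟩
      · exact ⟨0, Or.inr hx⟩
  have hEe : ∀ n, E (e n) = n := by
    intro n
    have : {m | e m = e n ∨ e n ∉ range e} = {n} := by
      ext m
      simp only [mem_ofPred_eq, mem_singleton_iff, mem_range_self, not_true_eq_false, or_false]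
      exact hinj.eq_iff
    show sInf {m | e m = e n ∨ e n ∉ range e} = n
    rw [this]
    exact csInf_singleton n
  obtain ⟨g, hg⟩ := neg1 h (fun x n => ((Finset.range (n + 1)).sup fun i => f x i) + E x) (by
    intro n
    apply Measurable.add _ hEm
    apply measurable_of_Iic
    intro v
    have : (fun x : T => (Finset.range (n + 1)).sup fun i => f x i) ⁻¹' Iic v =
        ⋂ i ∈ Finset.range (n + 1), {x : T | f x i ≤ v} := by
      ext x; simp
    rw [this]
    exact Finset.measurableSet_biInter _ fun i _ => measurableSet_le (hf i) measurable_const) (by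
    intro x a b hab
    simp only
    apply Nat.add_le_add_right
    exact Finset.sup_mono (Finset.range_subset_range.2 (by omega))) (by
    intro m
    refine ⟨e (m + 1), ?_⟩
    simp only [hEe]
    omega)
  refine ⟨g, fun x => ?_⟩
  filter_upwards [hg x] with n hn
  refine le_trans ?_ hn
  exact (Finset.le_sup (f := fun i => f x i) (Finset.self_mem_range_succ n)).trans
    (Nat.le_add_right _ _)

namespace Model

variable {I : Type} [LinearOrder I] [WellFoundedLT I] (M : Model I)

theorem not_P1 {A : Set (ℕ × Pt al)} (hA : A.Infinite) (h3 : ∀ γ, (3, M.pc γ) ∈ A) :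
    ¬ P A 1 := by
  classical
  intro hP
  have : Infinite A := hA.to_subtype
  obtain ⟨g, hg⟩ := neg1' hP (fun a n => sInf {m | (n ≤ m ∧ a.1.2 m ≠ xz m) ∨
      ∀ j ≥ n, a.1.2 j = xz j}) (by
    intro n
    apply measurable_sInf (D := fun m (a : A) => (n ≤ m ∧ a.1.2 m ≠ xz m) ∨
      ∀ j ≥ n, a.1.2 j = xz j)
    · intro m
      have hcoord : ∀ j, MeasurableSet {a : A | a.1.2 j = xz j} := fun j =>
        ((measurable_pi_apply j).comp (measurable_snd.comp measurable_subtype_coe))
          (measurableSet_singleton (xz j))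
      by_cases hnm : n ≤ m
      · have : {a : A | (n ≤ m ∧ a.1.2 m ≠ xz m) ∨ ∀ j ≥ n, a.1.2 j = xz j} =
            {a : A | a.1.2 m = xz m}ᶜ ∪ ⋂ j ∈ Ici n, {a : A | a.1.2 j = xz j} := by
          ext a
          simp [hnm]
        rw [this]
        exact (hcoord m).compl.union (MeasurableSet.biInter (to_countable _) fun j _ => hcoord j)
      · have : {a : A | (n ≤ m ∧ a.1.2 m ≠ xz m) ∨ ∀ j ≥ n, a.1.2 j = xz j} =
            ⋂ j ∈ Ici n, {a : A | a.1.2 j = xz j} := by
          ext a
          simp [hnm]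
        rw [this]
        exact MeasurableSet.biInter (to_countable _) fun j _ => hcoord j
    · intro a
      by_cases h : ∀ j ≥ n, a.1.2 j = xz j
      · exact ⟨0, Or.inr h⟩
      · push Not at h
        obtain ⟨j, hj, hne⟩ := h
        exact ⟨j, Or.inl ⟨hj, hne⟩⟩)
  set S : Set (Pt al) := {y | ∀ N, (∃ n ≥ N, ∀ j, n ≤ j → j ≤ g n → y j = xz j) ∧
    ∃ j ≥ N, y j ≠ xz j} with hS
  have hSr : S ∈ residual (Pt al) := by
    apply residual_of_cyl
    · rintro N x ⟨⟨n, hn, h⟩, j, hj, hne⟩
      refine ⟨max (g n + 1) (j + 1), fun y hy => ⟨⟨n, hn, fun j' h1 h2 => ?_⟩, j, hj, ?_⟩⟩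
      · rw [hy j' (by omega)]
        exact h j' h1 h2
      · rw [hy j (by omega)]
        exact hne
    · intro N m x
      have hne : ∀ i, ∃ b : al i, b ≠ xz i := fun i => exists_ne _
      choose b hb using hne
      set n := max m N with hn
      set k := max (g n + 1) n with hk
      refine ⟨fun i => if i < m then x i else if i < k then xz i else b i, ?_, ?_, ?_⟩
      · intro i hi
        simp [hi]
      · refine ⟨n, le_max_right _ _, fun j h1 h2 => ?_⟩
        have h4 : ¬ j < m := by omega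
        have h5 : j < k := by omega
        simp [h4, h5]
      · refine ⟨k, by omega, ?_⟩
        have h4 : ¬ k < m := by omega
        simp only [h4, if_false, lt_irrefl]
        exact hb k
  have hSm : MeasurableSet S := by
    have hcoord : ∀ j, MeasurableSet {y : Pt al | y j = xz j} := fun j =>
      (measurable_pi_apply j) (measurableSet_singleton (xz j))
    have : S = ⋂ N, ((⋃ n ∈ Ici N, ⋂ j ∈ Icc n (g n), {y : Pt al | y j = xz j}) ∩
        ⋃ j ∈ Ici N, {y : Pt al | y j = xz j}ᶜ) := by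
      ext y
      simp [hS]
    rw [this]
    exact MeasurableSet.iInter fun N => (MeasurableSet.biUnion (to_countable _) fun n _ =>
      MeasurableSet.biInter (to_countable _) fun j _ => hcoord j).inter
        (MeasurableSet.biUnion (to_countable _) fun j _ => (hcoord j).compl)
  obtain ⟨γ, hγ⟩ := M.exists_M hSm hSr
  have hy := hγ γ le_rfl
  obtain ⟨N, hN⟩ := eventually_atTop.1 (hg ⟨_, h3 γ⟩)
  obtain ⟨⟨n, hn, h4⟩, -⟩ := hy N
  have h5 := hN n hn
  obtain ⟨-, j, hj, hjne⟩ := hy n
  have h6 : (n ≤ sInf {m | (n ≤ m ∧ M.pc γ m ≠ xz m) ∨ ∀ j ≥ n, M.pc γ j = xz j} ∧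
      M.pc γ (sInf {m | (n ≤ m ∧ M.pc γ m ≠ xz m) ∨ ∀ j ≥ n, M.pc γ j = xz j}) ≠
        xz (sInf {m | (n ≤ m ∧ M.pc γ m ≠ xz m) ∨ ∀ j ≥ n, M.pc γ j = xz j})) ∨
      ∀ j ≥ n, M.pc γ j = xz j :=
    sInf_spec' (D := fun m => (n ≤ m ∧ M.pc γ m ≠ xz m) ∨ ∀ j ≥ n, M.pc γ j = xz j)
      ⟨j, Or.inl ⟨hj, hjne⟩⟩
  rcases h6 with ⟨h7, h8⟩ | h7
  · exact h8 (h4 _ h7 h5)
  · exact hjne (h7 j hj)

theorem not_P7 {A : Set (ℕ × Pt al)} (h4 : ∀ γ, (4, ww (M.x γ).t) ∈ A) : ¬ P A 7 := by
  classical
  intro hP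
  obtain ⟨γ0⟩ := M.nonempty_I
  have hSm : ∀ (k : ℕ) (y : al k), MeasurableSet {t : ℝ | ww t k = y} := fun k y =>
    ((measurable_pi_apply k).comp measurable_ww) (measurableSet_singleton y)
  obtain ⟨γ1, hγ1⟩ := M.exists_N (S := {t | ∀ᶠ i in atTop, ww t i ≠ ww (M.x γ0).t i}) (by
    have : {t : ℝ | ∀ᶠ i in atTop, ww t i ≠ ww (M.x γ0).t i} =
        ⋃ N, ⋂ n ∈ Ici N, {t : ℝ | ww t n = ww (M.x γ0).t n}ᶜ := by
      ext t; simp [eventually_atTop]
    rw [this]
    exact MeasurableSet.iUnion fun N => MeasurableSet.biInter (to_countable _) fun n _ =>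
      (hSm n _).compl) (ww_ne _)
  obtain ⟨K, hK⟩ := eventually_atTop.1 (hγ1 γ1 le_rfl)
  have huse : ∀ j, ∃ v : (n : ℕ) → al (K + n + j), ∀ γ, ∃ n,
      ww (M.x γ).t (K + n + j) = v n := by
    intro j
    obtain ⟨W, hW, hcov⟩ := use7 hP (fun n => range fun v : al (K + n + j) =>
        {a : ℕ × Pt al | a.1 = 4 → a.2 (K + n + j) = v}) (fun n => countable_range _) (by
      rintro n _ ⟨v, rfl⟩
      have : {a : ℕ × Pt al | a.1 = 4 → a.2 (K + n + j) = v} =
          ((fun z : ℕ × Pt al => z.1) ⁻¹' {4})ᶜ ∪ (fun z => z.2 (K + n + j)) ⁻¹' {v} := by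
        ext z
        simp only [mem_ofPred_eq, mem_union, mem_compl_iff, mem_preimage, mem_singleton_iff]
        tauto
      show MeasurableSet {a : ℕ × Pt al | a.1 = 4 → a.2 (K + n + j) = v}
      rw [this]
      exact (measurable_fst (measurableSet_singleton 4)).compl.union
        (((measurable_pi_apply _).comp measurable_snd) (measurableSet_singleton v))) (by
      rintro n _ ⟨v, rfl⟩ hsub
      have e1 : ww (M.x γ0).t (K + n + j) = v := hsub (h4 γ0) rfl
      have e2 : ww (M.x γ1).t (K + n + j) = v := hsub (h4 γ1) rfl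
      exact hK (K + n + j) (by omega) (e2.trans e1.symm)) (by
      rintro n ⟨a, y⟩ -
      exact ⟨_, mem_range_self (y (K + n + j)), fun _ => rfl⟩)
    choose v hv using hW
    refine ⟨v, fun γ => ?_⟩
    obtain ⟨n, hn⟩ := hcov _ (h4 γ)
    refine ⟨n, ?_⟩
    rw [← hv n] at hn
    exact hn rfl
  choose v hv using huse
  have hG : ∀ j, mu (⋃ n, {t | ww t (K + n + j) = v j n}) ≤ (2 : ℝ≥0∞)⁻¹ ^ j := by
    intro j
    calc mu (⋃ n, {t | ww t (K + n + j) = v j n})
        ≤ ∑' n, mu {t | ww t (K + n + j) = v j n} := measure_iUnion_le _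
      _ ≤ ∑' n, (2 : ℝ≥0∞)⁻¹ ^ n * (2 : ℝ≥0∞)⁻¹ ^ (j + 1) := by
          apply ENNReal.tsum_le_tsum
          intro n
          refine (ww_small _ _).trans ?_
          rw [← pow_add]
          apply pow_le_pow_right_of_le_one' (by simp)
          omega
      _ = (2 : ℝ≥0∞)⁻¹ ^ j := by
          rw [ENNReal.tsum_mul_right, ENNReal.tsum_geometric, ENNReal.one_sub_inv_two, inv_inv,
            pow_succ, mul_comm, mul_assoc, ENNReal.inv_mul_cancel (by simp) (by simp), mul_one]
  have hnull : mu (⋂ j, ⋃ n, {t | ww t (K + n + j) = v j n}) = 0 := by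
    apply le_antisymm _ zero_le
    apply ge_of_tendsto' (ENNReal.tendsto_pow_atTop_nhds_zero_of_lt_one (r := 2⁻¹)
      (by simp)) fun j => (measure_mono (iInter_subset _ j)).trans (hG j)
  have hmeas : MeasurableSet (⋂ j, ⋃ n, {t | ww t (K + n + j) = v j n})ᶜ :=
    (MeasurableSet.iInter fun j => MeasurableSet.iUnion fun n => hSm _ _).compl
  obtain ⟨γ, hγ⟩ := M.exists_N hmeas (measure_eq_zero_iff_ae_notMem.1 hnull)
  apply hγ γ le_rfl
  rw [mem_iInter]
  intro j
  obtain ⟨n, hn⟩ := hv j γ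
  exact mem_iUnion.2 ⟨n, hn⟩

end Model

end Pool.Agent.H39.BSel
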