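import Pool.Agent.H39.BSel.Sharp

set_option autoImplicit false
set_option linter.unusedSectionVars false

/-!
The transfinite recursion.
-/

namespace Pool.Agent.H39.BSel

open Topology Filter Set MeasureTheory Function

/-- Transfinite recursion with requirements. -/
theorem rec_exists {I V : Type*} [LinearOrder I] [WellFoundedLT I] [Nonempty V]
    (G : I → (I → V) → V → Prop)
    (hcongr : ∀ γ x x' v, (∀ δ < γ, x δ = x' δ) → G γ x v → G γ x' v)
    (H : ∀ γ x, (∀ δ < γ, G δ x (x δ)) → ∃ v, G γ x v) : ∃ x : I → V, ∀ γ, G γ x (x γ) := by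
  classical
  let ex : (γ : I) → ((δ : I) → δ < γ → V) → I → V :=
    fun γ P δ => if h : δ < γ then P δ h else Classical.arbitrary V
  let x : I → V := (wellFounded_lt (α := I)).fix fun γ P =>
    if h : ∃ v, G γ (ex γ P) v then h.choose else Classical.arbitrary V
  have hx : ∀ γ, x γ = if h : ∃ v, G γ (ex γ fun δ _ => x δ) v then h.choose
      else Classical.arbitrary V := by
    intro γ
    exact (wellFounded_lt (α := I)).fix_eq _ γ
  refine ⟨x, fun γ => ?_⟩
  induction γ using (wellFounded_lt (α := I)).induction with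
  | _ γ ih =>
    have hex : ∀ δ < γ, ex γ (fun δ _ => x δ) δ = x δ := fun δ hδ => dif_pos hδ
    have h1 : ∃ v, G γ (ex γ fun δ _ => x δ) v := by
      obtain ⟨v, hv⟩ := H γ x ih
      exact ⟨v, hcongr γ _ _ v (fun δ hδ => (hex δ hδ).symm) hv⟩
    rw [hx γ, dif_pos h1]
    exact hcongr γ _ _ _ hex h1.choose_spec

variable {β : ℕ → Type} [∀ i, TopologicalSpace (β i)] [∀ i, DiscreteTopology (β i)]
  [∀ i, Finite (β i)] [∀ i, Nonempty (β i)] [∀ i, MeasurableSpace (β i)] [∀ i, BorelSpace (β i)]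
  {Θ : Type} [MeasurableSpace Θ] [Nonempty Θ]

/-- State of the recursion. -/
structure St (β : ℕ → Type) (Θ : Type) where
  p : Cd β
  g : ℕ → ℕ
  t : Θ
  c : Pt β
  z : Pt β
  T : Set (Set (Cd β))

/-- Raw data of a state. -/
def St.d (v : St β Θ) : Dt β Θ := (v.p, v.t, v.c)

instance : Nonempty (St β Θ) := ⟨⟨fun _ => (true, dflt _), 0, Classical.arbitrary _, dflt, dflt, ∅⟩⟩

/-- The sequence of raw data along a decreasing list of indices. -/
noncomputable def seqOf {I : Type} (d : I → Dt β Θ) : List I → Om β Θ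
  | [] => fun _ => (fun _ => (true, dflt _), Classical.arbitrary _, dflt)
  | (γ :: l) => update (seqOf d l) l.length (d γ)

theorem seqOf_congr {I : Type} {d d' : I → Dt β Θ} : ∀ {l : List I}, (∀ a ∈ l, d a = d' a) →
    seqOf d l = seqOf d' l
  | [], _ => rfl
  | (γ :: l), h => by
    simp only [seqOf]
    rw [seqOf_congr (l := l) fun a ha => h a (List.mem_cons_of_mem _ ha),
      h γ List.mem_cons_self]

/-- The requirements to be met. -/
structure Req (I : Type) (β : ℕ → Type) (Θ : Type) [∀ i, TopologicalSpace (β i)] where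
  f : I → Om β Θ → ℕ → ℕ
  b : I → ℕ → Pt β → ℕ → ℕ
  M : I → Set (Pt β)
  N : I → Cd β → Set Θ
  Z : I → Cd β → Pt β → Prop
  x0 : Pt β
  w : Θ → Pt β

variable {I : Type} [LinearOrder I] [WellFoundedLT I] (μ : Measure Θ) [IsProbabilityMeasure μ]
  {V : ℕ → Set (Pt β × Cd β)} (R : Req I β Θ)

/-- The conditions at stage `γ`. -/
structure G (V : ℕ → Set (Pt β × Cd β)) (γ : I) (x : I → St β Θ) (v : St β Θ) : Prop where
  free : IsFree v.p
  mem : ∀ δ < γ, ∀ T ∈ (x δ).T, v.p ∈ T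
  cnt : v.T.Countable
  st : ∀ T ∈ v.T, Stable T ∧ ∀ᶠ r in residual (Cd β), comp v.p r ∈ T
  nd0 : ∀ l : List I, (∀ a ∈ l, a < γ) → l.Pairwise (· > ·) →
    v.p ∈ ND μ V (R.f γ) v.g (seqOf (fun a => (x a).d) l)
  nd1 : ∀ l : List I, (∀ a ∈ l, a < γ) → l.Pairwise (· > ·) →
    ∃ T ∈ v.T, T ⊆ ND μ V (R.f γ) v.g (seqOf (fun a => (x a).d) l)
  nd2 : ∀ l : List I, (∀ a ∈ l, a < γ) → l.Pairwise (· > ·) → ∀ δ < γ,
    ∃ T ∈ v.T, T ⊆ ND μ V (R.f δ) (x δ).g (update (seqOf (fun a => (x a).d) l) l.length v.d)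
  nd3 : ∀ l : List I, (∀ a ∈ l, a < γ) → l.Pairwise (· > ·) →
    ∃ T ∈ v.T, T ⊆ ND μ V (R.f γ) v.g (update (seqOf (fun a => (x a).d) l) l.length v.d)
  good : good (R.b γ) ∈ v.T
  ae : {q | AE q v.p} ∈ v.T
  av1 : avoidPt (app v.p R.x0) ∈ v.T
  av2 : avoidPt (app v.p (R.w v.t)) ∈ v.T
  av3 : avoidPt v.z ∈ v.T
  hc : ∀ δ ≤ γ, v.c ∈ R.M δ
  ht : ∀ δ ≤ γ, v.t ∈ R.N δ v.p
  hz : R.Z γ v.p v.z

theorem G_congr (γ : I) (x x' : I → St β Θ) (v : St β Θ) (h : ∀ δ < γ, x δ = x' δ)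
    (hG : G μ R V γ x v) : G μ R V γ x' v := by
  have hseq : ∀ l : List I, (∀ a ∈ l, a < γ) →
      seqOf (fun a => (x a).d) l = seqOf (fun a => (x' a).d) l :=
    fun l hl => seqOf_congr fun a ha => by rw [h a (hl a ha)]
  constructor
  · exact hG.free
  · intro δ hδ T hT
    rw [← h δ hδ] at hT
    exact hG.mem δ hδ T hT
  · exact hG.cnt
  · exact hG.st
  · intro l hl hl'
    rw [← hseq l hl]
    exact hG.nd0 l hl hl'
  · intro l hl hl'
    rw [← hseq l hl]
    exact hG.nd1 l hl hl'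
  · intro l hl hl' δ hδ
    rw [← hseq l hl, ← h δ hδ]
    exact hG.nd2 l hl hl' δ hδ
  · intro l hl hl'
    rw [← hseq l hl]
    exact hG.nd3 l hl hl'
  · exact hG.good
  · exact hG.ae
  · exact hG.av1
  · exact hG.av2
  · exact hG.av3
  · exact hG.hc
  · exact hG.ht
  · exact hG.hz

/-- Every functional is handled by a stable set at some stage. -/
theorem exists_T {γ : I} {x : I → St β Θ} (hG : ∀ δ < γ, G μ R V δ x (x δ)) (l : List I)
    (hl : ∀ a ∈ l, a < γ) (hl' : l.Pairwise (· > ·)) (δ : I) (hδ : δ < γ) :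
    ∃ ε < γ, ∃ T ∈ (x ε).T, T ⊆ ND μ V (R.f δ) (x δ).g (seqOf (fun a => (x a).d) l) := by
  rcases l with _ | ⟨a, l⟩
  · obtain ⟨T, hT, h⟩ := (hG δ hδ).nd1 [] (by simp) List.Pairwise.nil
    exact ⟨δ, hδ, T, hT, h⟩
  · have ha : a < γ := hl a List.mem_cons_self
    have hla : ∀ b ∈ l, b < a := (List.pairwise_cons.1 hl').1
    have hll : l.Pairwise (· > ·) := (List.pairwise_cons.1 hl').2
    rcases lt_trichotomy a δ with h | h | h
    · obtain ⟨T, hT, h⟩ := (hG δ hδ).nd1 (a :: l) (by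
        intro b hb
        rcases List.mem_cons.1 hb with rfl | hb
        · exact h
        · exact (hla b hb).trans h) hl'
      exact ⟨δ, hδ, T, hT, h⟩
    · subst h
      obtain ⟨T, hT, h⟩ := (hG a ha).nd3 l hla hll
      exact ⟨a, ha, T, hT, h⟩
    · obtain ⟨T, hT, h⟩ := (hG a ha).nd2 l hla hll δ h
      exact ⟨a, ha, T, hT, h⟩

/-- Choice of the condition at a stage. -/
theorem exists_cond (hI : ∀ γ : I, (Iio γ).Countable) {γ : I} {x : I → St β Θ}
    (hG : ∀ δ < γ, G μ R V δ x (x δ)) :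
    ∃ p : Cd β, IsFree p ∧ ∀ δ < γ, ∀ T ∈ (x δ).T, p ∈ T := by
  classical
  rcases (Iio γ).eq_empty_or_nonempty with hemp | hne
  · refine ⟨fun _ => (true, dflt _), fun N => ⟨N, le_rfl, rfl⟩, fun δ hδ => ?_⟩
    have : δ ∈ Iio γ := hδ
    rw [hemp] at this
    exact absurd this (notMem_empty _)
  by_cases hsucc : ∃ δ < γ, ∀ δ' < γ, δ' ≤ δ
  · obtain ⟨δ, hδ, hmax⟩ := hsucc
    set S : Set (Set (Cd β)) := ⋃ δ' ∈ Iic δ, (x δ').T with hS
    have hIic : (Iic δ).Countable := (hI γ).mono fun a ha => lt_of_le_of_lt ha hδ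
    have hSc : S.Countable := hIic.biUnion fun a ha => (hG a (lt_of_le_of_lt ha hδ)).cnt
    have key : ∀ T ∈ S, ∀ᶠ r in residual (Cd β), comp (x δ).p r ∈ T := by
      intro T hT
      simp only [hS, mem_iUnion] at hT
      obtain ⟨δ', hδ', hT⟩ := hT
      rcases eq_or_lt_of_le (show δ' ≤ δ from hδ') with rfl | hlt
      · exact ((hG δ' hδ).st T hT).2
      · have h1 := (hG δ hδ).mem δ' hlt T hT
        exact ((hG δ' (hlt.trans hδ)).st T hT).1.succ _ h1
    have h2 := (residual_isFree (hG δ hδ).free).and ((eventually_countable_ball hSc).2 key)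
    have hne2 : (residual (Cd β)).NeBot :=
      ⟨fun h => not_isMeagre_of_mem_residual (s := (univ : Set (Cd β))) univ_mem
        (by rw [IsMeagre, h]; exact mem_bot)⟩
    obtain ⟨r, hr1, hr2⟩ := h2.exists
    refine ⟨comp (x δ).p r, hr1, fun δ' hδ' T hT => hr2 T ?_⟩
    simp only [hS, mem_iUnion]
    exact ⟨δ', hmax δ' hδ', hT⟩
  · push Not at hsucc
    obtain ⟨e, he⟩ := (hI γ).exists_eq_range hne
    have hstep : ∀ a : Iio γ, ∀ b : Iio γ, ∃ c : Iio γ, a < c ∧ b ≤ c := by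
      intro a b
      obtain ⟨c, hc1, hc2⟩ := hsucc (max a.1 b.1) (max_lt a.2 b.2)
      exact ⟨⟨c, hc1⟩, lt_of_le_of_lt (le_max_left _ _) hc2,
        le_of_lt (lt_of_le_of_lt (le_max_right _ _) hc2)⟩
    choose c hc1 hc2 using hstep
    have heI : ∀ n, e n < γ := fun n => by
      have : e n ∈ Iio γ := he ▸ mem_range_self n
      exact this
    let s : ℕ → Iio γ := fun n => Nat.rec ⟨e 0, heI 0⟩ (fun n a => c a ⟨e n, heI n⟩) n
    have hs : ∀ n, s (n + 1) = c (s n) ⟨e n, heI n⟩ := fun n => rfl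
    have hmono : StrictMono s := strictMono_nat_of_lt_succ fun n => by rw [hs]; exact hc1 _ _
    have hge : ∀ n, e n ≤ (s (n + 1)).1 := fun n => by
      rw [hs]; exact Subtype.coe_le_coe.2 (hc2 (s n) ⟨e n, heI n⟩)
    set S : Set (Set (Cd β)) := ⋃ δ' ∈ Iio γ, (x δ').T with hS
    have hSc : S.Countable := (hI γ).biUnion fun a ha => (hG a ha).cnt
    obtain ⟨q, hq1, -, hq3⟩ := glue (fun n => (x (s n).1).p)
      (fun n => by
        have hlt : (s n).1 < (s (n + 1)).1 := hmono (Nat.lt_succ_self n)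
        have := (hG _ (s (n + 1)).2).mem _ hlt _ (hG _ (s n).2).ae
        exact this)
      (fun n => (hG _ (s n).2).free) S hSc
      (by
        intro T hT
        simp only [hS, mem_iUnion] at hT
        obtain ⟨δ', hδ', hT⟩ := hT
        exact ((hG δ' hδ').st T hT).1)
      (by
        intro T hT
        simp only [hS, mem_iUnion] at hT
        obtain ⟨δ', hδ', hT⟩ := hT
        have : δ' ∈ range e := he ▸ hδ'
        obtain ⟨n, rfl⟩ := this
        refine ⟨n + 2, fun k hk => ?_⟩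
        have h1 : e n < (s k).1 := lt_of_le_of_lt (hge n)
          (hmono (show n + 1 < k by omega))
        exact (hG _ (s k).2).mem _ h1 T hT)
    refine ⟨q, hq1, fun δ hδ T hT => hq3 T ?_⟩
    simp only [hS, mem_iUnion]
    exact ⟨δ, hδ, hT⟩

/-- The recursion succeeds. -/
theorem exists_seq (hI : ∀ γ : I, (Iio γ).Countable) (hV : PiBase (Pt β × Cd β) V)
    (hβ : ∀ i, Nontrivial (β i))
    (hf : ∀ γ n, Measurable (R.f γ · n)) (hb : ∀ γ j n, Measurable (R.b γ j · n))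
    (hM : ∀ γ, R.M γ ∈ residual (Pt β)) (hN : ∀ γ p, IsFree p → ∀ᵐ t ∂μ, t ∈ R.N γ p)
    (hZ : ∀ γ p, IsFree p → ∃ z, R.Z γ p z) :
    ∃ x : I → St β Θ, ∀ γ, G μ R V γ x (x γ) := by
  classical
  apply rec_exists (G μ R V) (G_congr μ R)
  intro γ x hG
  obtain ⟨V', hV'⟩ := exists_piBase (Cd β)
  obtain ⟨p, hpf, hp⟩ := exists_cond μ R hI hG
  have hIic : (Iic γ).Countable := by
    have : Iic γ = insert γ (Iio γ) := by
      ext a; simp only [mem_Iic, mem_insert_iff, mem_Iio]; exact le_iff_eq_or_lt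
    rw [this]
    exact (hI γ).insert _
  -- the countable set of past lists
  set Ls : Set (List I) := {l | (∀ a ∈ l, a < γ) ∧ l.Pairwise (· > ·)} with hLs
  have hLsc : Ls.Countable := by
    have hc : Countable (Iio γ) := (hI γ).to_subtype
    have h1 : (range fun l : List (Iio γ) => l.map Subtype.val).Countable := countable_range _
    apply h1.mono
    intro l hl
    refine ⟨l.attach.map (fun a => (⟨a.1, hl.1 a.1 a.2⟩ : Iio γ)), ?_⟩
    simp [List.map_map, Function.comp_def]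
  set sq : List I → Om β Θ := seqOf (fun a => (x a).d) with hsq
  obtain ⟨g, hg⟩ := exists_ND μ hV hV' (hf γ) (hLsc.image sq) p
  -- the functions to be preserved
  set gg : I → ℕ → ℕ := fun δ => if δ = γ then g else (x δ).g with hgg
  have hND : ∀ l ∈ Ls, ∀ δ ≤ γ, p ∈ ND μ V (R.f δ) (gg δ) (sq l) := by
    intro l hl δ hδ
    rcases eq_or_lt_of_le hδ with rfl | hlt
    · simp only [hgg, if_true]
      exact (hg _ (mem_image_of_mem _ hl)).1
    · simp only [hgg, if_neg (ne_of_lt hlt)]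
      obtain ⟨ε, hε, T, hT, hsub⟩ := exists_T μ R hG l hl.1 hl.2 δ hlt
      exact hsub (hp ε hε T hT)
  have hstep : ∀ᵐ t ∂μ, ∀ l ∈ Ls, ∀ δ ∈ Iic γ, ∀ᶠ c in residual (Pt β), ∀ᶠ r in residual (Cd β),
      comp p r ∈ ND μ V (R.f δ) (gg δ) (update (sq l) l.length (p, t, c)) := by
    rw [ae_ball_iff hLsc]
    intro l hl
    rw [ae_ball_iff hIic]
    intro δ hδ
    exact ND_step μ hV (hf δ) (hND l hl δ hδ) l.length
  have hNall : ∀ᵐ t ∂μ, ∀ δ ∈ Iic γ, t ∈ R.N δ p := by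
    rw [ae_ball_iff hIic]
    exact fun δ _ => hN δ p hpf
  obtain ⟨t, ht1, ht2⟩ := (hstep.and hNall).exists
  have hcall : ∀ᶠ c in residual (Pt β), (∀ l ∈ Ls, ∀ δ ∈ Iic γ, ∀ᶠ r in residual (Cd β),
      comp p r ∈ ND μ V (R.f δ) (gg δ) (update (sq l) l.length (p, t, c))) ∧
      ∀ δ ∈ Iic γ, c ∈ R.M δ := by
    apply Filter.Eventually.and
    · rw [eventually_countable_ball hLsc]
      intro l hl
      rw [eventually_countable_ball hIic]
      exact ht1 l hl
    · rw [eventually_countable_ball hIic]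
      exact fun δ _ => hM δ
  have hne2 : (residual (Pt β)).NeBot :=
    ⟨fun h => not_isMeagre_of_mem_residual (s := (univ : Set (Pt β))) univ_mem
      (by rw [IsMeagre, h]; exact mem_bot)⟩
  obtain ⟨c, hc1, hc2⟩ := hcall.exists
  obtain ⟨z, hz⟩ := hZ γ p hpf
  -- stable sets
  have hS1 : ∀ l, ∃ T, l ∈ Ls → Stable T ∧ T ⊆ ND μ V (R.f γ) g (sq l) ∧
      ∀ᶠ r in residual (Cd β), comp p r ∈ T := by
    intro l
    by_cases hl : l ∈ Ls
    · obtain ⟨T, hT⟩ := exists_stable (ND_fin μ (V := V) (f := R.f γ) (g := g) (F := sq l))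
        (hg _ (mem_image_of_mem _ hl)).2
      exact ⟨T, fun _ => hT⟩
    · exact ⟨∅, fun h => absurd h hl⟩
  choose T1 hT1 using hS1
  have hS2 : ∀ l δ, ∃ T, l ∈ Ls → δ ∈ Iic γ → Stable T ∧
      T ⊆ ND μ V (R.f δ) (gg δ) (update (sq l) l.length (p, t, c)) ∧
      ∀ᶠ r in residual (Cd β), comp p r ∈ T := by
    intro l δ
    by_cases hl : l ∈ Ls ∧ δ ∈ Iic γ
    · obtain ⟨T, hT⟩ := exists_stable (ND_fin μ (V := V) (f := R.f δ) (g := gg δ)
        (F := update (sq l) l.length (p, t, c))) (hc1 l hl.1 δ hl.2)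
      exact ⟨T, fun _ _ => hT⟩
    · exact ⟨∅, fun h h' => absurd ⟨h, h'⟩ hl⟩
  choose T2 hT2 using hS2
  set 𝒯 : Set (Set (Cd β)) := (T1 '' Ls) ∪ (⋃ δ ∈ Iic γ, (fun l => T2 l δ) '' Ls) ∪
    {good (R.b γ), {q | AE q p}, avoidPt (app p R.x0), avoidPt (app p (R.w t)), avoidPt z}
    with h𝒯
  refine ⟨⟨p, g, t, c, z, 𝒯⟩, ?_⟩
  constructor
  · exact hpf
  · exact hp
  · apply Countable.union
    · exact (hLsc.image _).union (hIic.biUnion fun δ _ => hLsc.image _)
    · exact Set.Finite.countable (by simp)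
  · rintro T ((hT | hT) | hT)
    · obtain ⟨l, hl, rfl⟩ := hT
      exact ⟨(hT1 l hl).1, (hT1 l hl).2.2⟩
    · simp only [mem_iUnion] at hT
      obtain ⟨δ, hδ, l, hl, rfl⟩ := hT
      exact ⟨(hT2 l δ hl hδ).1, (hT2 l δ hl hδ).2.2⟩
    · simp only [mem_insert_iff, mem_singleton_iff] at hT
      rcases hT with rfl | rfl | rfl | rfl | rfl
      · exact ⟨stable_good _, residual_good p _ (hb γ)⟩
      · exact ⟨Stable.of_upward fun q hq q' hq' => AE.trans hq' hq,
          Eventually.of_forall fun r => ae_comp p r⟩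
      · exact ⟨stable_avoidPt _, residual_avoidPt hpf hβ _⟩
      · exact ⟨stable_avoidPt _, residual_avoidPt hpf hβ _⟩
      · exact ⟨stable_avoidPt _, residual_avoidPt hpf hβ _⟩
  · intro l hl hl'
    exact (hg _ (mem_image_of_mem _ (⟨hl, hl'⟩ : l ∈ Ls))).1
  · intro l hl hl'
    have hm : l ∈ Ls := ⟨hl, hl'⟩
    exact ⟨T1 l, mem_union_left _ (mem_union_left _ (mem_image_of_mem _ hm)), (hT1 l hm).2.1⟩
  · intro l hl hl' δ hδ
    have hm : l ∈ Ls := ⟨hl, hl'⟩
    refine ⟨T2 l δ, mem_union_left _ (mem_union_right _ ?_), ?_⟩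
    · simp only [mem_iUnion]
      exact ⟨δ, le_of_lt hδ, l, hm, rfl⟩
    · have := (hT2 l δ hm (le_of_lt hδ)).2.1
      simp only [hgg, if_neg (ne_of_lt hδ)] at this
      exact this
  · intro l hl hl'
    have hm : l ∈ Ls := ⟨hl, hl'⟩
    refine ⟨T2 l γ, mem_union_left _ (mem_union_right _ ?_), ?_⟩
    · simp only [mem_iUnion]
      exact ⟨γ, le_rfl, l, hm, rfl⟩
    · have := (hT2 l γ hm le_rfl).2.1
      simp only [hgg, if_true] at this
      exact this
  · exact mem_union_right _ (by simp)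
  · exact mem_union_right _ (by simp)
  · exact mem_union_right _ (by simp)
  · exact mem_union_right _ (by simp)
  · exact mem_union_right _ (by simp)
  · exact hc2
  · exact ht2
  · exact hz

end Pool.Agent.H39.BSel
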