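import Pool.Agent.H39.BSel.Alpha

set_option autoImplicit false
set_option linter.unusedSectionVars false

/-!
The sets of reals realizing the five settings.
-/

namespace Pool.Agent.H39.BSel

open Topology Filter Set MeasureTheory Function
open scoped ENNReal Cardinal

/-- The base point. -/
noncomputable def xz : Pt al := dflt

/-- Sets determined by the first `m` coordinates. -/
def Det (m : ℕ) (V : Set (Pt al)) : Prop := ∀ x y, (∀ i < m, x i = y i) → x ∈ V → y ∈ V

/-- Clopen sets. -/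
def Cy : Set (Set (Pt al)) := {V | ∃ m, Det m V}

theorem countable_Cy : Cy.Countable := by
  have : Cy = ⋃ m, {V | Det m V} := by ext V; simp [Cy]
  rw [this]
  apply countable_iUnion
  intro m
  apply Set.Finite.countable
  apply Set.Finite.of_finite_image (f := fun V => V ∩ (stems m : Set (Pt al)))
  · apply ((finite_stems (α := al) m).finite_subsets).subset
    rintro _ ⟨V, _, rfl⟩
    exact inter_subset_right
  · intro V hV W hW h
    have h' : V ∩ (stems m : Set (Pt al)) = W ∩ (stems m : Set (Pt al)) := h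
    ext x
    constructor
    · intro hx
      have h1 : splice m x dflt ∈ V := hV x _ (fun i hi => (splice_lt hi _ _).symm) hx
      have h2 : splice m x dflt ∈ W ∩ (stems m : Set (Pt al)) := h' ▸ ⟨h1, splice_mem_stems m x⟩
      exact hW _ x (fun i hi => splice_lt hi _ _) h2.1
    · intro hx
      have h1 : splice m x dflt ∈ W := hW x _ (fun i hi => (splice_lt hi _ _).symm) hx
      have h2 : splice m x dflt ∈ V ∩ (stems m : Set (Pt al)) := h'.symm ▸ ⟨h1, splice_mem_stems m x⟩
      exact hV _ x (fun i hi => splice_lt hi _ _) h2.1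

theorem measurable_Cy {V : Set (Pt al)} (hV : V ∈ Cy) : MeasurableSet V := by
  obtain ⟨m, hm⟩ := hV
  apply IsOpen.measurableSet
  apply isOpen_of_cyl
  intro x hx
  exact ⟨m, fun y hy => hm x y (fun i hi => (hy i hi).symm) hx⟩

open Classical in
/-- The requirements. -/
noncomputable def mkR {I : Type} (ef : I → {f : Om al ℝ → ℕ → ℕ // ∀ n, Measurable (f · n)})
    (eb : I → {f : ℕ × Pt al → ℕ → ℕ // ∀ n, Measurable (f · n)})
    (eM : I → {M : {s : Set (Pt al) // MeasurableSet s} // M.1 ∈ residual (Pt al)})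
    (eN : I → {N : {s : Set ℝ // MeasurableSet s} // ∀ᵐ t ∂mu, t ∈ N.1})
    (eh : I → (ℕ → Cy × Cy)) (er : I → (ℕ → ℕ)) : Req I al ℝ where
  f := fun γ => (ef γ).1
  b := fun γ j x => (eb γ).1 (j, x)
  M := fun γ => (eM γ).1.1
  N := fun γ p => (eN γ).1.1 ∩ {t | (∀ n, mu {t | app p xz ∈ (eh γ n).1.1 ∧
      app p (ww t) ∈ (eh γ n).2.1} ≤ (2 : ℝ≥0∞)⁻¹ ^ n) →
        ∀ᶠ n in atTop, ¬ (app p xz ∈ (eh γ n).1.1 ∧ app p (ww t) ∈ (eh γ n).2.1)} ∩
    {t | {i | app p xz i ≠ app p (ww t) i}.Infinite}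
  Z := fun γ p z => PExt 0 z p ∧ {i | z i ≠ app p xz i}.Infinite ∧
    ∀ n, ((Finset.range (er γ n)).filter (fun i => z i ≠ app p xz i)).card ≤ n
  x0 := xz
  w := ww

theorem exists_z {p : Cd al} (hp : IsFree p) (r : ℕ → ℕ) :
    ∃ z : Pt al, PExt 0 z p ∧ {i | z i ≠ app p xz i}.Infinite ∧
      ∀ n, (open Classical in ((Finset.range (r n)).filter (fun i => z i ≠ app p xz i)).card ≤ n) := by
  classical
  choose nx hnx1 hnx2 using hp
  set R : ℕ → ℕ := fun j => (Finset.range (j + 1)).sup r with hR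
  have hRle : ∀ n j, n ≤ j → r n ≤ R j := fun n j h =>
    Finset.le_sup (f := r) (Finset.mem_range.2 (Nat.lt_succ_of_le h))
  let k : ℕ → ℕ := fun j => Nat.rec (nx (R 0)) (fun j a => nx (max (a + 1) (R (j + 1)))) j
  have hk : ∀ j, k (j + 1) = nx (max (k j + 1) (R (j + 1))) := fun j => rfl
  have hmono : StrictMono k := strictMono_nat_of_lt_succ fun j => by
    rw [hk]
    exact lt_of_lt_of_le (Nat.lt_succ_self _) ((le_max_left _ _).trans (hnx1 _))
  have hkR : ∀ j, R j ≤ k j := by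
    intro j
    rcases j with _ | j
    · exact hnx1 _
    · rw [hk]; exact (le_max_right _ _).trans (hnx1 _)
  have hkf : ∀ j, (p (k j)).1 = true := by
    intro j
    rcases j with _ | j
    · exact hnx2 _
    · rw [hk]; exact hnx2 _
  have hne : ∀ i, ∃ b : al i, b ≠ xz i := fun i => exists_ne _
  choose b hb using hne
  refine ⟨fun i => if i ∈ range k then b i else app p xz i, ?_, ?_, ?_⟩
  · intro i _ hi
    have : i ∉ range k := by
      rintro ⟨j, rfl⟩
      rw [hkf j] at hi
      exact absurd hi (by simp)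
    simp only [if_neg this]
    exact app_not hi
  · apply (Set.infinite_range_of_injective hmono.injective).mono
    rintro _ ⟨j, rfl⟩
    simp only [mem_ofPred_eq, mem_range_self, if_true]
    rw [app_free (hkf j)]
    exact hb _
  · intro n
    have hsub : (Finset.range (r n)).filter
        (fun i => (if i ∈ range k then b i else app p xz i) ≠ app p xz i) ⊆
        (Finset.range n).image k := by
      intro i hi
      rw [Finset.mem_filter, Finset.mem_range] at hi
      obtain ⟨h1, h2⟩ := hi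
      by_cases h3 : i ∈ range k
      · obtain ⟨j, rfl⟩ := h3
        rw [Finset.mem_image]
        refine ⟨j, ?_, rfl⟩
        rw [Finset.mem_range]
        by_contra h4
        have := (hRle n j (not_lt.1 h4)).trans (hkR j)
        omega
      · rw [if_neg h3] at h2
        exact absurd rfl h2
    refine le_trans (le_of_eq ?_) ((Finset.card_le_card hsub).trans
      (Finset.card_image_le.trans (by simp)))
    congr

/-- All data produced by the recursion. -/
structure Model (I : Type) [LinearOrder I] [WellFoundedLT I] where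
  ef : I → {f : Om al ℝ → ℕ → ℕ // ∀ n, Measurable (f · n)}
  eb : I → {f : ℕ × Pt al → ℕ → ℕ // ∀ n, Measurable (f · n)}
  eM : I → {M : {s : Set (Pt al) // MeasurableSet s} // M.1 ∈ residual (Pt al)}
  eN : I → {N : {s : Set ℝ // MeasurableSet s} // ∀ᵐ t ∂mu, t ∈ N.1}
  eh : I → (ℕ → Cy × Cy)
  er : I → (ℕ → ℕ)
  sf : Surjective ef
  sb : Surjective eb
  sM : Surjective eM
  sN : Surjective eN
  sh : Surjective eh
  sr : Surjective er
  V : ℕ → Set (Pt al × Cd al)
  x : I → St al ℝ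
  hI : ∀ γ : I, (Iio γ).Countable
  unc : ¬ (univ : Set I).Countable
  G : ∀ γ, G mu (mkR ef eb eM eN eh er) V γ x (x γ)

theorem exists_model (CH : Cardinal.continuum.{0} = Cardinal.aleph 1) :
    ∃ (I : Type) (_ : LinearOrder I) (_ : WellFoundedLT I), Nonempty (Model I) := by
  obtain ⟨I, iL, iW, hI, hcard⟩ := exists_index CH
  refine ⟨I, iL, iW, ?_⟩
  have : Nonempty {f : Om al ℝ → ℕ → ℕ // ∀ n, Measurable (f · n)} :=
    ⟨⟨fun _ _ => 0, fun _ => measurable_const⟩⟩
  obtain ⟨ef, sf⟩ := exists_surj hcard (card_fun (Om al ℝ))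
  have : Nonempty {f : ℕ × Pt al → ℕ → ℕ // ∀ n, Measurable (f · n)} :=
    ⟨⟨fun _ _ => 0, fun _ => measurable_const⟩⟩
  obtain ⟨eb, sb⟩ := exists_surj hcard (card_fun (ℕ × Pt al))
  have : Nonempty {M : {s : Set (Pt al) // MeasurableSet s} // M.1 ∈ residual (Pt al)} :=
    ⟨⟨⟨univ, MeasurableSet.univ⟩, univ_mem⟩⟩
  obtain ⟨eM, sM⟩ := exists_surj hcard
    (Q := {M : {s : Set (Pt al) // MeasurableSet s} // M.1 ∈ residual (Pt al)})
    ((Cardinal.mk_subtype_le _).trans (card_measurableSet (Pt al)))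
  have : Nonempty {N : {s : Set ℝ // MeasurableSet s} // ∀ᵐ t ∂mu, t ∈ N.1} :=
    ⟨⟨⟨univ, MeasurableSet.univ⟩, by simp⟩⟩
  obtain ⟨eN, sN⟩ := exists_surj hcard
    (Q := {N : {s : Set ℝ // MeasurableSet s} // ∀ᵐ t ∂mu, t ∈ N.1})
    ((Cardinal.mk_subtype_le _).trans (card_measurableSet ℝ))
  have hCyc : Countable Cy := countable_Cy.to_subtype
  have hCyn : Nonempty Cy := ⟨⟨univ, 0, fun _ _ _ _ => mem_univ _⟩⟩
  obtain ⟨eh, sh⟩ := exists_surj hcard (Q := ℕ → Cy × Cy) (by
    rw [Cardinal.mk_arrow]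
    simp only [Cardinal.lift_id, Cardinal.mk_nat]
    calc #(Cy × Cy) ^ ℵ₀ ≤ 𝔠 ^ ℵ₀ := Cardinal.power_le_power_right
          ((Cardinal.mk_le_aleph0).trans Cardinal.aleph0_le_continuum)
      _ = 𝔠 := Cardinal.continuum_power_aleph0)
  obtain ⟨er, sr⟩ := exists_surj hcard (Q := ℕ → ℕ) (by
    rw [Cardinal.mk_arrow]
    simp only [Cardinal.lift_id, Cardinal.mk_nat]
    rw [Cardinal.aleph0_power_aleph0])
  obtain ⟨V, hV⟩ := exists_piBase (Pt al × Cd al)
  obtain ⟨x, hx⟩ := exists_seq mu (mkR ef eb eM eN eh er) hI hV (fun i => inferInstance)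
    (fun γ n => (ef γ).2 n)
    (fun γ j n => ((eb γ).2 n).comp (measurable_const.prodMk measurable_id))
    (fun γ => (eM γ).2)
    (by
      intro γ p hp
      have h1 : ∀ᵐ t ∂mu, t ∈ (eN γ).1.1 := (eN γ).2
      have h2 : ∀ᵐ t ∂mu, (∀ n, mu {t | app p xz ∈ (eh γ n).1.1 ∧
          app p (ww t) ∈ (eh γ n).2.1} ≤ (2 : ℝ≥0∞)⁻¹ ^ n) →
          ∀ᶠ n in atTop, ¬ (app p xz ∈ (eh γ n).1.1 ∧ app p (ww t) ∈ (eh γ n).2.1) := by
        by_cases h : ∀ n, mu {t | app p xz ∈ (eh γ n).1.1 ∧
          app p (ww t) ∈ (eh γ n).2.1} ≤ (2 : ℝ≥0∞)⁻¹ ^ n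
        · have hsum : ∑' n, mu {t | app p xz ∈ (eh γ n).1.1 ∧
              app p (ww t) ∈ (eh γ n).2.1} ≠ ∞ := by
            apply ne_top_of_le_ne_top _ (ENNReal.tsum_le_tsum h)
            rw [ENNReal.tsum_geometric]
            simp
          filter_upwards [ae_eventually_notMem hsum] with t ht _ using ht
        · exact Eventually.of_forall fun t h' => absurd h' h
      filter_upwards [h1, h2, ww_ne xz] with t g1 g2 g3
      refine ⟨⟨g1, g2⟩, ?_⟩
      obtain ⟨N, hN⟩ := eventually_atTop.1 g3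
      show {i | app p xz i ≠ app p (ww t) i}.Infinite
      rw [Set.infinite_iff_exists_gt]
      intro a
      obtain ⟨i, hi, hpi⟩ := hp (max (a + 1) N)
      refine ⟨i, ?_, by omega⟩
      show app p xz i ≠ app p (ww t) i
      rw [app_free hpi, app_free hpi]
      exact (hN i (by omega)).symm)
    (fun γ p hp => exists_z hp (er γ))
  refine ⟨⟨ef, eb, eM, eN, eh, er, sf, sb, sM, sN, sh, sr, V, x, hI, ?_, hx⟩⟩
  intro h
  rw [← Cardinal.le_aleph0_iff_set_countable, Cardinal.mk_univ, hcard] at h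
  exact absurd h (not_le.2 Cardinal.aleph0_lt_continuum)

end Pool.Agent.H39.BSel
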