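import Pool.Agent.H39.BSel.Tower

set_option autoImplicit false
set_option linter.unusedSectionVars false

/-!
The bounding operator for (random, Cohen, Cohen-generic Silver extension), and the preservation of
non-domination.
-/

namespace Pool.Agent.H39.BSel

open Topology Filter Set MeasureTheory Function
open scoped ENNReal

variable {β : ℕ → Type} [∀ i, TopologicalSpace (β i)] [∀ i, DiscreteTopology (β i)]
  [∀ i, Finite (β i)] [∀ i, Nonempty (β i)] [∀ i, MeasurableSpace (β i)] [∀ i, BorelSpace (β i)]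
  {Θ : Type} [MeasurableSpace Θ]

/-- Raw data of a stage: condition, random real, Cohen real. -/
abbrev Dt (β : ℕ → Type) (Θ : Type) : Type := Cd β × Θ × Pt β

/-- Sequences of raw data. -/
abbrev Om (β : ℕ → Type) (Θ : Type) : Type := ℕ → Dt β Θ

theorem measurable_compc : Measurable (fun z : Cd β × Cd β => comp z.1 z.2) := by
  rw [measurable_pi_iff]
  intro i
  have h1 : Measurable (fun z : Cd β × Cd β => (z.1 i).1) :=
    measurable_fst.comp ((measurable_pi_apply i).comp measurable_fst)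
  exact Measurable.ite (h1 (measurableSet_singleton true))
    ((measurable_pi_apply i).comp measurable_snd) ((measurable_pi_apply i).comp measurable_fst)

theorem measurable_step (j : ℕ) : Measurable (fun z : ((Om β Θ × Cd β) × Θ) × (Pt β × Cd β) =>
    ((update z.1.1.1 j (z.1.1.2, z.1.2, z.2.1), comp z.1.1.2 z.2.2) : Om β Θ × Cd β)) := by
  apply Measurable.prodMk
  · rw [measurable_pi_iff]
    intro i
    by_cases hi : i = j
    · subst hi
      simp only [update_self]
      exact (measurable_snd.comp (measurable_fst.comp measurable_fst)).prodMk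
        ((measurable_snd.comp measurable_fst).prodMk (measurable_fst.comp measurable_snd))
    · simp only [update_of_ne hi]
      exact (measurable_pi_apply i).comp
        (measurable_fst.comp (measurable_fst.comp measurable_fst))
  · exact measurable_compc.comp ((measurable_snd.comp (measurable_fst.comp measurable_fst)).prodMk
      (measurable_snd.comp measurable_snd))

/-- The stage functional. -/
def stp (j : ℕ) (F : Om β Θ) (p : Cd β) (t : Θ) (y : Pt β × Cd β) : Om β Θ × Cd β :=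
  (update F j (p, t, y.1), comp p y.2)

/-- `t` is bad for the bound `v` at level `n`. -/
def bad (V : ℕ → Set (Pt β × Cd β)) (φ : Om β Θ × Cd β → ℕ → ℕ) (j n v : ℕ) (z : Om β Θ × Cd β)
    (t : Θ) : Prop :=
  ∃ k < n, IsMeagre (V k ∩ {y | φ (stp j z.1 z.2 t y) n ≤ v})

variable {V : ℕ → Set (Pt β × Cd β)}

theorem measurableSet_bad (hV : PiBase (Pt β × Cd β) V) {φ : Om β Θ × Cd β → ℕ → ℕ}
    (hφ : ∀ n, Measurable (φ · n)) (j n v : ℕ) :
    MeasurableSet {z : (Om β Θ × Cd β) × Θ | bad V φ j n v z.1 z.2} := by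
  have hB : MeasurableSet {z : ((Om β Θ × Cd β) × Θ) × (Pt β × Cd β) |
      φ (stp j z.1.1.1 z.1.1.2 z.1.2 z.2) n ≤ v} := by
    have := (hφ n).comp (measurable_step (β := β) (Θ := Θ) j)
    exact measurableSet_le this measurable_const
  have h := measurableSet_nonmeagre hV hB
  have : {z : (Om β Θ × Cd β) × Θ | bad V φ j n v z.1 z.2} =
      ⋃ k ∈ Finset.range n, {z : (Om β Θ × Cd β) × Θ | ¬ IsMeagre (V k ∩ {y | (z, y) ∈
        {z : ((Om β Θ × Cd β) × Θ) × (Pt β × Cd β) |
          φ (stp j z.1.1.1 z.1.1.2 z.1.2 z.2) n ≤ v}})}ᶜ := by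
    ext z
    simp only [bad, mem_ofPred_eq, mem_iUnion, Finset.mem_range, mem_compl_iff, not_not,
      exists_prop]
  rw [this]
  exact Finset.measurableSet_biUnion _ fun k _ => (h k).compl

theorem bad_anti {φ : Om β Θ × Cd β → ℕ → ℕ} {j n v v' : ℕ} (h : v ≤ v') {z : Om β Θ × Cd β}
    {t : Θ} (hb : bad V φ j n v' z t) : bad V φ j n v z t := by
  obtain ⟨k, hk, h1⟩ := hb
  refine ⟨k, hk, h1.mono ?_⟩
  rintro y ⟨h2, h3⟩
  exact ⟨h2, le_trans h3 h⟩

variable (μ : Measure Θ) [IsProbabilityMeasure μ]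

theorem exists_bad_small (hV : PiBase (Pt β × Cd β) V) {φ : Om β Θ × Cd β → ℕ → ℕ}
    (hφ : ∀ n, Measurable (φ · n)) (j n : ℕ) (z : Om β Θ × Cd β) :
    ∃ v, μ {t | bad V φ j n v z t} ≤ (2 : ℝ≥0∞)⁻¹ ^ n := by
  have hm : ∀ v, MeasurableSet {t | bad V φ j n v z t} := fun v =>
    measurable_prodMk_left (x := z) (measurableSet_bad hV hφ j n v)
  have hanti : Antitone fun v => {t | bad V φ j n v z t} := fun v v' h t ht => bad_anti h ht
  have hempty : ⋂ v, {t | bad V φ j n v z t} = ∅ := by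
    rw [eq_empty_iff_forall_notMem]
    intro t ht
    rw [mem_iInter] at ht
    obtain ⟨v, hv⟩ := exists_bound_nonmeagre_lt hV (fun y => φ (stp j z.1 z.2 t y) n) n
    obtain ⟨k, hk, h1⟩ := ht v
    exact hv k hk h1
  have htend := tendsto_measure_iInter_atTop (μ := μ) (s := fun v => {t | bad V φ j n v z t})
    (fun v => (hm v).nullMeasurableSet) hanti ⟨0, measure_ne_top _ _⟩
  rw [hempty, measure_empty] at htend
  have hpos : (0 : ℝ≥0∞) < (2 : ℝ≥0∞)⁻¹ ^ n := by
    apply ENNReal.pow_pos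
    simp
  exact ((htend.eventually (gt_mem_nhds hpos)).exists).imp fun v hv => hv.le

/-- The bounding operator. -/
noncomputable def sharp (V : ℕ → Set (Pt β × Cd β)) (j : ℕ) (φ : Om β Θ × Cd β → ℕ → ℕ)
    (z : Om β Θ × Cd β) (n : ℕ) : ℕ :=
  sInf {v | μ {t | bad V φ j n v z t} ≤ (2 : ℝ≥0∞)⁻¹ ^ n}

theorem sharp_le_iff (hV : PiBase (Pt β × Cd β) V) {φ : Om β Θ × Cd β → ℕ → ℕ}
    (hφ : ∀ n, Measurable (φ · n)) (j n v : ℕ) (z : Om β Θ × Cd β) :
    sharp μ V j φ z n ≤ v ↔ μ {t | bad V φ j n v z t} ≤ (2 : ℝ≥0∞)⁻¹ ^ n := by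
  constructor
  · intro h
    have h1 : μ {t | bad V φ j n (sharp μ V j φ z n) z t} ≤ (2 : ℝ≥0∞)⁻¹ ^ n :=
      Nat.sInf_mem (s := {v | μ {t | bad V φ j n v z t} ≤ (2 : ℝ≥0∞)⁻¹ ^ n})
        (exists_bad_small μ hV hφ j n z)
    exact (measure_mono fun t ht => bad_anti h ht).trans h1
  · intro h
    exact Nat.sInf_le h

theorem measurable_sharp (hV : PiBase (Pt β × Cd β) V) {φ : Om β Θ × Cd β → ℕ → ℕ}
    (hφ : ∀ n, Measurable (φ · n)) (j n : ℕ) : Measurable (sharp μ V j φ · n) := by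
  apply measurable_of_Iic
  intro v
  have : (sharp μ V j φ · n) ⁻¹' Iic v =
      {z | μ {t | bad V φ j n v z t} ≤ (2 : ℝ≥0∞)⁻¹ ^ n} := by
    ext z
    exact sharp_le_iff μ hV hφ j n v z
  rw [this]
  exact measurableSet_le (measurable_measure_prodMk_left (measurableSet_bad hV hφ j n v))
    measurable_const

/-- Preservation of non-domination by one stage. -/
theorem sharp_spec (hV : PiBase (Pt β × Cd β) V) {φ : Om β Θ × Cd β → ℕ → ℕ}
    (hφ : ∀ n, Measurable (φ · n)) (j : ℕ) (F : Om β Θ) (p : Cd β) (g : ℕ → ℕ)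
    (h : ∃ᶠ n in atTop, sharp μ V j φ (F, p) n ≤ g n) :
    ∀ᵐ t ∂μ, ∀ᶠ y in residual (Pt β × Cd β), ∃ᶠ n in atTop, φ (stp j F p t y) n ≤ g n := by
  classical
  set E : ℕ → Set Θ := fun n => if sharp μ V j φ (F, p) n ≤ g n then
    {t | bad V φ j n (g n) (F, p) t} else ∅ with hE
  have hEn : ∀ n, μ (E n) ≤ (2 : ℝ≥0∞)⁻¹ ^ n := by
    intro n
    simp only [hE]
    split_ifs with h1
    · exact (sharp_le_iff μ hV hφ j n (g n) (F, p)).1 h1
    · simp
  have hsum : ∑' n, μ (E n) ≠ ∞ := by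
    apply ne_top_of_le_ne_top _ (ENNReal.tsum_le_tsum hEn)
    rw [ENNReal.tsum_geometric]
    simp
  filter_upwards [ae_eventually_notMem hsum] with t ht
  have hm : ∀ n, Measurable fun y : Pt β × Cd β => φ (stp j F p t y) n := by
    intro n
    have h1 : Measurable fun y : Pt β × Cd β => (((F, p), t), y) := measurable_prodMk_left
    exact (hφ n).comp ((measurable_step (β := β) (Θ := Θ) j).comp h1)
  apply residual_frequently_le hV (ψ := fun y => φ (stp j F p t y)) hm
  apply (h.and_eventually ht).mono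
  rintro n ⟨h1, h2⟩ k hk h3
  apply h2
  simp only [hE, if_pos h1]
  exact ⟨k, hk, h3⟩

/-- Operations on functionals. -/
abbrev Op (β : ℕ → Type) [∀ i, Nonempty (β i)] : Type := ℕ ⊕ (Σ m : ℕ, (stems m : Set (Cd β)))

instance : Countable (Op β) := by
  have hfin : ∀ m, Finite (stems m : Set (Cd β)) := fun m => (finite_stems m).to_subtype
  infer_instance

/-- The functionals obtained from `f` by the operations. -/
noncomputable def ev (V : ℕ → Set (Pt β × Cd β)) (f : Om β Θ → ℕ → ℕ) :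
    List (Op β) → Om β Θ × Cd β → ℕ → ℕ
  | [] => fun z => f z.1
  | (Sum.inl j :: l) => sharp μ V j (ev V f l)
  | (Sum.inr s :: l) => fun z => ev V f l (z.1, splice s.1 s.2.1 z.2)

theorem measurable_splice (m : ℕ) (σ : Cd β) : Measurable (splice m σ) := by
  rw [measurable_pi_iff]
  intro i
  by_cases h : i < m
  · simp only [splice, h, if_true]; exact measurable_const
  · simp only [splice, h, if_false]; exact measurable_pi_apply i

theorem measurable_ev (hV : PiBase (Pt β × Cd β) V) {f : Om β Θ → ℕ → ℕ}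
    (hf : ∀ n, Measurable (f · n)) (l : List (Op β)) : ∀ n, Measurable (ev μ V f l · n) := by
  induction l with
  | nil => exact fun n => (hf n).comp measurable_fst
  | cons o l ih =>
    rcases o with j | s
    · exact fun n => measurable_sharp μ hV ih j n
    · exact fun n => (ih n).comp (measurable_fst.prodMk
        ((measurable_splice s.1 s.2.1).comp measurable_snd))

/-- Conditions at which all the derived functionals do not dominate `g`. -/
def ND (V : ℕ → Set (Pt β × Cd β)) (f : Om β Θ → ℕ → ℕ) (g : ℕ → ℕ) (F : Om β Θ) : Set (Cd β) :=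
  {q | ∀ l : List (Op β), ∃ᶠ n in atTop, ev μ V f l (F, q) n ≤ g n}

theorem ND_fin {f : Om β Θ → ℕ → ℕ} {g : ℕ → ℕ} {F : Om β Θ} :
    ∀ q ∈ ND μ V f g F, ∀ q', EqF q' q → q' ∈ ND μ V f g F := by
  rintro q hq q' ⟨m, hm⟩ l
  have := hq (Sum.inr ⟨m, ⟨splice m q' dflt, splice_mem_stems m q'⟩⟩ :: l)
  have h2 : splice m (splice m q' dflt) q = q' := (EqF.eq_splice hm).symm
  simp only [ev] at this
  rw [h2] at this
  exact this

theorem ND_apply {f : Om β Θ → ℕ → ℕ} {g : ℕ → ℕ} {F : Om β Θ} {q : Cd β}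
    (h : q ∈ ND μ V f g F) : ∃ᶠ n in atTop, f F n ≤ g n := h []

/-- Choosing the non-dominated function. -/
theorem exists_ND (hV : PiBase (Pt β × Cd β) V) {V' : ℕ → Set (Cd β)} (hV' : PiBase (Cd β) V')
    {f : Om β Θ → ℕ → ℕ} (hf : ∀ n, Measurable (f · n)) {S : Set (Om β Θ)} (hS : S.Countable)
    (p : Cd β) :
    ∃ g, ∀ F ∈ S, p ∈ ND μ V f g F ∧ ∀ᶠ r in residual (Cd β), comp p r ∈ ND μ V f g F := by
  have : Countable S := hS.to_subtype
  obtain ⟨g, hg1, hg2⟩ := exists_cat_bound hV' (ι := S × List (Op β))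
    (fun i r => ev μ V f i.2 (i.1.1, comp p r)) (fun i n => (measurable_ev μ hV hf i.2 n).comp
      (measurable_const.prodMk (measurable_compc.comp (measurable_const.prodMk measurable_id))))
    (fun i => ev μ V f i.2 (i.1.1, p))
  refine ⟨g, fun F hF => ⟨fun l => (hg1 (⟨F, hF⟩, l)).frequently, ?_⟩⟩
  have : ∀ᶠ r in residual (Cd β), ∀ l, ∃ᶠ n in atTop, ev μ V f l (F, comp p r) n ≤ g n := by
    rw [eventually_countable_forall]
    exact fun l => hg2 (⟨F, hF⟩, l)
  exact this

/-- One stage preserves `ND`. -/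
theorem ND_step (hV : PiBase (Pt β × Cd β) V) {f : Om β Θ → ℕ → ℕ} (hf : ∀ n, Measurable (f · n))
    {g : ℕ → ℕ} {F : Om β Θ} {p : Cd β} (h : p ∈ ND μ V f g F) (j : ℕ) :
    ∀ᵐ t ∂μ, ∀ᶠ c in residual (Pt β), ∀ᶠ r in residual (Cd β),
      comp p r ∈ ND μ V f g (update F j (p, t, c)) := by
  have h1 : ∀ᵐ t ∂μ, ∀ l : List (Op β), ∀ᶠ y in residual (Pt β × Cd β), ∃ᶠ n in atTop,
      ev μ V f l (stp j F p t y) n ≤ g n := by
    rw [ae_all_iff]
    intro l
    exact sharp_spec μ hV (measurable_ev μ hV hf l) j F p g (h (Sum.inl j :: l))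
  filter_upwards [h1] with t ht
  have h2 : ∀ᶠ y in residual (Pt β × Cd β), ∀ l : List (Op β), ∃ᶠ n in atTop,
      ev μ V f l (stp j F p t y) n ≤ g n := by
    rw [eventually_countable_forall]
    exact ht
  exact residual_prod h2

end Pool.Agent.H39.BSel
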