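import Pool.Agent.H39.BSel.Cat

set_option autoImplicit false
set_option linter.unusedSectionVars false

/-!
Silver conditions over products of finite alphabets: the composition of conditions, category of
generic extensions, stable sets of conditions and the gluing lemma.
-/

namespace Pool.Agent.H39.BSel

open Topology Filter Set MeasureTheory

section Cyl

variable {α β γ : ℕ → Type} [∀ i, TopologicalSpace (α i)] [∀ i, DiscreteTopology (α i)]
  [∀ i, TopologicalSpace (β i)] [∀ i, DiscreteTopology (β i)]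
  [∀ i, TopologicalSpace (γ i)] [∀ i, DiscreteTopology (γ i)]

theorem isOpen_cyl (x : ∀ i, α i) (n : ℕ) : IsOpen {y : ∀ i, α i | ∀ i < n, y i = x i} := by
  have : {y : ∀ i, α i | ∀ i < n, y i = x i} = ⋂ i ∈ Finset.range n, {y | y i = x i} := by
    ext y; simp
  rw [this]
  apply isOpen_biInter_finset
  intro i _
  exact (isOpen_discrete {x i}).preimage (continuous_apply i)

theorem exists_cyl {U : Set (∀ i, α i)} (hU : IsOpen U) {x : ∀ i, α i} (hx : x ∈ U) :
    ∃ n, ∀ y, (∀ i < n, y i = x i) → y ∈ U := by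
  obtain ⟨_, ⟨y, n, rfl⟩, h1, h2⟩ :=
    (PiNat.isTopologicalBasis_cylinders α).exists_subset_of_mem_open hx hU
  refine ⟨n, fun z hz => h2 ?_⟩
  intro i hi
  rw [hz i hi, h1 i hi]

theorem isOpen_of_cyl {U : Set (∀ i, α i)}
    (h : ∀ x ∈ U, ∃ n, ∀ y, (∀ i < n, y i = x i) → y ∈ U) : IsOpen U := by
  rw [isOpen_iff_mem_nhds]
  intro x hx
  obtain ⟨n, hn⟩ := h x hx
  exact Filter.mem_of_superset ((isOpen_cyl x n).mem_nhds (fun _ _ => rfl)) hn

/-- Coordinatewise binary maps. -/
def coord (φ : ∀ i, α i → β i → γ i) (z : (∀ i, α i) × (∀ i, β i)) : ∀ i, γ i :=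
  fun i => φ i (z.1 i) (z.2 i)

theorem continuous_coord (φ : ∀ i, α i → β i → γ i) : Continuous (coord φ) := by
  apply continuous_pi
  intro i
  have h1 : Continuous fun z : α i × β i => φ i z.1 z.2 := continuous_of_discreteTopology
  exact h1.comp (((continuous_apply i).comp continuous_fst).prodMk
    ((continuous_apply i).comp continuous_snd))

theorem isOpenMap_coord (φ : ∀ i, α i → β i → γ i) (N : ℕ)
    (h : ∀ i ≥ N, ∀ c, ∃ a b, φ i a b = c) : IsOpenMap (coord φ) := by
  intro U hU
  apply isOpen_of_cyl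
  rintro _ ⟨⟨x, y⟩, hxy, rfl⟩
  obtain ⟨U1, U2, hU1, hU2, hx, hy, hsub⟩ := isOpen_prod_iff.1 hU x y hxy
  obtain ⟨n1, h1⟩ := exists_cyl hU1 hx
  obtain ⟨n2, h2⟩ := exists_cyl hU2 hy
  set n := max N (max n1 n2) with hn
  refine ⟨n, fun z hz => ?_⟩
  have : ∀ i, ∃ a b, (i < n → a = x i ∧ b = y i) ∧ φ i a b = z i := by
    intro i
    by_cases hi : i < n
    · exact ⟨x i, y i, fun _ => ⟨rfl, rfl⟩, (hz i hi).symm⟩
    · obtain ⟨a, b, hab⟩ := h i (by omega) (z i)
      exact ⟨a, b, fun h => absurd h hi, hab⟩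
  choose a b hab using this
  refine ⟨(a, b), hsub ⟨h1 _ fun i hi => ((hab i).1 (by omega)).1,
    h2 _ fun i hi => ((hab i).1 (by omega)).2⟩, ?_⟩
  funext i
  exact (hab i).2

theorem residual_coord {φ : ∀ i, α i → β i → γ i} (N : ℕ)
    (h : ∀ i ≥ N, ∀ c, ∃ a b, φ i a b = c) [∀ i, Countable (β i)] {C : Set (∀ i, γ i)}
    (hC : C ∈ residual (∀ i, γ i)) :
    ∀ᶠ x in residual (∀ i, α i), ∀ᶠ y in residual (∀ i, β i), coord φ (x, y) ∈ C := by
  exact residual_prod (P := fun z => coord φ z ∈ C)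
    (tendsto_residual_of_isOpenMap (continuous_coord φ) (isOpenMap_coord φ N h) hC)

end Cyl

section Finite

variable {α : ℕ → Type} [∀ i, TopologicalSpace (α i)] [∀ i, DiscreteTopology (α i)]
  [∀ i, Nonempty (α i)]

/-- Use `a` below `m` and `b` from `m` on. -/
def splice (m : ℕ) (a b : ∀ i, α i) : ∀ i, α i := fun i => if i < m then a i else b i

theorem splice_lt {m i : ℕ} (h : i < m) (a b : ∀ i, α i) : splice m a b i = a i := if_pos h

theorem splice_ge {m i : ℕ} (h : m ≤ i) (a b : ∀ i, α i) : splice m a b i = b i :=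
  if_neg (not_lt.2 h)

/-- An arbitrary point. -/
noncomputable def dflt : ∀ i, α i := fun _ => Classical.arbitrary _

/-- Stems of length `m`. -/
def stems (m : ℕ) : Set (∀ i, α i) := {x | ∀ i ≥ m, x i = dflt i}

theorem splice_mem_stems (m : ℕ) (x : ∀ i, α i) : splice m x dflt ∈ stems m :=
  fun _ hi => splice_ge hi _ _

theorem finite_stems [∀ i, Finite (α i)] (m : ℕ) : (stems m : Set (∀ i, α i)).Finite := by
  classical
  apply Set.Finite.subset (Set.finite_range fun s : (∀ i : Fin m, α i) =>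
    (fun i => if h : i < m then s ⟨i, h⟩ else dflt i : ∀ i, α i))
  intro x hx
  refine ⟨fun i => x i, ?_⟩
  funext i
  by_cases h : i < m
  · simp [h]
  · simp [h, hx i (not_lt.1 h)]

theorem residual_splice {C : Set (∀ i, α i)} (hC : C ∈ residual (∀ i, α i)) (m : ℕ)
    (a : ∀ i, α i) : ∀ᶠ x in residual (∀ i, α i), splice m a x ∈ C := by
  have ho : IsOpenMap (splice m a) := by
    intro U hU
    apply isOpen_of_cyl
    rintro _ ⟨x, hx, rfl⟩
    obtain ⟨n, hn⟩ := exists_cyl hU hx
    refine ⟨max m n, fun z hz => ⟨splice (max m n) x z, hn _ fun i hi => ?_, ?_⟩⟩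
    · exact splice_lt (by omega) _ _
    · funext i
      by_cases h : i < m
      · rw [splice_lt h, hz i (by omega), splice_lt h]
      · rw [splice_ge (not_lt.1 h)]
        by_cases h2 : i < max m n
        · rw [splice_lt h2, hz i h2, splice_ge (not_lt.1 h)]
        · rw [splice_ge (not_lt.1 h2)]
  have hc : Continuous (splice m a) := by
    apply continuous_pi
    intro i
    by_cases h : i < m
    · simp only [splice, h, if_true]; exact continuous_const
    · simp only [splice, h, if_false]; exact continuous_apply i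
  exact tendsto_residual_of_isOpenMap hc ho hC

/-- Eventual equality. -/
def EqF (p q : ∀ i, α i) : Prop := ∃ m, ∀ i ≥ m, p i = q i

theorem EqF.refl (p : ∀ i, α i) : EqF p p := ⟨0, fun _ _ => rfl⟩

theorem EqF.symm {p q : ∀ i, α i} (h : EqF p q) : EqF q p := by
  obtain ⟨m, hm⟩ := h
  exact ⟨m, fun i hi => (hm i hi).symm⟩

theorem EqF.trans {p q r : ∀ i, α i} (h : EqF p q) (h' : EqF q r) : EqF p r := by
  obtain ⟨m, hm⟩ := h
  obtain ⟨m', hm'⟩ := h'
  exact ⟨max m m', fun i hi => (hm i (by omega)).trans (hm' i (by omega))⟩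

theorem eqF_splice (m : ℕ) (a b : ∀ i, α i) : EqF (splice m a b) b :=
  ⟨m, fun _ hi => splice_ge hi _ _⟩

theorem EqF.eq_splice {p q : ∀ i, α i} {m : ℕ} (h : ∀ i ≥ m, p i = q i) :
    p = splice m (splice m p dflt) q := by
  funext i
  by_cases hi : i < m
  · rw [splice_lt hi, splice_lt hi]
  · rw [splice_ge (not_lt.1 hi), h i (not_lt.1 hi)]

/-- Mixing along a set of coordinates. -/
noncomputable def mix (A : ℕ → Prop) (v u : ∀ i, α i) : ∀ i, α i := by
  classical exact fun i => if A i then u i else v i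

theorem mix_pos {A : ℕ → Prop} {i : ℕ} (h : A i) (v u : ∀ i, α i) : mix A v u i = u i := if_pos h

theorem mix_neg {A : ℕ → Prop} {i : ℕ} (h : ¬ A i) (v u : ∀ i, α i) : mix A v u i = v i :=
  if_neg h

theorem mix_congr {A : ℕ → Prop} (v : ∀ i, α i) {u u' : ∀ i, α i} (h : ∀ i, A i → u i = u' i) :
    mix A v u = mix A v u' := by
  funext i
  by_cases hi : A i
  · rw [mix_pos hi, mix_pos hi, h i hi]
  · rw [mix_neg hi, mix_neg hi]

theorem continuous_mix (A : ℕ → Prop) (v : ∀ i, α i) : Continuous (mix A v) := by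
  apply continuous_pi
  intro i
  by_cases h : A i
  · simp only [mix, h, if_true]; exact continuous_apply i
  · simp only [mix, h, if_false]; exact continuous_const

theorem exists_mix [∀ i, Countable (α i)] [∀ i, Finite (α i)] (A : ℕ → Prop)
    {C : Set (∀ i, α i)} (hC : C ∈ residual (∀ i, α i)) :
    ∃ v, ∀ᶠ u in residual (∀ i, α i), mix A v u ∈ C := by
  classical
  have h := residual_coord (φ := fun i (a b : α i) => if A i then b else a) 0
    (fun i _ c => ⟨c, c, by simp⟩) hC
  have h2 : (∃ᶠ v in residual (∀ i, α i), True) := by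
    rw [Filter.frequently_true_iff_neBot]
    exact ⟨fun h => not_isMeagre_of_mem_residual (s := (univ : Set (∀ i, α i))) univ_mem
      (by rw [IsMeagre, h]; exact mem_bot)⟩
  obtain ⟨v, -, hv⟩ := (h2.and_eventually h).exists
  refine ⟨v, ?_⟩
  filter_upwards [hv] with u hu
  have : mix A v u = coord (fun i (a b : α i) => if A i then b else a) (v, u) := by
    funext i
    by_cases hi : A i
    · rw [mix_pos hi]; simp [coord, hi]
    · rw [mix_neg hi]; simp [coord, hi]
  rw [this]
  exact hu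

end Finite

end Pool.Agent.H39.BSel
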