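import Pool.Agent.H39.BSel.Glue

set_option autoImplicit false
set_option linter.unusedSectionVars false

/-!
Generic extensions of Silver conditions make countable families of Borel functions bounded and
infinitely often equal to a fixed function.
-/

namespace Pool.Agent.H39.BSel

open Topology Filter Set MeasureTheory

section IE

variable {Y : Type*} [TopologicalSpace Y] [BaireSpace Y] [MeasurableSpace Y] [BorelSpace Y]
  {V : ℕ → Set Y}

theorem exists_ie (hV : PiBase Y V) {ι : Type*} [Countable ι] (ψ : ι → Y → ℕ → ℕ)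
    (hψ : ∀ i n, Measurable (ψ i · n)) :
    ∃ h : ℕ → ℕ, ∀ i, ∀ᶠ y in residual Y, ∃ n, ψ i y n = h n := by
  classical
  obtain ⟨c, hc⟩ := exists_injective_nat (ι × ℕ)
  have h1 : ∀ i n k, ∃ v, ¬ IsMeagre (V k ∩ {y | ψ i y n = v}) := by
    intro i n k
    by_contra h
    push Not at h
    apply not_isMeagre_of_isOpen (hV.isOpen k) (hV.nonempty k)
    apply (isMeagre_iUnion h).mono
    intro y hy
    exact mem_iUnion.2 ⟨ψ i y n, hy, by simp⟩
  choose v hv using h1
  set h : ℕ → ℕ := fun n => if H : ∃ z : ι × ℕ, c z = n then v H.choose.1 n H.choose.2 else 0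
    with hh
  have hval : ∀ i k, h (c (i, k)) = v i (c (i, k)) k := by
    intro i k
    have H : ∃ z : ι × ℕ, c z = c (i, k) := ⟨(i, k), rfl⟩
    have h2 : H.choose = (i, k) := hc H.choose_spec
    simp only [hh, dif_pos H, h2]
  refine ⟨h, fun i => ?_⟩
  have hm : MeasurableSet {y | ∀ n, ψ i y n ≠ h n} := by
    have : {y | ∀ n, ψ i y n ≠ h n} = ⋂ n, {y | ψ i y n = h n}ᶜ := by ext y; simp
    rw [this]
    exact MeasurableSet.iInter fun n => ((hψ i n) (measurableSet_singleton (h n))).compl
  have key : IsMeagre {y | ∀ n, ψ i y n ≠ h n} := by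
    by_contra hne
    obtain ⟨k, -, hk⟩ := exists_meagre_compl hV isOpen_univ hm (by rwa [univ_inter])
    apply hv i (c (i, k)) k
    apply hk.mono
    rintro y ⟨h1, h2⟩
    refine ⟨h1, fun h3 => h3 (c (i, k)) ?_⟩
    rw [hval]
    exact h2
  have key' : ∀ᶠ y in residual Y, ¬ ∀ n, ψ i y n ≠ h n := key
  filter_upwards [key'] with y hy
  push Not at hy
  exact hy

end IE

variable {β : ℕ → Type} [∀ i, TopologicalSpace (β i)] [∀ i, DiscreteTopology (β i)]
  [∀ i, Finite (β i)] [∀ i, Nonempty (β i)] [∀ i, MeasurableSpace (β i)] [∀ i, BorelSpace (β i)]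

/-- Conditions all of whose points have bounded and infinitely-often-equal values under `f`. -/
def good (f : ℕ → Pt β → ℕ → ℕ) : Set (Cd β) :=
  {q | (∃ g : ℕ → ℕ, ∀ x, PAE x q → ∀ j, ∀ᶠ n in atTop, f j x n ≤ g n) ∧
    ∃ h : ℕ → ℕ, ∀ x, PAE x q → ∀ j, ∃ n, f j x n = h n}

theorem stable_good (f : ℕ → Pt β → ℕ → ℕ) : Stable (good f) := by
  apply Stable.of_upward
  rintro p ⟨⟨g, hg⟩, ⟨h, hh⟩⟩ q hq
  exact ⟨⟨g, fun x hx => hg x (hx.trans hq)⟩, ⟨h, fun x hx => hh x (hx.trans hq)⟩⟩

theorem continuous_app_right (p : Cd β) : Continuous (app p) := by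
  apply continuous_pi
  intro i
  by_cases h : (p i).1 = true
  · simp only [app, h, if_true]; exact continuous_apply i
  · simp only [app, h]; exact continuous_const

theorem continuous_splice {α : ℕ → Type} [∀ i, TopologicalSpace (α i)] (m : ℕ) (a : ∀ i, α i) :
    Continuous (splice m a) := by
  apply continuous_pi
  intro i
  by_cases h : i < m
  · simp only [splice, h, if_true]; exact continuous_const
  · simp only [splice, h, if_false]; exact continuous_apply i

theorem residual_good (p : Cd β) (f : ℕ → Pt β → ℕ → ℕ) (hf : ∀ j n, Measurable (f j · n)) :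
    ∀ᶠ r in residual (Cd β), comp p r ∈ good f := by
  classical
  have hfin : ∀ m, Finite (stems m : Set (Pt β)) := fun m => (finite_stems m).to_subtype
  set ι := ℕ × (Σ m : ℕ, (stems m : Set (Pt β))) with hι
  set θ : (Σ m : ℕ, (stems m : Set (Pt β))) → Pt β → Pt β :=
    fun s u => splice s.1 s.2.1 (app p u) with hθ
  have hθc : ∀ s, Continuous (θ s) := fun s => (continuous_splice _ _).comp (continuous_app_right p)
  set ψ : ι → Pt β → ℕ → ℕ := fun i u n => f i.1 (θ i.2 u) n with hψdef
  have hψ : ∀ i n, Measurable (ψ i · n) := fun i n => (hf i.1 n).comp (hθc i.2).measurable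
  obtain ⟨V, hV⟩ := exists_piBase (Pt β)
  obtain ⟨h, hh⟩ := exists_ie hV ψ hψ
  -- open approximations
  have hopen : ∀ i n v, ∃ O : Set (Pt β), IsOpen O ∧
      ∀ᶠ u in residual (Pt β), ψ i u n = v ↔ u ∈ O := by
    intro i n v
    obtain ⟨O, hO, hE⟩ := ((hψ i n) (measurableSet_singleton v)).residualEq_isOpen
    refine ⟨O, hO, ?_⟩
    filter_upwards [hE] with u hu
    have : (u ∈ (fun x => ψ i x n) ⁻¹' {v}) = (u ∈ O) := hu
    rw [← this]
    simp
  choose O hO hE using hopen
  have hC : ∀ᶠ u in residual (Pt β), ∀ i, (∃ n, ψ i u n = h n) ∧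
      ∀ n v, ψ i u n = v ↔ u ∈ O i n v := by
    rw [eventually_countable_forall]
    intro i
    rw [eventually_and, eventually_countable_forall]
    refine ⟨hh i, fun n => ?_⟩
    rw [eventually_countable_forall]
    exact hE i n
  set A : ℕ → Prop := fun i => (p i).1 = true with hA
  obtain ⟨v, hv⟩ := exists_mix A hC
  have hav := residual_avoid hv
  filter_upwards [hav] with r hr
  -- points below `q = comp p r`
  have hmixC : ∀ x, PAE x (comp p r) → (∀ i, (∃ n, ψ i (mix A v x) n = h n) ∧
      ∀ n w, ψ i (mix A v x) n = w ↔ mix A v x ∈ O i n w) := by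
    rintro x ⟨m, hm⟩
    set x' : Pt β := fun i => if (p i).1 = true then x i else if (r i).1 = true then x i else (r i).2
      with hx'
    have h1 : PAE x' r := by
      refine ⟨m, fun i hi hri => ?_⟩
      by_cases hpi : (p i).1 = true
      · have h2 : comp p r i = r i := comp_free hpi
        have h3 := hm i hi (by rw [h2]; exact hri)
        simp only [hx', hpi, if_true, h3, h2]
      · simp only [hx', hpi, hri]
        simp
    have h2 := hr x' h1
    have h3 : mix A v x' = mix A v x := mix_congr v fun i hi => by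
      have : (p i).1 = true := hi
      simp [hx', this]
    rw [h3] at h2
    exact h2
  -- recover `x` from `mix A v x`
  have hrec : ∀ m x, PExt m x (comp p r) → ∀ s : (stems m : Set (Pt β)),
      (∀ i < m, s.1 i = x i) → θ ⟨m, s⟩ (mix A v x) = x := by
    intro m x hm s hs
    funext i
    simp only [hθ]
    by_cases him : i < m
    · rw [splice_lt him, hs i him]
    · rw [splice_ge (not_lt.1 him)]
      cases hpi : (p i).1
      · rw [app_not hpi]
        have h2 : comp p r i = p i := comp_not hpi
        have h3 := hm i (not_lt.1 him) (by rw [h2]; exact hpi)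
        rw [h3, h2]
      · rw [app_free hpi, mix_pos (by exact hpi)]
  refine ⟨?_, h, ?_⟩
  · -- boundedness
    have hb : ∀ j m n, ∃ b, ∀ x, PExt m x (comp p r) → f j x n ≤ b := by
      intro j m n
      set K : Set (Pt β) := {x | PExt m x (comp p r)} with hK
      have hKc : IsClosed K := by
        rw [← isOpen_compl_iff]
        apply isOpen_of_cyl
        intro x hx
        have : ∃ i ≥ m, (comp p r i).1 = false ∧ x i ≠ (comp p r i).2 := by
          by_contra h
          push Not at h
          exact hx h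
        obtain ⟨i, hi, h1, h2⟩ := this
        refine ⟨i + 1, fun y hy h3 => ?_⟩
        apply h2
        rw [← hy i (Nat.lt_succ_self i)]
        exact h3 i hi h1
      have hKcomp : IsCompact K := hKc.isCompact
      have hcont : ContinuousOn (fun x => f j x n) K := by
        intro x hx
        rw [ContinuousWithinAt]
        rw [nhds_discrete, tendsto_pure]
        have hs : splice m x dflt ∈ (stems m : Set (Pt β)) := splice_mem_stems m x
        set s : (stems m : Set (Pt β)) := ⟨splice m x dflt, hs⟩ with hsdef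
        have hsx : ∀ i < m, s.1 i = x i := fun i hi => splice_lt hi _ _
        have h1 := (hmixC x ⟨m, hx⟩ (j, ⟨m, s⟩)).2 n (f j x n)
        have h2 : ψ (j, ⟨m, s⟩) (mix A v x) n = f j x n := by
          simp only [hψdef]
          rw [hrec m x hx s hsx]
        have h3 := h1.1 h2
        have h4 : {y | mix A v y ∈ O (j, ⟨m, s⟩) n (f j x n)} ∩ {y | ∀ i < m, y i = x i} ∈ 𝓝 x :=
          Filter.inter_mem
            (((hO _ _ _).preimage (continuous_mix A v)).mem_nhds h3)
            ((isOpen_cyl x m).mem_nhds (fun _ _ => rfl))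
        filter_upwards [mem_nhdsWithin_of_mem_nhds h4, self_mem_nhdsWithin] with y hy hyK
        have h5 := ((hmixC y ⟨m, hyK⟩ (j, ⟨m, s⟩)).2 n (f j x n)).2 hy.1
        have h6 : ∀ i < m, y i = x i := hy.2
        simp only [hψdef] at h5
        rw [hrec m y hyK s (fun i hi => (hsx i hi).trans (h6 i hi).symm)] at h5
        exact h5
      obtain ⟨b, hb⟩ := (hKcomp.image_of_continuousOn hcont).bddAbove
      exact ⟨b, fun x hx => hb ⟨x, hx, rfl⟩⟩
    choose b hb using hb
    refine ⟨fun n => (Finset.range (n + 1)).sup fun j => (Finset.range (n + 1)).sup fun m =>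
      b j m n, ?_⟩
    rintro x ⟨m, hm⟩ j
    filter_upwards [eventually_ge_atTop (max j m)] with n hn
    apply le_trans (hb j m n x hm)
    refine le_trans ?_ (Finset.le_sup (f := fun j => (Finset.range (n + 1)).sup fun m => b j m n)
      (Finset.mem_range.2 (show j < n + 1 by omega)))
    exact Finset.le_sup (f := fun m => b j m n) (Finset.mem_range.2 (show m < n + 1 by omega))
  · rintro x ⟨m, hm⟩ j
    set s : (stems m : Set (Pt β)) := ⟨splice m x dflt, splice_mem_stems m x⟩ with hsdef
    have hsx : ∀ i < m, s.1 i = x i := fun i hi => splice_lt hi _ _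
    obtain ⟨n, hn⟩ := (hmixC x ⟨m, hm⟩ (j, ⟨m, s⟩)).1
    refine ⟨n, ?_⟩
    simp only [hψdef] at hn
    rw [hrec m x hm s hsx] at hn
    exact hn

end Pool.Agent.H39.BSel
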